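import Pool.Agent.MP_8d06cc_nt.H27.Defs

/-! The function field of `y ^ 2 = f(x)`: places, the involution and Pell equations. -/

namespace Pool.Agent.MP_8d06cc_nt.H27

open Polynomial WithZero

variable {k F : Type} [Field k] [Field F] [Algebra k F]

namespace Place

variable (v : Place k F)

theorem aeval_le (p : k[X]) {x : F} (hx : v.val x ≤ 1) : v.val (aeval x p) ≤ 1 := by
  rw [aeval_eq_sum_range]
  refine v.val.map_sum_le fun i _ => ?_
  rw [Algebra.smul_def, map_mul, map_pow]
  exact mul_le_one' (v.const_le _) (pow_le_one' hx i)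

theorem aeval_big {x : F} (hx : 1 < v.val x) {p : k[X]} (hp : p ≠ 0) :
    v.val (aeval x p) = v.val x ^ p.natDegree := by
  have h0 : v.val x ^ p.natDegree ≠ 0 := pow_ne_zero _ (zero_lt_one.trans hx).ne'
  have e : v.val (p.coeff p.natDegree • x ^ p.natDegree) = v.val x ^ p.natDegree := by
    rw [Algebra.smul_def, map_mul, map_pow, v.triv (p.coeff _) (leadingCoeff_ne_zero.2 hp),
      one_mul]
  rw [aeval_eq_sum_range, Finset.sum_range_succ, v.val.map_add_eq_of_lt_right, e]
  rw [e]
  refine v.val.map_sum_lt h0 fun i hi => ?_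
  rw [Algebra.smul_def, map_mul, map_pow]
  exact (mul_le_of_le_one_left' (v.const_le _)).trans_lt
    (pow_lt_pow_right₀ hx (Finset.mem_range.1 hi))

/-- Pull-back of a place along an automorphism. -/
def comap (ι : F ≃ₐ[k] F) : Place k F where
  val := v.val.comap (ι : F →+* F)
  surj := v.surj.comp ι.surjective
  triv a ha := by simpa using v.triv a ha

theorem comap_val (ι : F ≃ₐ[k] F) (h : F) : (v.comap ι).val h = v.val (ι h) := rfl

theorem comap_deg (ι : F ≃ₐ[k] F) : (v.comap ι).deg = v.deg := by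
  let e : (v.comap ι).ring ≃ₗ[k] v.ring := ι.toLinearEquiv.ofSubmodule' v.ring
  refine (Submodule.Quotient.equiv _ _ e ?_).finrank_eq
  rw [Submodule.map_equiv_eq_comap_symm]
  ext z
  have : ι (e.symm z) = z := congrArg Subtype.val (e.apply_symm_apply z)
  exact iff_of_eq (congrArg (v.val · < 1) this)

theorem val_eq {h : F} (h0 : h ≠ 0) : v.val h = exp (-v.ord h) := by
  rw [ord, neg_neg, exp_log (by simpa using h0)]

end Place

/-- `F` is generated by `x` and a square root `y` of `f(x)`. -/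
structure Model (x y : F) (f : k[X]) : Prop where
  tr : Transcendental k x
  eq : y ^ 2 = aeval x f
  gen : IntermediateField.adjoin k {x, y} = ⊤

namespace Model

variable {x y : F} {f : k[X]} (M : Model x y f)

include M

theorem inj : Function.Injective (aeval x : k[X] →ₐ[k] F) := transcendental_iff_injective.1 M.tr

theorem ne {p : k[X]} (hp : p ≠ 0) : aeval x p ≠ 0 := (map_ne_zero_iff _ M.inj).2 hp

/-- The embedding of the rational function field. -/
noncomputable def phi : RatFunc k →ₐ[k] F :=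
  RatFunc.liftAlgHom (aeval x) (nonZeroDivisors_le_comap_nonZeroDivisors_of_injective _ M.inj)

theorem phi_poly (p : k[X]) : M.phi (algebraMap _ _ p) = aeval x p := by
  simpa [phi] using RatFunc.liftAlgHom_apply_div (aeval x)
    (nonZeroDivisors_le_comap_nonZeroDivisors_of_injective _ M.inj) p 1

theorem rep (u : F) : ∃ α β, u = M.phi α + M.phi β * y := by
  let _ := M.phi.toRingHom.toAlgebra
  have : IsScalarTower k (RatFunc k) F := .of_algebraMap_eq fun a => (M.phi.commutes a).symm
  have hy : IsAlgebraic (RatFunc k) y := by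
    refine IsAlgebraic.of_pow two_pos ?_
    rw [M.eq, ← M.phi_poly]
    exact isAlgebraic_algebraMap _
  have h : u ∈ (IntermediateField.adjoin (RatFunc k) {y}).restrictScalars k := by
    refine (IntermediateField.adjoin_le_iff.2 (Set.pair_subset ?_ ?_) :
      IntermediateField.adjoin k {x, y} ≤ _) (M.gen ▸ IntermediateField.mem_top)
    · have := (IntermediateField.adjoin (RatFunc k) {y}).algebraMap_mem (algebraMap k[X] _ X)
      have e : algebraMap (RatFunc k) F (algebraMap k[X] _ X) = x := (M.phi_poly X).trans (aeval_X x)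
      rwa [e] at this
    · exact IntermediateField.mem_adjoin_simple_self (RatFunc k) y
  rw [IntermediateField.mem_restrictScalars, ← IntermediateField.mem_toSubalgebra,
    IntermediateField.adjoin_simple_toSubalgebra_of_isAlgebraic hy,
    Algebra.adjoin_singleton_eq_range_aeval] at h
  obtain ⟨p, rfl⟩ := h
  induction p using Polynomial.induction_on with
  | C a => exact ⟨a, 0, by simp; rfl⟩
  | add p q hp hq =>
    obtain ⟨a, b, h⟩ := hp
    obtain ⟨c, d, h'⟩ := hq
    exact ⟨a + c, b + d, by rw [map_add, h, h', map_add, map_add]; ring⟩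
  | monomial n a h =>
    obtain ⟨c, d, h⟩ := h
    refine ⟨d * algebraMap _ _ f, c, ?_⟩
    rw [pow_succ, ← mul_assoc, map_mul, h, map_mul, M.phi_poly, ← M.eq]
    simp only [AlgHom.toRingHom_eq_coe, RingHom.coe_coe, aeval_X]
    ring

theorem exists_over [CharZero k] {π : k[X]} (hπ : Irreducible π) :
    ∃ v : Place k F, v.val (aeval x π) < 1 ∧ v.val x ≤ 1 := by
  let _ := M.phi.toRingHom.toAlgebra
  let _ : Algebra k[X] F := (aeval x : k[X] →ₐ[k] F).toRingHom.toAlgebra
  have : IsScalarTower k[X] (RatFunc k) F := .of_algebraMap_eq fun p => (M.phi_poly p).symm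
  have : CharZero (RatFunc k) := charZero_of_injective_algebraMap (algebraMap k _).injective
  have : FiniteDimensional (RatFunc k) F := by
    refine ⟨Submodule.fg_def.2 ⟨{1, y}, Set.toFinite _, eq_top_iff.2 fun u _ => ?_⟩⟩
    obtain ⟨a, b, rfl⟩ := M.rep u
    exact Submodule.mem_span_pair.2 ⟨a, b, by simp only [Algebra.smul_def, mul_one]; rfl⟩
  let R := FunctionField.ringOfIntegers k F
  have hinj := FunctionField.ringOfIntegers.algebraMap_injective k F
  have : Algebra.IsIntegral k[X] R := IsIntegralClosure.isIntegral_algebra k[X] F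
  have : (Ideal.span {π} : Ideal k[X]).IsMaximal := PrincipalIdealRing.isMaximal_of_irreducible hπ
  obtain ⟨Q, hQ, hc⟩ := Ideal.exists_ideal_over_maximal_of_isIntegral (S := R) (Ideal.span {π})
    (by rw [(RingHom.injective_iff_ker_eq_bot _).mp hinj]; exact bot_le)
  have hmem : algebraMap k[X] R π ∈ Q := by
    rw [← Ideal.mem_comap, hc]
    exact Ideal.mem_span_singleton_self _
  let P : IsDedekindDomain.HeightOneSpectrum R := ⟨Q, hQ.isPrime, by
    rintro rfl
    exact hπ.ne_zero (hinj (by simpa using hmem))⟩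
  have hco : ∀ p : k[X], algebraMap R F (algebraMap k[X] R p) = aeval x p := fun p => rfl
  refine ⟨⟨P.valuation F, P.valuation_surjective F, fun c hc0 => ?_⟩, ?_, ?_⟩
  · rw [← aeval_C x, ← hco]
    refine (P.valuation_eq_one_iff_notMem).mpr fun hm => hQ.ne_top ?_
    exact Ideal.eq_top_of_isUnit_mem _ hm ((isUnit_C.mpr (Ne.isUnit hc0)).map _)
  · rw [← hco]
    exact (P.valuation_lt_one_iff_mem _).mpr hmem
  · have : P.valuation F (aeval x (X : k[X])) ≤ 1 := P.valuation_le_one (algebraMap k[X] R X)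
    rwa [aeval_X] at this

theorem poly [CharZero k] {α : RatFunc k} (h : ∀ v : Place k F, v.val x ≤ 1 → v.val (M.phi α) ≤ 1) :
    ∃ p : k[X], α = algebraMap _ _ p := by
  by_cases hu : IsUnit α.denom
  · refine ⟨α.num, ?_⟩
    rw [← RatFunc.num_div_denom α, (RatFunc.monic_denom α).eq_one_of_isUnit hu]
    simp
  obtain ⟨π, hπ, q, hq⟩ := WfDvdMonoid.exists_irreducible_factor hu α.denom_ne_zero
  obtain ⟨v, h1, h2⟩ := M.exists_over hπ
  have e : aeval x α.num = M.phi α * aeval x α.denom := by
    rw [← M.phi_poly, ← M.phi_poly, ← map_mul, ← div_eq_iff (RatFunc.algebraMap_ne_zero α.denom_ne_zero) |>.1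
      (RatFunc.num_div_denom α)]
  have d : v.val (aeval x α.denom) < 1 := by
    rw [hq, map_mul, map_mul]
    exact mul_lt_one_of_lt_of_le h1 (v.aeval_le q h2)
  obtain ⟨a, b, hab⟩ := RatFunc.isCoprime_num_denom α
  have := congrArg (aeval x) hab
  rw [map_add, map_mul, map_mul, map_one, e, ← mul_assoc, ← add_mul] at this
  have := congrArg v.val this
  rw [map_mul, map_one, mul_comm] at this
  refine absurd this (mul_lt_one_of_lt_of_le d (v.val.map_add_le ?_ (v.aeval_le b h2))).ne
  rw [map_mul]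
  exact mul_le_one' (v.aeval_le a h2) (h v h2)

theorem exists_invol (hs : Squarefree f) (hd : 0 < f.natDegree) :
    ∃ ι : F ≃ₐ[k] F, (∀ α, ι (M.phi α) = M.phi α) ∧ ι y = -y := by
  let g : (RatFunc k)[X] := X ^ 2 - C (algebraMap _ _ f)
  have : Fact (Irreducible g) := ⟨X_pow_sub_C_irreducible_of_prime Nat.prime_two fun b hb => by
    obtain ⟨p, rfl⟩ := IsIntegrallyClosed.exists_algebraMap_eq_of_isIntegral_pow (R := k[X])
      (x := b) two_pos (hb ▸ isIntegral_algebraMap)
    rw [← map_pow, (IsFractionRing.injective _ _).eq_iff] at hb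
    have := natDegree_eq_zero_of_isUnit (hs p (by rw [← hb, sq]))
    rw [← hb, natDegree_pow, this] at hd
    omega⟩
  have r : ∀ ε : k, ε * ε = 1 → ∃ e : AdjoinRoot g ≃ₐ[k] F, (∀ α, e (.of g α) = M.phi α) ∧
      e (.root g) = algebraMap k F ε * y := fun ε hε => by
    have h : algebraMap k F ε * algebraMap k F ε = 1 := by rw [← map_mul, hε, map_one]
    let ψ := AdjoinRoot.liftAlgHom g M.phi (algebraMap k F ε * y) (by
      simp only [g, eval₂_sub, eval₂_X_pow, eval₂_C, RingHom.coe_coe, M.phi_poly, ← M.eq]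
      linear_combination y ^ 2 * h)
    refine ⟨.ofBijective ψ ⟨ψ.injective, fun u => ?_⟩, by simp [ψ], by simp [ψ]⟩
    obtain ⟨a, b, rfl⟩ := M.rep u
    refine ⟨.of g a + .of g b * (algebraMap k _ ε * .root g), ?_⟩
    simp only [map_add, map_mul, AlgHom.commutes, ψ, AdjoinRoot.liftAlgHom_of,
      AdjoinRoot.liftAlgHom_root]
    linear_combination M.phi b * y * h
  obtain ⟨e, e1, e2⟩ := r 1 (one_mul 1)
  obtain ⟨e', e3, e4⟩ := r (-1) (by simp)
  refine ⟨e.symm.trans e', fun α => ?_, ?_⟩
  · rw [AlgEquiv.trans_apply, ← e1, e.symm_apply_apply, e3, e1]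
  · rw [map_one, one_mul] at e2
    rw [AlgEquiv.trans_apply, e.symm_apply_eq.2 e2.symm, e4]
    simp

theorem shift (c : k) : Model (x - algebraMap k F c) y (f.comp (X + C c)) where
  tr := by
    have := M.tr.aeval (X - C c) (by simp) (by simp)
    simpa using this
  eq := by simp [aeval_comp, M.eq]
  gen := by
    rw [eq_top_iff, ← M.gen, IntermediateField.adjoin_le_iff]
    refine Set.pair_subset ?_ (IntermediateField.subset_adjoin _ _ (by simp))
    have := add_mem (IntermediateField.subset_adjoin k {x - algebraMap k F c, y}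
      (Set.mem_insert _ _)) (IntermediateField.algebraMap_mem _ c)
    simpa using this

theorem x_ne : x ≠ 0 := by simpa using M.ne X_ne_zero

theorem inv (hf : f.natDegree ≤ 8) : Model x⁻¹ (y * x⁻¹ ^ 4) (reflect 8 f) where
  tr h := M.tr (IsAlgebraic.inv_iff.1 h)
  eq := by
    let _ := invertibleOfNonzero M.x_ne
    have := eval₂_reflect_mul_pow (algebraMap k F) x 8 f hf
    rw [invOf_eq_inv, ← aeval_def, ← aeval_def, ← M.eq] at this
    have h := M.x_ne
    rw [mul_pow, ← this]
    field_simp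
  gen := by
    rw [eq_top_iff, ← M.gen, IntermediateField.adjoin_le_iff]
    have h := M.x_ne
    have h1 := inv_mem (IntermediateField.subset_adjoin k {x⁻¹, y * x⁻¹ ^ 4} (Set.mem_insert _ _))
    rw [inv_inv] at h1
    have := mul_mem (IntermediateField.subset_adjoin k {x⁻¹, y * x⁻¹ ^ 4}
      (Set.mem_insert_of_mem _ rfl)) (pow_mem h1 4)
    rw [mul_assoc, ← mul_pow, inv_mul_cancel₀ h, one_pow, mul_one] at this
    exact Set.pair_subset h1 this

theorem int [CharZero k] (hs : Squarefree f) {ι : F ≃ₐ[k] F} (h1 : ∀ α, ι (M.phi α) = M.phi α)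
    (h2 : ι y = -y) {u : F} (h : ∀ v : Place k F, v.val x ≤ 1 → v.val u ≤ 1) :
    ∃ A B : k[X], u = aeval x A + aeval x B * y := by
  obtain ⟨α, β, rfl⟩ := M.rep u
  have hx : ι x = x := by simpa only [M.phi_poly, aeval_X] using h1 (algebraMap k[X] _ X)
  have h' : ∀ v : Place k F, v.val x ≤ 1 → v.val (M.phi α - M.phi β * y) ≤ 1 := fun v hv => by
    have := h (v.comap ι) (by rwa [Place.comap_val, hx])
    rwa [Place.comap_val, map_add, map_mul, h1, h1, h2, mul_neg, ← sub_eq_add_neg] at this
  have t : ∀ v : Place k F, v.val 2 = 1 := fun v => by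
    simpa only [map_ofNat] using v.triv 2 two_ne_zero
  obtain ⟨A, rfl⟩ := M.poly (α := α) fun v hv => by
    have := v.val.map_add_le (h v hv) (h' v hv)
    rwa [add_add_sub_cancel, ← two_mul, map_mul, t, one_mul] at this
  obtain ⟨q, hq⟩ := M.poly (α := β ^ 2 * algebraMap _ _ f) fun v hv => by
    have := v.val.map_sub_le (h v hv) (h' v hv)
    rw [add_sub_sub_cancel, ← two_mul, map_mul, t, one_mul] at this
    rw [map_mul, map_pow, M.phi_poly, ← M.eq, ← mul_pow, map_pow]
    exact pow_le_one' this 2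
  have e : β.num ^ 2 * f = β.denom ^ 2 * q := by
    apply IsFractionRing.injective k[X] (RatFunc k)
    simp only [map_mul, map_pow]
    rw [← hq, (div_eq_iff (RatFunc.algebraMap_ne_zero β.denom_ne_zero)).1 β.num_div_denom]
    ring
  have hu := hs β.denom (by
    rw [← sq]
    exact (RatFunc.isCoprime_num_denom β).symm.pow.dvd_of_dvd_mul_left ⟨q, e⟩)
  refine ⟨A, β.num, ?_⟩
  rw [← M.phi_poly, ← M.phi_poly]
  congr 3
  conv_lhs => rw [← β.num_div_denom, (RatFunc.monic_denom β).eq_one_of_isUnit hu, map_one, div_one]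

omit M in
theorem strip {a : k} (ha : f.eval a ≠ 0) (hd : 0 < f.natDegree) (m : ℕ) (A B : k[X]) (hB : B ≠ 0)
    (h : A ^ 2 - B ^ 2 * f = (X - C a) ^ (2 * m)) (hA : A.natDegree ≤ m) :
    ∃ n : ℕ, 0 < n ∧ ∃ A B : k[X], A ^ 2 - B ^ 2 * f = (X - C a) ^ (2 * n) ∧ A.natDegree ≤ n ∧
      A.eval a ≠ 0 := by
  induction m generalizing A B with
  | zero =>
    have e : B ^ 2 * f = A ^ 2 - 1 := by linear_combination -h
    have := congrArg natDegree e
    rw [natDegree_mul (pow_ne_zero 2 hB) (by rintro rfl; simp at hd), ← C_1, natDegree_sub_C,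
      natDegree_pow, natDegree_pow] at this
    omega
  | succ m ih =>
    by_cases h0 : A.eval a = 0
    · have h1 : B.eval a = 0 := by simpa [h0, ha] using congrArg (eval a) h
      obtain ⟨A, rfl⟩ := dvd_iff_isRoot.2 h0
      obtain ⟨B, rfl⟩ := dvd_iff_isRoot.2 h1
      refine ih A B (right_ne_zero_of_mul hB)
        (mul_left_cancel₀ (pow_ne_zero 2 (X_sub_C_ne_zero a)) (by linear_combination h)) ?_
      by_cases hA0 : A = 0
      · simp [hA0]
      · rw [natDegree_mul (X_sub_C_ne_zero a) hA0, natDegree_X_sub_C] at hA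
        omega
    · exact ⟨m + 1, m.succ_pos, A, B, h, hA, h0⟩

theorem tors [CharZero k] (hs : Squarefree f) (hf : f.natDegree = 8)
    (hr : Module.rank ℤ (Pic0 k F) = 0) {a : k} (hb : IsSquare (f.eval a)) (ha : f.eval a ≠ 0) :
    ∃ n : ℕ, 0 < n ∧ ∃ A B : k[X], A ^ 2 - B ^ 2 * f = (X - C a) ^ (2 * n) ∧ A.natDegree ≤ n ∧
      A.eval a ≠ 0 := by
  classical
  obtain ⟨ι, h1, h2⟩ := M.exists_invol hs (by omega)
  have hp : ∀ p, ι (aeval x p) = aeval x p := fun p => by rw [← M.phi_poly, h1]
  have hx : ι x = x := by simpa using hp X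
  have ii : ∀ u, ι (ι u) = u := fun u => by
    obtain ⟨α, β, rfl⟩ := M.rep u
    simp [h1, h2]
  have cc : ∀ v : Place k F, (v.comap ι).comap ι = v := fun v =>
    Place.ext (Valuation.ext fun u => congrArg v.val (ii u))
  have t : ∀ v : Place k F, v.val 2 = 1 := fun v => by
    simpa only [map_ofNat] using v.triv 2 two_ne_zero
  obtain ⟨P, P1, P2⟩ := M.exists_over (irreducible_X_sub_C a)
  set l := aeval x (X - C a) with hl
  have l0 : l ≠ 0 := M.ne (X_sub_C_ne_zero a)
  obtain ⟨b, hb⟩ := hb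
  have PP : P.comap ι ≠ P := fun h => by
    have e : P.val (y - algebraMap k F b) = P.val (y + algebraMap k F b) := by
      conv_lhs => rw [← h, Place.comap_val, map_sub, h2, ι.commutes, ← neg_add', Valuation.map_neg]
    obtain ⟨q, hq⟩ := X_sub_C_dvd_sub_C_eval (p := f) (a := a)
    have e2 : (y + algebraMap k F b) * (y - algebraMap k F b) = l * aeval x q := by
      rw [hl, ← map_mul, ← hq, map_sub, ← M.eq, aeval_C, hb, map_mul]
      ring
    have e3 : P.val (y + algebraMap k F b) < 1 := by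
      have := mul_lt_one_of_lt_of_le P1 (P.aeval_le q P2)
      rw [← map_mul, ← e2, map_mul, e] at this
      exact not_le.1 fun h => this.not_ge (one_le_mul h h)
    have := P.val.map_sub_lt e3 (e ▸ e3)
    rw [add_sub_sub_cancel, ← two_mul, map_mul, t, one_mul,
      P.triv b fun h => ha (by simp [hb, h])] at this
    exact this.false
  let D : Div0 k F := ⟨.single P 1 - .single (P.comap ι) 1, by
    show Finsupp.sum _ _ = 0
    rw [Finsupp.sum_sub_index (by simp [sub_mul])]
    simp [Place.comap_deg]⟩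
  obtain ⟨n, hn, h, h0, hh⟩ : ∃ n : ℕ, 0 < n ∧ n • D.1 ∈ Prin k F := by
    obtain ⟨z, z0, hz⟩ := rank_eq_zero_iff.1 hr (QuotientAddGroup.mk D)
    refine ⟨z.natAbs, Int.natAbs_pos.2 z0, ?_⟩
    rw [← natAbs_nsmul_eq_zero, ← QuotientAddGroup.mk_nsmul, QuotientAddGroup.eq_zero_iff] at hz
    exact hz
  have hv : ∀ v : Place k F, v.val h =
      exp ((if P.comap ι = v then (n : ℤ) else 0) - if P = v then (n : ℤ) else 0) := fun v => by
    rw [v.val_eq h0, ← hh]
    simp [D, Finsupp.single_apply, mul_sub]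
  have hv' : ∀ v : Place k F, v.val (h * ι h) = 1 := fun v => by
    have a1 : P.comap ι = v.comap ι ↔ P = v := ⟨fun e => by rw [← cc P, e, cc], fun e => e ▸ rfl⟩
    have a2 : P = v.comap ι ↔ P.comap ι = v := ⟨fun e => by rw [e, cc], fun e => by rw [← e, cc]⟩
    rw [map_mul, ← v.comap_val, hv, hv, ← exp_add]
    simp only [a1, a2]
    simp
  obtain ⟨A, B, hu⟩ := M.int hs h1 h2 (u := l ^ n * h) fun v hv1 => by
    rw [map_mul, map_pow, hv]
    by_cases e : P.comap ι = v
    · have : v.val l ≤ exp (-1) := by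
        rw [← e, Place.comap_val, hp, P.val_eq l0, exp_le_exp]
        rw [P.val_eq l0, ← exp_zero, exp_lt_exp] at P1
        omega
      rw [if_pos e, if_neg fun e' => PP (e.trans e'.symm), sub_zero]
      refine (mul_le_mul_left (pow_le_pow_left' this n) _).trans ?_
      simp [← exp_nsmul]
    · rw [if_neg e]
      refine mul_le_one' (pow_le_one' (v.aeval_le _ hv1) n) ?_
      rw [← exp_zero, exp_le_exp]
      split_ifs <;> simp
  have hu' : l ^ n * ι h = aeval x A - aeval x B * y := by
    have := congrArg ι hu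
    rwa [map_mul, map_pow, hp, map_add, map_mul, hp, hp, h2, mul_neg, ← sub_eq_add_neg] at this
  have ln := M.ne (pow_ne_zero (2 * n) (X_sub_C_ne_zero a))
  have eN : h * ι h = M.phi (algebraMap _ _ (A ^ 2 - B ^ 2 * f) /
      algebraMap _ _ ((X - C a) ^ (2 * n))) := by
    rw [map_div₀, M.phi_poly, M.phi_poly, eq_div_iff ln]
    simp only [map_pow, map_mul, ← hl, map_sub (aeval x) (A ^ 2), ← M.eq]
    linear_combination (l ^ n * ι h) * hu + (aeval x A + aeval x B * y) * hu'
  obtain ⟨p, ep⟩ := M.poly fun v _ => (eN ▸ hv' v).le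
  rw [ep] at eN
  obtain ⟨q, eq⟩ := M.poly (α := (algebraMap _ _ p)⁻¹) fun v _ => by
    rw [map_inv₀, ← eN, map_inv₀, hv', inv_one]
  have N0 : h * ι h ≠ 0 := mul_ne_zero h0 (by simpa using h0)
  have p0 : algebraMap _ (RatFunc k) p ≠ 0 := fun e => N0 (by rw [eN, e, map_zero])
  obtain ⟨c, c0, rfl⟩ := isUnit_iff.1 (IsUnit.of_mul_eq_one q
    (IsFractionRing.injective k[X] (RatFunc k) (by rw [map_mul, ← eq, mul_inv_cancel₀ p0, map_one]) :
      p * q = 1))
  have pell : A ^ 2 - B ^ 2 * f = C c * (X - C a) ^ (2 * n) := by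
    rw [div_eq_iff (RatFunc.algebraMap_ne_zero (pow_ne_zero _ (X_sub_C_ne_zero a))),
      ← map_mul] at ep
    exact IsFractionRing.injective _ _ ep
  have ne : P.val (l ^ n * h) ≠ P.val (l ^ n * ι h) := by
    rw [map_mul, map_mul, ← P.comap_val, hv, hv, if_neg PP, if_neg PP.symm, if_pos rfl, if_pos rfl,
      Ne, mul_right_inj' (by simpa using fun e => absurd e l0), exp_inj]
    omega
  have A0 : A ≠ 0 := by
    rintro rfl
    exact ne (by simp [hu, hu'])
  have B0 : B ≠ 0 := by
    rintro rfl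
    exact ne (by simp [hu, hu'])
  obtain ⟨w, w1, -⟩ := (M.inv hf.le).exists_over irreducible_X
  rw [aeval_X, map_inv₀, inv_lt_one₀ ((Valuation.pos_iff _).2 M.x_ne)] at w1
  have dA : A.natDegree ≤ n := by
    have a1 : ∀ v : Place k F, 1 < v.val x → v.val (l ^ n * h) = v.val x ^ n := fun v h => by
      rw [map_mul, map_pow, hv, if_neg, if_neg, hl, v.aeval_big h (X_sub_C_ne_zero a)]
      · simp
      · rintro rfl
        exact h.not_ge P2
      · rintro rfl
        rw [Place.comap_val, hx] at h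
        exact h.not_ge P2
    have a2 := a1 (w.comap ι) (by rwa [Place.comap_val, hx])
    rw [Place.comap_val, Place.comap_val, hx, map_mul, map_pow, hp] at a2
    have := w.val.map_add_le (a1 w w1).le a2.le
    rwa [hu, hu', add_add_sub_cancel, ← two_mul, map_mul, t, one_mul, w.aeval_big w1 A0,
      pow_le_pow_iff_right₀ w1] at this
  have ci : C c * C c⁻¹ = 1 := by rw [← C_mul, mul_inv_cancel₀ c0.ne_zero, C_1]
  refine strip ha (by omega) (2 * n) (C c⁻¹ * (A ^ 2 + B ^ 2 * f)) (C c⁻¹ * (2 * A * B))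
    (by simp [A0, B0, c0.ne_zero]) ?_ ((natDegree_C_mul_le _ _).trans ?_)
  · rw [mul_comm 2 (2 * n), pow_mul]
    linear_combination C c⁻¹ ^ 2 * (A ^ 2 - B ^ 2 * f + C c * (X - C a) ^ (2 * n)) * pell +
      ((X - C a) ^ (2 * n)) ^ 2 * (C c * C c⁻¹ + 1) * ci
  · rw [show A ^ 2 + B ^ 2 * f = A ^ 2 + A ^ 2 - C c * (X - C a) ^ (2 * n) by
      linear_combination -pell]
    have : (A ^ 2).natDegree ≤ 2 * n := by rw [natDegree_pow]; omega
    refine (natDegree_sub_le _ _).trans (max_le ((natDegree_add_le _ _).trans (max_le this this))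
      ((natDegree_C_mul_le _ _).trans ?_))
    simp

end Model

end Pool.Agent.MP_8d06cc_nt.H27
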