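import Pool.Agent.MP_8d06cc_nt.H27.Global
import Pool.Agent.MP_8d06cc_nt.H27.FF

/-! Reduction of the point count to the octic model. -/

namespace Pool.Agent.MP_8d06cc_nt.H27

open Polynomial Finset

theorem sqf_shift {f : ℚ[X]} (hs : Squarefree f) (c : ℚ) : Squarefree (f.comp (X + C c)) := by
  rw [← PerfectField.separable_iff_squarefree] at hs ⊢
  obtain ⟨a, b, h⟩ := hs
  refine ⟨a.comp (X + C c), b.comp (X + C c), ?_⟩
  simpa [derivative_comp] using congrArg (comp · (X + C c)) h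

theorem sqf_reflect {g : ℚ[X]} (hs : Squarefree g) (h7 : 7 ≤ g.natDegree) (h8 : g.natDegree ≤ 8)
    (hd : (reflect 8 g).natDegree = 8) : Squarefree (reflect 8 g) := by
  rintro p ⟨q, h⟩
  have h0 : p * p * q ≠ 0 := by
    rw [← h]
    rintro e
    simp [e] at hd
  have p0 : p ≠ 0 := left_ne_zero_of_mul (left_ne_zero_of_mul h0)
  have e : p.natDegree + p.natDegree + q.natDegree = 8 := by
    rw [← hd, h, natDegree_mul (mul_ne_zero p0 p0) (right_ne_zero_of_mul h0), natDegree_mul p0 p0]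
  have e2 := congrArg (reflect 8) h
  rw [reflect_reflect, ← e, reflect_mul _ _ natDegree_mul_le le_rfl,
    reflect_mul _ _ le_rfl le_rfl] at e2
  obtain ⟨u, hu, e3⟩ := isUnit_iff.1 (hs _ ⟨_, e2⟩)
  have e4 := congrArg natDegree e2
  have q0 : reflect q.natDegree q ≠ 0 := by simpa using right_ne_zero_of_mul h0
  have := natDegree_reflect_le (N := q.natDegree) (p := q)
  rw [← e3, ← C_mul, natDegree_C_mul (mul_ne_zero hu.ne_zero hu.ne_zero)] at e4
  rw [eq_C_of_natDegree_eq_zero (show p.natDegree = 0 by omega)]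
  refine isUnit_C.2 (Ne.isUnit fun e5 => p0 ?_)
  rw [eq_C_of_natDegree_eq_zero (show p.natDegree = 0 by omega), e5, C_0]

theorem fiber_le (f : ℚ[X]) (S : Finset (ℚ × ℚ)) (hS : ∀ p ∈ S, p.2 ^ 2 = f.eval p.1) :
    #S ≤ ∑ a ∈ S.image Prod.fst, wt f a := by
  rw [card_eq_sum_card_image Prod.fst]
  refine sum_le_sum fun a ha => ?_
  obtain ⟨p, hp, rfl⟩ := mem_image.1 ha
  have key : ∀ q ∈ S.filter (·.1 = p.1), q = p ∨ q = (p.1, -p.2) := fun q hq => by
    obtain ⟨h1, h2⟩ := mem_filter.1 hq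
    have := hS q h1
    rw [h2, ← hS p hp, sq_eq_sq_iff_eq_or_eq_neg] at this
    exact this.imp (Prod.ext h2) (Prod.ext h2)
  rw [wt]
  split_ifs with h
  · have : p.2 = 0 := by simpa [h] using hS p hp
    refine card_le_one_iff_subset_singleton.2 ⟨p, fun q hq => mem_singleton.2 ?_⟩
    exact (key q hq).elim id fun e => by rw [e, this, neg_zero, ← this]
  · exact (card_le_card fun q hq => by simpa using key q hq).trans (card_le_two (a := p))

open Classical in
theorem main {F : Type} [Field F] [Algebra ℚ F] {x y : F} {f : ℚ[X]} (M : Model x y f)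
    (hs : Squarefree f) (hd : f.natDegree = 7 ∨ f.natDegree = 8)
    (hr : Module.rank ℤ (Pic0 ℚ F) = 0) (S : Finset (ℚ × ℚ)) (hS : ∀ p ∈ S, p.2 ^ 2 = f.eval p.1) :
    #S + (if f.natDegree = 7 then 1 else if IsSquare f.leadingCoeff then 2 else 0) ≤ 24 := by
  obtain ⟨c, hc⟩ := Infinite.exists_notMem_finset (S.image Prod.fst ∪ f.roots.toFinset)
  have c1 : c ∉ S.image Prod.fst := fun h => hc (mem_union_left _ h)
  have c2 : f.eval c ≠ 0 := fun h =>
    hc (mem_union_right _ (by simpa [hs.ne_zero] using h))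
  set g := f.comp (X + C c) with hg
  have dg : g.natDegree = f.natDegree := by simp [hg, natDegree_comp]
  have d8 : (reflect 8 g).natDegree = 8 := by
    refine le_antisymm (natDegree_reflect_le.trans (by omega)) (le_natDegree_of_ne_zero ?_)
    simpa [coeff_zero_eq_eval_zero, hg, eval_comp] using c2
  have g8 : g.natDegree ≤ 8 := by omega
  have s8 := sqf_reflect (g := g) (sqf_shift hs c) (by omega) g8 d8
  have key : ∀ T : Finset ℚ, (∀ t ∈ T, IsSquare ((reflect 8 g).eval t)) →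
      ∑ t ∈ T, wt (reflect 8 g) t ≤ 24 := fun T hT => core d8 s8 T fun t ht =>
    ⟨hT t ht, ((M.shift c).inv g8).tors s8 d8 hr (hT t ht)⟩
  have ev : ∀ a, a ≠ c → (reflect 8 g).eval (a - c)⁻¹ = (a - c)⁻¹ ^ 8 * f.eval a := fun a h => by
    rw [ev_refl (inv_ne_zero (sub_ne_zero.2 h)) (by omega)]
    simp [hg, eval_comp]
  have ne : ∀ a ∈ S.image Prod.fst, a ≠ c := fun a ha h => c1 (h ▸ ha)
  set T := (S.image Prod.fst).image fun a => (a - c)⁻¹ with hT
  have t1 : #S ≤ ∑ t ∈ T, wt (reflect 8 g) t := by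
    rw [hT, sum_image fun a _ b _ h => by simpa using h]
    refine (fiber_le f S hS).trans (sum_le_sum fun a ha => ?_)
    simp [wt, ev a (ne a ha), sub_eq_zero, ne a ha]
  have t2 : ∀ t ∈ T, IsSquare ((reflect 8 g).eval t) := fun t ht => by
    obtain ⟨a, ha, rfl⟩ := mem_image.1 ht
    rw [ev a (ne a ha)]
    obtain ⟨p, hp, rfl⟩ := mem_image.1 ha
    exact ⟨(p.1 - c)⁻¹ ^ 4 * p.2, by rw [← hS p hp]; ring⟩
  have t3 : 0 ∉ T := fun h => by
    obtain ⟨a, ha, e⟩ := mem_image.1 h
    exact ne a ha (by simpa [sub_eq_zero] using e)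
  have e0 : (reflect 8 g).eval 0 = g.coeff 8 := by simp [← coeff_zero_eq_eval_zero]
  have t4 : IsSquare (g.coeff 8) → #S + wt (reflect 8 g) 0 ≤ 24 := fun h => by
    have := key (insert 0 T) (forall_mem_insert _ _ _ |>.2 ⟨e0 ▸ h, t2⟩)
    rw [sum_insert t3] at this
    omega
  rw [wt, e0] at t4
  split_ifs with h7 h8
  · rw [coeff_eq_zero_of_natDegree_lt (by omega)] at t4
    simpa using t4
  · have : g.coeff 8 = f.leadingCoeff := by
      rw [← hd.resolve_left h7, ← dg, coeff_natDegree, hg, leadingCoeff_comp (by simp)]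
      simp
    rw [this, if_neg (leadingCoeff_ne_zero.2 hs.ne_zero)] at t4
    exact t4 h8
  · exact t1.trans (key T t2)

theorem numPts_le {F : Type} [Field F] [Algebra ℚ F] {x y : F} {f : ℚ[X]} (M : Model x y f)
    (hs : Squarefree f) (hd : f.natDegree = 7 ∨ f.natDegree = 8)
    (hr : Module.rank ℤ (Pic0 ℚ F) = 0) : numPts f ≤ 24 := by
  have h := main M hs hd hr
  have fin : {p : ℚ × ℚ | p.2 ^ 2 = f.eval p.1}.Finite := by
    by_contra h'
    obtain ⟨S, hS, e⟩ := Set.Infinite.exists_subset_card_eq h' 25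
    have := h S hS
    omega
  have := h fin.toFinset (by simp)
  rw [numPts, fin.encard_eq_coe_toFinset_card]
  exact_mod_cast this

end Pool.Agent.MP_8d06cc_nt.H27
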