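import Pool.Agent.MP_8d06cc_nt.H27.Reg

/-! The region lemmas for annuli. -/

namespace Pool.Agent.MP_8d06cc_nt.H27

open Polynomial

theorem mu_decay {μ : LP} {R₁ R₂ ρ : ℝ} {E : ℕ} (h0 : 0 < R₁) (l1 : LB R₁ μ 1) (l2 : LB R₂ μ 1)
    (h1 : R₁ * s ^ E ≤ ρ) (h2 : ρ * s ^ E ≤ R₂) (n : ℤ) :
    ‖μ.coeff n‖ * ρ ^ n ≤ s⁻¹ ^ (E * n.natAbs) := by
  have := s0
  have hρ : 0 < ρ := lt_of_lt_of_le (by positivity) h1
  rw [pow_mul, inv_pow s, inv_pow, ← one_div, le_div_iff₀ (by positivity), mul_assoc]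
  obtain ⟨m, rfl | rfl⟩ := n.eq_nat_or_neg
  · refine le_trans ?_ (l2 m)
    rw [zpow_natCast, zpow_natCast, Int.natAbs_natCast, ← mul_pow]
    gcongr
  · refine le_trans ?_ (l1 (-m))
    rw [zpow_neg, zpow_neg, zpow_natCast, zpow_natCast, Int.natAbs_neg, Int.natAbs_natCast]
    refine mul_le_mul_of_nonneg_left ?_ (norm_nonneg _)
    rw [inv_mul_le_iff₀ (by positivity), le_mul_inv_iff₀ (by positivity), ← mul_pow, mul_comm]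
    gcongr

theorem int_bd {n : ℤ} (hn : n ≠ 0) : ∃ v : ℕ, 4 * v < n.natAbs ∧ s⁻¹ ^ (25 * v) ≤ ‖(n : K)‖ := by
  obtain ⟨v, h1, h2⟩ := fac_bd (Int.natAbs_ne_zero.2 hn)
    (Nat.dvd_factorial (Int.natAbs_pos.2 hn) le_rfl)
  refine ⟨v, h1, h2.trans (le_of_eq ?_)⟩
  obtain ⟨m, rfl | rfl⟩ := n.eq_nat_or_neg <;> simp

theorem t_le {m n : ℕ} (h : m ≤ n) : s⁻¹ ^ n ≤ s⁻¹ ^ m :=
  pow_le_pow_of_le_one (inv_pos.2 s0).le (inv_le_one_of_one_le₀ s1.le) h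

theorem t_lt' {m n : ℕ} (h : m < n) : s⁻¹ ^ n < s⁻¹ ^ m :=
  pow_lt_pow_right_of_lt_one₀ (inv_pos.2 s0) (inv_lt_one_of_one_lt₀ s1) h

theorem an_sol {μ : LP} {R₁ R₂ : ℝ} (hμ : Mu μ R₁ R₂ False) (h0 : 0 < R₁) {σ : ℤ}
    (hσ : σ = 1 ∨ σ = -1) : ∃ (ψ : LP) (g : K[X]), g.natDegree ≤ 2 ∧
      Lop (.T 4) (.T (-2) * ψ) = xg g * μ ∧ ∀ ρ, R₁ * s ^ 7 ≤ ρ → ρ * s ^ 7 ≤ R₂ →
        LB ρ ψ (ρ ^ σ) ∧ LB ρ (xg g) (ρ ^ (2 + σ)) ∧
        ∀ n, ‖(.C (2 * (σ : K)) * ψ - .T σ).coeff n‖ * ρ ^ n < ρ ^ σ := by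
  have m1 : ‖μ.coeff 0‖ = 1 := by
    simpa using norm_eq_of_sub_lt (y := 1) (by simpa using hμ.2.2.1)
  have m0 : μ.coeff 0 ≠ 0 := by rw [← norm_pos_iff, m1]; exact one_pos
  set l : K := -μ.coeff (-σ) / μ.coeff 0 with hl
  obtain ⟨ψ₁, h⟩ := solve_two (p := 1) (k := 0) (by simp) (by simp) (by simp)
    ((.T σ + .C l) * μ)
  set ψ := ψ₁ - .C (ψ₁.coeff 0) with hψ
  have cf : ∀ (u : LP) n, (Lop (toLaurent 1) u).coeff n = 2 * n * u.coeff n := fun u n => by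
    rw [Lop_coeff (k := 0) (by simp)]; simp
  have gc : ∀ n, ((.T σ + .C l) * μ).coeff n = μ.coeff (n - σ) + l * μ.coeff n := fun n => by
    rw [add_mul, coeff_add', coeff_T_mul, coeff_C_mul]
  have e1 : ∀ n : ℤ, 2 * n * ψ.coeff n = μ.coeff (n - σ) + l * μ.coeff n := fun n => by
    by_cases hn : n = 0
    · subst hn
      simp [hl, m0]
    · rw [← gc, ← h n (by omega), cf]
      simp [hψ, hn]
  have z0 : ψ.coeff 0 = 0 := by simp [hψ]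
  have eg : xg (X ^ (1 + σ).toNat + C l * X) = .T 2 * (.T σ + .C l) := by
    have e : (LaurentPolynomial.T 2 : LP) = .T 1 * .T 1 := LaurentPolynomial.T_add 1 1
    rw [xg, map_add, toLaurent_X_pow, map_mul, toLaurent_C, toLaurent_X,
      Int.toNat_of_nonneg (by omega), LaurentPolynomial.T_add, e]
    ring
  refine ⟨ψ, X ^ (1 + σ).toNat + C l * X, ?_, ?_, fun ρ r1 r2 => ?_⟩
  · refine (natDegree_add_le _ _).trans (max_le (by rw [natDegree_X_pow]; omega)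
      ((natDegree_C_mul_le _ _).trans (by simp)))
  · have := Lop_shift 2 (toLaurent 1) ψ
    rw [map_one, mul_one] at this
    rw [eg, mul_assoc, show (4 : ℤ) = 2 * 2 from rfl, this]
    congr 1
    ext n
    rw [gc, ← e1, ← cf, map_one]
  have := s0
  have hρ : 0 < ρ := lt_of_lt_of_le (by positivity) r1
  have d := mu_decay h0 hμ.2.1 hμ.1 r1 r2
  have pσ : 0 < ρ ^ σ := by positivity
  have aσ : σ.natAbs = 1 := by omega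
  have dl : ‖l‖ ≤ s⁻¹ ^ 7 * ρ ^ σ := by
    have := d (-σ)
    rw [Int.natAbs_neg, aσ, zpow_neg, mul_inv_le_iff₀ pσ] at this
    rwa [hl, norm_div, norm_neg, m1, div_one]
  have n2 : ‖2 * (σ : K)‖ = 1 := by rcases hσ with rfl | rfl <;> simp [norm_two]
  have d2 : ∀ n, ‖l * μ.coeff n‖ * ρ ^ n ≤ s⁻¹ ^ (7 + 7 * n.natAbs) * ρ ^ σ := fun n => by
    rw [norm_mul, mul_assoc, pow_add, mul_right_comm]
    exact mul_le_mul dl (d n) (by positivity) (by positivity)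
  have d3 : ∀ n, n ≠ σ → ‖ψ.coeff n‖ * ρ ^ n < ρ ^ σ := fun n hn => by
    by_cases hn0 : n = 0
    · rw [hn0, z0, norm_zero, zero_mul]; exact pσ
    obtain ⟨v, v1, v2⟩ := int_bd hn0
    have pn : 0 < ρ ^ n := by positivity
    have a1 : ‖μ.coeff (n - σ)‖ < s⁻¹ ^ (25 * v) * ρ ^ σ / ρ ^ n := by
      have := (d (n - σ)).trans_lt (t_lt' (m := 25 * v) (by omega))
      rw [zpow_sub₀ hρ.ne', ← mul_div_assoc, div_lt_iff₀ pσ] at this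
      rwa [lt_div_iff₀ pn]
    have a2 : ‖l * μ.coeff n‖ < s⁻¹ ^ (25 * v) * ρ ^ σ / ρ ^ n := by
      rw [lt_div_iff₀ pn]
      exact (d2 n).trans_lt (mul_lt_mul_of_pos_right (t_lt' (by omega)) pσ)
    have a3 := norm_add_lt' a1 a2
    rw [← e1, norm_mul, norm_mul, norm_two, one_mul, lt_div_iff₀ pn] at a3
    refine lt_of_mul_lt_mul_left (lt_of_le_of_lt ?_ a3) (a := s⁻¹ ^ (25 * v)) (by positivity)
    rw [mul_assoc]
    gcongr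
  have d4 : ‖2 * (σ : K) * ψ.coeff σ - 1‖ < 1 := by
    rw [e1, sub_self, add_sub_right_comm]
    exact norm_add_lt' hμ.2.2.1 (lt_of_le_of_lt (le_of_mul_le_mul_right (d2 σ) pσ) (t_lt (by omega)))
  refine ⟨fun n => ?_, ?_, fun n => ?_⟩
  · by_cases hn : n = σ
    · have := norm_eq_of_sub_lt (y := 1) (by simpa using d4)
      rw [norm_mul, n2, one_mul, norm_one] at this
      rw [hn, this, one_mul]
    · exact (d3 n hn).le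
  · rw [eg, zpow_add₀ hρ.ne']
    exact (lb_T hρ 2).mul hρ ((lb_T hρ σ).add hρ ((lb_C hρ l).mono
      (dl.trans (mul_le_of_le_one_left pσ.le (t_lt (by norm_num)).le))))
  · rw [coeff_sub', coeff_C_mul, LaurentPolynomial.T_apply]
    by_cases hn : σ = n
    · rw [if_pos hn, ← hn]
      exact mul_lt_of_lt_one_left pσ d4
    · rw [if_neg hn, sub_zero, norm_mul, n2, one_mul]
      exact d3 n (Ne.symm hn)

theorem det3 {x₀ x₁ x₂ a₀ a₁ a₂ c₀ c₁ c₂ v₀ v₁ v₂ : K} {M ε : ℝ} (n0 : x₀ ≠ 0) (n1 : x₁ ≠ 0)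
    (n2 : x₂ ≠ 0) (f01 : max ‖x₀‖ ‖x₁‖ ≤ ‖x₀ - x₁‖) (f02 : max ‖x₀‖ ‖x₂‖ ≤ ‖x₀ - x₂‖)
    (f12 : max ‖x₁‖ ‖x₂‖ ≤ ‖x₁ - x₂‖) (ha₀ : ‖a₀ - x₀‖ < ‖x₀‖) (ha₁ : ‖a₁ - x₁‖ < ‖x₁‖)
    (ha₂ : ‖a₂ - x₂‖ < ‖x₂‖) (hc₀ : ‖c₀ - x₀⁻¹‖ < ‖x₀⁻¹‖) (hc₁ : ‖c₁ - x₁⁻¹‖ < ‖x₁⁻¹‖)
    (hc₂ : ‖c₂ - x₂⁻¹‖ < ‖x₂⁻¹‖) (hM : 1 ≤ M) (m1 : ‖x₁‖ ≤ M) (m2 : ‖x₂‖ ≤ M)
    (k1 : ‖x₁⁻¹‖ ≤ M) (k2 : ‖x₂⁻¹‖ ≤ M) (e0 : ‖v₀ + v₁ + v₂‖ ≤ ε)
    (e1 : ‖v₀ * a₀ + v₁ * a₁ + v₂ * a₂‖ ≤ ε) (e2 : ‖v₀ * c₀ + v₁ * c₁ + v₂ * c₂‖ ≤ ε) :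
    ‖v₀‖ ≤ ε * M ^ 2 := by
  have p0 := norm_pos_iff.2 n0
  have p1 := norm_pos_iff.2 n1
  have p2 := norm_pos_iff.2 n2
  set D := (x₀ - x₁) * (x₀ - x₂) * (x₁ - x₂) / (x₀ * x₁ * x₂) with hD
  have big : ∀ {y z w : K}, y ≠ 0 → z ≠ 0 → w ≠ 0 → ‖x₀‖ * ‖x₁‖ * ‖x₂‖ = ‖y‖ * ‖z‖ * ‖w‖ →
      ‖y‖ * ‖y‖ * ‖w‖ ≤ ‖x₀ - x₁‖ * ‖x₀ - x₂‖ * ‖x₁ - x₂‖ → ∀ {a c : K}, ‖a - y‖ < ‖y‖ →
      ‖c - z⁻¹‖ < ‖z⁻¹‖ → ‖a * c - y * z⁻¹‖ < ‖D‖ ∧ ‖y‖ * ‖z⁻¹‖ ≤ ‖D‖ := by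
    intro y z w hy hz hw h1 h2 a c ha hc
    have py := norm_pos_iff.2 hy
    have pz := norm_pos_iff.2 hz
    have pw := norm_pos_iff.2 hw
    have l : ‖y‖ * ‖z⁻¹‖ ≤ ‖D‖ := by
      simp only [hD, norm_div, norm_mul, h1, norm_inv]
      rw [le_div_iff₀ (by positivity)]
      refine le_trans (le_of_eq ?_) h2
      field_simp
    refine ⟨lt_of_lt_of_le ?_ l, l⟩
    rw [show a * c - y * z⁻¹ = (a - y) * c + y * (c - z⁻¹) by ring]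
    refine norm_add_lt' ?_ ?_ <;> rw [norm_mul]
    · rw [norm_eq_of_sub_lt hc]
      exact mul_lt_mul_of_pos_right ha (by rw [norm_inv]; positivity)
    · exact mul_lt_mul_of_pos_left hc py
  obtain ⟨g1, g2⟩ := max_le_iff.1 f01
  obtain ⟨g3, g4⟩ := max_le_iff.1 f02
  obtain ⟨g5, g6⟩ := max_le_iff.1 f12
  have b01 := big n0 n1 n2 rfl (by gcongr) ha₀ hc₁
  have b10 := big n1 n0 n2 (by ring) (by rw [mul_right_comm]; gcongr) ha₁ hc₀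
  have b02 := big n0 n2 n1 (by ring) (by gcongr) ha₀ hc₂
  have b20 := big n2 n0 n1 (by ring) (by rw [mul_comm, ← mul_assoc]; gcongr) ha₂ hc₀
  have b12 := big n1 n2 n0 (by ring) (by rw [mul_right_comm]; gcongr) ha₁ hc₂
  have b21 := big n2 n1 n0 (by ring) (by rw [mul_comm, ← mul_assoc]; gcongr) ha₂ hc₁
  have D1 : 1 ≤ ‖D‖ := by
    have h1 := b01.2
    have h2 := b10.2
    rw [norm_inv] at h1 h2
    rcases le_total ‖x₀‖ ‖x₁‖ with h | h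
    · exact ((one_le_div p0).2 h).trans h2
    · exact ((one_le_div p1).2 h).trans h1
  have hΔ : ‖a₁ * c₂ - a₂ * c₁ - (a₀ * c₂ - a₂ * c₀) + (a₀ * c₁ - a₁ * c₀)‖ = ‖D‖ := by
    rw [← norm_neg D]
    refine norm_eq_of_sub_lt (lt_of_eq_of_lt ?_ ((norm_add_lt' (norm_sub_lt'
      (norm_sub_lt' b12.1 b21.1) (norm_sub_lt' b02.1 b20.1)) (norm_sub_lt' b01.1 b10.1)).trans_eq
      (norm_neg D).symm))
    congr 1
    rw [hD]
    field_simp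
    ring
  have ε0 := (norm_nonneg _).trans e0
  have A1 := (norm_eq_of_sub_lt ha₁).trans_le m1
  have A2 := (norm_eq_of_sub_lt ha₂).trans_le m2
  have C1 := (norm_eq_of_sub_lt hc₁).trans_le k1
  have C2 := (norm_eq_of_sub_lt hc₂).trans_le k2
  have MM : M ≤ M ^ 2 := by nlinarith
  have tm : ∀ {u w : K}, ‖u‖ ≤ ε → ‖w‖ ≤ M ^ 2 → ‖u * w‖ ≤ ε * M ^ 2 := fun hu hw => by
    rw [norm_mul]; gcongr
  have pr : ∀ {u w : K}, ‖u‖ ≤ M → ‖w‖ ≤ M → ‖u * w‖ ≤ M ^ 2 := fun hu hw => by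
    rw [norm_mul, sq]; gcongr
  have := norm_add_le' (norm_add_le' (tm e0 (norm_sub_le' (pr A1 C2) (pr A2 C1)))
    (tm e1 ((norm_sub_le' C1 C2).trans MM))) (tm e2 ((norm_sub_le' A2 A1).trans MM))
  rw [show (v₀ + v₁ + v₂) * (a₁ * c₂ - a₂ * c₁) + (v₀ * a₀ + v₁ * a₁ + v₂ * a₂) * (c₁ - c₂) +
    (v₀ * c₀ + v₁ * c₁ + v₂ * c₂) * (a₂ - a₁) =
      v₀ * (a₁ * c₂ - a₂ * c₁ - (a₀ * c₂ - a₂ * c₀) + (a₀ * c₁ - a₁ * c₀)) by ring, norm_mul,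
    hΔ] at this
  exact (le_mul_of_one_le_right (norm_nonneg _) D1).trans this

variable {f : K[X]}

theorem zpow_M {ρ M : ℝ} (h0 : 0 < ρ) (hM : 1 ≤ M) (h1 : ρ ≤ M) (h2 : ρ⁻¹ ≤ M) {m : ℤ}
    (hm : m.natAbs ≤ 3) : ρ ^ m ≤ M ^ 3 := by
  refine le_trans ?_ (pow_le_pow_right₀ hM hm)
  obtain ⟨k, rfl | rfl⟩ := m.eq_nat_or_neg
  · rw [zpow_natCast, Int.natAbs_natCast]; gcongr
  · rw [zpow_neg, zpow_natCast, Int.natAbs_neg, Int.natAbs_natCast, ← inv_pow]; gcongr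

theorem regA {x : Fin 3 → K} (σ : Sol f x) (hf : f.natDegree = 8) {r₁ r₂ : ℝ} (hr : 0 < r₁)
    (h1 : ∀ i, r₁ ≤ ‖x i‖) (h2 : ∀ i, ‖x i‖ ≤ r₂) (far : ∀ i j, i ≠ j → ‖x i‖ ≤ ‖x i - x j‖)
    (hF : Fac f (.T 4) (r₁ / s ^ 8) (r₂ * s ^ 8) False)
    (ho : gn (r₂ * s) (σ.B ^ 2 * f) < gn (r₂ * s) (den x σ.e) ^ 2)
    (hi : gn (r₁ / s) (σ.B ^ 2 * f) < gn (r₁ / s) (den x σ.e) ^ 2) (hW : σ.W ≠ 0) : False := by
  have := s0
  have := s1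
  have px : ∀ i, 0 < ‖x i‖ := fun i => hr.trans_le (h1 i)
  have hx : ∀ i, x i ≠ 0 := fun i => norm_pos_iff.1 (px i)
  have hr2 : 0 < r₂ := (px 0).trans_le (h2 0)
  have q1 : r₁ / s ≤ r₁ := div_le_self hr.le s1.le
  have q2 : r₂ ≤ r₂ * s := le_mul_of_one_le_right hr2.le s1.le
  have q3 : r₁ ≤ r₂ := (h1 0).trans (h2 0)
  have q4 : r₁ / s ^ 8 < r₁ / s :=
    div_lt_div_of_pos_left hr s0 (by simpa using pow_lt_pow_right₀ s1 (show 1 < 8 by norm_num))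
  have q5 : r₂ * s < r₂ * s ^ 8 :=
    mul_lt_mul_of_pos_left (by simpa using pow_lt_pow_right₀ s1 (show 1 < 8 by norm_num)) hr2
  obtain ⟨M, M1, hM⟩ : ∃ M : ℝ, 1 ≤ M ∧ ∀ ρ, r₁ / s ≤ ρ → ρ ≤ r₂ * s → ρ ≤ M ∧ ρ⁻¹ ≤ M :=
    ⟨max 1 (max (r₂ * s) (r₁ / s)⁻¹), le_max_left _ _, fun ρ a b =>
      ⟨b.trans (le_max_of_le_right (le_max_left _ _)),
        (inv_anti₀ (by positivity) a).trans (le_max_of_le_right (le_max_right _ _))⟩⟩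
  have Mx := fun i => hM ‖x i‖ (q1.trans (h1 i)) ((h2 i).trans q2)
  obtain ⟨i, hi0⟩ := Function.ne_iff.1 hW
  have w0 : 0 < ‖σ.W i * x i ^ (-2 : ℤ)‖ := norm_pos_iff.2 (mul_ne_zero hi0 (zpow_ne_zero _ (hx i)))
  obtain ⟨μ, hμ, h⟩ := relation (fun _ : Unit => σ) hf hx hF (by positivity) q4
    (q1.trans (q3.trans q2)) q5 (fun i => (h2 i).trans q2) (fun _ => ho)
    (fun _ => ⟨fun i => q1.trans (h1 i), fun _ => hi⟩) (M ^ 3)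
    (ε := ‖σ.W i * x i ^ (-2 : ℤ)‖ / (2 * M ^ 2)) (by positivity)
  have m1 : ∀ i, ‖pv (x i) μ‖ = 1 := fun i => (mu_pv hμ (by positivity) (hx i)
    (.inr (q4.trans_le (q1.trans (h1 i)))) (((h2 i).trans q2).trans_lt q5)).2
  have zz := fun ρ a b m hm => zpow_M (ρ := ρ) (lt_of_lt_of_le (by positivity) a) M1
    (hM ρ a b).1 (hM ρ a b).2 (m := m) hm
  have q6 : r₁ / s ≤ r₂ * s := q1.trans (q3.trans q2)
  have rel : ∀ τ : ℤ, τ = 1 ∨ τ = -1 → ∃ a : Fin 3 → K, (∀ i, ‖a i - x i ^ τ‖ < ‖x i ^ τ‖) ∧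
      ‖∑ i, σ.W i * x i ^ (-2 : ℤ) * pv (x i) μ * a i‖ ≤
        ‖σ.W i * x i ^ (-2 : ℤ)‖ / (2 * M ^ 2) := by
    intro τ hτ
    obtain ⟨ψ, g, gd, he, hb⟩ := an_sol hμ (by positivity) hτ
    have rg : ∀ ρ, r₁ / s ≤ ρ → ρ ≤ r₂ * s → r₁ / s ^ 8 * s ^ 7 ≤ ρ ∧ ρ * s ^ 7 ≤ r₂ * s ^ 8 :=
      fun ρ a b => ⟨le_trans (le_of_eq (by field_simp)) a, by
        rw [show r₂ * s ^ 8 = r₂ * s * s ^ 7 by ring]; gcongr⟩
    have lb : ∀ ρ, r₁ / s ≤ ρ → ρ ≤ r₂ * s → LB ρ (.T (-2) * ψ) (M ^ 3) := fun ρ a b => by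
      have p : 0 < ρ := lt_of_lt_of_le (by positivity) a
      refine ((lb_T p (-2)).mul p (hb ρ (rg ρ a b).1 (rg ρ a b).2).1).mono ?_
      rw [← zpow_add₀ p.ne']
      exact zz ρ a b _ (by omega)
    have := h _ g gd (lb _ q6 le_rfl) ((hb _ (rg _ q6 le_rfl).1 (rg _ q6 le_rfl).2).2.1.mono
      (zz _ q6 le_rfl _ (by omega))) False.elim (fun _ => lb _ le_rfl q6) he ()
    refine ⟨fun i => 2 * τ * pv (x i) ψ, fun i => ?_, le_trans (le_of_eq ?_) this.le⟩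
    · have r := rg _ (q1.trans (h1 i)) ((h2 i).trans q2)
      have := pv_lt (zpow_pos (px i) τ) (hb _ r.1 r.2).2.2
      rwa [pv_sub (hx i), pv_mul (hx i), pv_C, pv_T, ← norm_zpow] at this
    · have n2 : ‖2 * (τ : K)‖ = 1 := by rcases hτ with rfl | rfl <;> simp [norm_two]
      rw [← one_mul ‖∑ i, σ.W i * (pv (x i) _ * _)‖, ← n2, ← norm_mul, Finset.mul_sum]
      congr 1
      exact Finset.sum_congr rfl fun i _ => by rw [pv_mul (hx i), pv_T]; ring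
  obtain ⟨a, a1, a2⟩ := rel 1 (.inl rfl)
  obtain ⟨c, c1, c2⟩ := rel (-1) (.inr rfl)
  have lb : ∀ ρ, r₁ / s ≤ ρ → ρ ≤ r₂ * s → LB ρ (.T (-2)) (M ^ 3) := fun ρ a b =>
    (lb_T (lt_of_lt_of_le (by positivity) a) _).mono (zz ρ a b _ (by norm_num))
  have e0 := (h (.T (-2)) 0 (by simp) (lb _ q6 le_rfl) (fun n => by simp [xg]; positivity)
    False.elim (fun _ => lb _ le_rfl q6) (by
      have := Lop_shift 2 1 1
      simp only [mul_one] at this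
      rw [show (4 : ℤ) = 2 * 2 from rfl, this]
      simp [Lop, xg]) ()).le
  simp only [pv_T, ← mul_assoc] at e0
  simp only [zpow_one, zpow_neg_one] at a1 c1
  have fr : ∀ i j, i ≠ j → max ‖x i‖ ‖x j‖ ≤ ‖x i - x j‖ := fun i j hij =>
    max_le (far i j hij) (by rw [norm_sub_rev]; exact far j i hij.symm)
  obtain ⟨j, k, hj, hk, hjk, hs⟩ : ∃ j k, i ≠ j ∧ i ≠ k ∧ j ≠ k ∧
      ∀ u : Fin 3 → K, ∑ l, u l = u i + u j + u k := by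
    fin_cases i
    · exact ⟨1, 2, by simp, by simp, by simp, fun u => by simp [Fin.sum_univ_three]⟩
    · exact ⟨0, 2, by simp, by simp, by simp, fun u => by
        rw [Fin.sum_univ_three, add_comm (u 0)]; rfl⟩
    · exact ⟨0, 1, by simp, by simp, by simp, fun u => by
        rw [Fin.sum_univ_three, add_comm, ← add_assoc]; rfl⟩
  rw [hs] at e0 a2 c2
  have := det3 (hx i) (hx j) (hx k) (fr _ _ hj) (fr _ _ hk) (fr _ _ hjk) (a1 i) (a1 j) (a1 k)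
    (c1 i) (c1 j) (c1 k) M1 (Mx j).1 (Mx k).1 (by rw [norm_inv]; exact (Mx j).2)
    (by rw [norm_inv]; exact (Mx k).2) e0 a2 c2
  rw [norm_mul _ (pv _ _), m1, mul_one, div_mul_eq_mul_div, le_div_iff₀ (by positivity)] at this
  nlinarith [mul_pos w0 (show 0 < M ^ 2 by positivity)]

theorem regF {x : Fin 2 → K} (σ : Sol f x) (hf : f.natDegree = 8) (hx1 : ∀ i, ‖x i‖ = 1)
    {p : K[X]} (hp : p.natDegree ≤ 2) (h1 : p.coeff 2 = 1) (h0 : ‖p.coeff 0‖ = 1)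
    (hg : gn 1 p ≤ 1) (hF : Fac f (.T 2 * toLaurent p) (s⁻¹ ^ 8) (s ^ 8) False)
    (ho : gn s (σ.B ^ 2 * f) < gn s (den x σ.e) ^ 2)
    (hi : gn s⁻¹ (σ.B ^ 2 * f) < gn s⁻¹ (den x σ.e) ^ 2) {w : ℝ} (hw : 0 < w)
    (hW : ∀ i, ‖σ.W i‖ ≤ w) : ‖∑ i, σ.W i * (x i)⁻¹‖ < w := by
  have := s0
  have hx : ∀ i, x i ≠ 0 := fun i => norm_pos_iff.1 (by rw [hx1]; exact one_pos)
  have t1 : s⁻¹ < 1 := inv_lt_one_of_one_lt₀ s1
  have u1 : s⁻¹ ^ 8 < 1 := t_lt (by norm_num)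
  have u2 : 1 < s ^ 8 := one_lt_pow₀ s1 (by norm_num)
  obtain ⟨μ, hμ, h⟩ := relation (fun _ : Unit => σ) hf hx hF (by positivity)
    (by simpa using t_lt' (show 1 < 8 by norm_num) : s⁻¹ ^ 8 < s⁻¹) (t1.trans s1).le
    (by simpa using pow_lt_pow_right₀ s1 (show 1 < 8 by norm_num)) (fun i => (hx1 i).le.trans s1.le)
    (fun _ => ho) (fun _ => ⟨fun i => t1.le.trans (hx1 i).ge, fun _ => hi⟩) (s ^ 3) hw
  have lw : ∀ n, Lin fun ψ g => (Lop (toLaurent p) ψ).coeff n - (toLaurent g * μ).coeff n :=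
    fun n => ⟨fun _ _ _ _ => by simp only [Lop_add, map_add, add_mul, coeff_add']; ring,
      fun _ _ _ => by simp only [Lop_C, map_mul, toLaurent_C, mul_assoc, coeff_C_mul]; ring⟩
  obtain ⟨ψ, g, gd, q, f0, f1, n1, n2, n3, n4⟩ := tri_sol
    (fun ψ g => ∀ n : ℤ, (n < 0 ∨ ((2 : ℕ) ≤ n ∧ 1 ≤ n)) →
      (Lop (toLaurent p) ψ).coeff n - (toLaurent g * μ).coeff n = 0)
    (fun ψ g ψ' g' h h' n hn => ((lw n).1 _ _ _ _).trans (by simp only [h n hn, h' n hn, add_zero]))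
    (fun c ψ g h n hn => ((lw n).2 _ _ _).trans (by simp only [h n hn, mul_zero]))
    (fun i => by
      obtain ⟨ψ, h⟩ := solve_two hp h1 (norm_pos_iff.1 (h0 ▸ one_pos)) (toLaurent (X ^ i) * μ)
      exact ⟨ψ, fun n hn => sub_eq_zero.2 (h n hn)⟩) _ _ (lw 0) (lw 1)
  have eq : Lop (toLaurent p) ψ = .T (0 : ℕ) * toLaurent g * μ := by
    ext n
    rw [Nat.cast_zero, LaurentPolynomial.T_zero, one_mul, ← sub_eq_zero]
    by_cases e0 : n = 0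
    · exact e0 ▸ f0
    by_cases e1 : n = 1
    · exact e1 ▸ f1
    exact q n (by omega)
  have td := top_down hp h1 hg (a := 1) (b := 1) (j₀ := 1) one_pos two_pos
    (fun j => by rw [← norm_two_mul (1 * j + 1)]; congr 2; ring) (fun j => 8 * (j + 2 - (0 + 2)))
    (by omega) (fun j hj => by exact_mod_cast G_up (κ := 0) hμ.1 gd n1 (n := j + 2) (by omega))
    (fun j _ => by rw [eq]; rfl)
  have bu := bottom_up h0 hg (ψ := ψ) (G := .T (0 : ℕ) * toLaurent g * μ) (fun j _ => by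
    have p : 0 < s⁻¹ ^ 8 := by positivity
    have := ((lb_T p (0 : ℕ)).mul p ((lb_toL p g).mono ((gn_mono p u1.le g).trans n1))).mul p
      hμ.2.1 (-j)
    rw [zpow_neg, mul_inv_le_iff₀ (by positivity)] at this
    simpa [pow_mul] using this) (fun j _ => by rw [eq])
  have dec : ∀ n : ℤ, ‖ψ.coeff n‖ ≤ s⁻¹ ^ n.natAbs := fun n => by
    by_cases hn : n = 0
    · simpa [hn] using n2
    obtain ⟨m, rfl | rfl⟩ := n.eq_nat_or_neg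
    · exact (td m (by omega)).trans (t_le (by omega))
    · exact (bu m (by omega)).trans (t_le (by omega))
  have lt : ∀ n, n ≠ 0 → ‖ψ.coeff n‖ < 1 := fun n hn => (dec n).trans_lt (t_lt (by omega))
  have z1 : ‖ψ.coeff 0‖ = 1 := le_antisymm n2 (not_lt.1 fun h => n4 ⟨key_lt
    ((lb_toL one_pos p).mono hg) (fun n => by
      by_cases hn : n = 0
      exacts [hn ▸ h, lt n hn]) n1 (fun n => by
      simpa using mu_small hμ (by positivity) one_pos (.inr u1) u2 n) eq, h, lt 1 one_ne_zero⟩)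
  have lb : ∀ ρ, ρ = s ∨ ρ = s⁻¹ → LB ρ (.T (-1) * ψ) (s ^ 3) := by
    intro ρ hρ
    have p : 0 < ρ := by rcases hρ with rfl | rfl <;> positivity
    have l : LB ρ ψ 1 := fun n => by
      refine (mul_le_mul_of_nonneg_right (dec n) (by positivity)).trans ?_
      rw [inv_pow, inv_mul_le_one₀ (by positivity), ← zpow_natCast]
      rcases hρ with rfl | rfl
      · exact zpow_le_zpow_right₀ s1.le (by omega)
      · rw [inv_zpow']; exact zpow_le_zpow_right₀ s1.le (by omega)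
    refine ((lb_T p _).mul p l).mono ?_
    rw [mul_one, ← zpow_natCast]
    rcases hρ with rfl | rfl
    · exact zpow_le_zpow_right₀ s1.le (by omega)
    · rw [inv_zpow']; exact zpow_le_zpow_right₀ s1.le (by omega)
  have := h _ g gd (lb _ (.inl rfl)) (xg_bd gd n1) False.elim (fun _ => lb _ (.inr rfl)) (by
    have := Lop_shift 1 (toLaurent p) ψ
    rw [mul_one] at this
    rw [this, eq, xg]
    simp only [Nat.cast_zero, LaurentPolynomial.T_zero, one_mul, mul_assoc]) ()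
  have e : ∀ i, ‖σ.W i * (pv (x i) (.T (-1) * ψ) * pv (x i) μ) -
      ψ.coeff 0 * (σ.W i * (x i)⁻¹)‖ < w := by
    intro i
    have k1 := mu_pv hμ (by positivity) (hx i) (.inr (hx1 i ▸ u1)) (hx1 i ▸ u2)
    have k2 := pv_lt (x := x i) (u := ψ - .C (ψ.coeff 0)) one_pos fun n => by
      by_cases hn : n = 0
      · simp [hn]
      · simpa [hn, hx1] using lt n hn
    rw [pv_sub (hx i), pv_C] at k2
    rw [pv_mul (hx i), pv_T, zpow_neg_one, show σ.W i * ((x i)⁻¹ * pv (x i) ψ * pv (x i) μ) -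
      ψ.coeff 0 * (σ.W i * (x i)⁻¹) = σ.W i * (x i)⁻¹ * ((pv (x i) ψ - ψ.coeff 0) * pv (x i) μ +
        ψ.coeff 0 * (pv (x i) μ - 1)) by ring, norm_mul, norm_mul, norm_inv, hx1, inv_one, mul_one]
    have k3 : ‖(pv (x i) ψ - ψ.coeff 0) * pv (x i) μ + ψ.coeff 0 * (pv (x i) μ - 1)‖ < 1 :=
      norm_add_lt' (by rwa [norm_mul, k1.2, mul_one]) (by rw [norm_mul, z1, one_mul]; exact k1.1)
    exact (mul_le_mul_of_nonneg_right (hW i) (norm_nonneg _)).trans_lt (mul_lt_of_lt_one_right hw k3)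
  have := norm_sub_lt' this (norm_sum_lt Finset.univ _ hw fun i _ => e i)
  rwa [Finset.sum_sub_distrib, sub_sub_cancel, ← Finset.mul_sum, norm_mul, z1, one_mul] at this

end Pool.Agent.MP_8d06cc_nt.H27
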