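import Pool.Agent.MP_8d06cc_nt.H27.Ser

/-! The boundary lemma: Chebyshev iteration kills the boundary term. -/

namespace Pool.Agent.MP_8d06cc_nt.H27

/-- `a + b y` has norm one and logarithmic derivative `R / y`, where `y ^ 2 = F`. -/
def Tri (ϑ : Derivation K L L) (F a b R : L) : Prop :=
  a ^ 2 - b ^ 2 * F = 1 ∧ ϑ a = b * R ∧ 2 * F * ϑ b + ϑ F * b = 2 * a * R

variable {ϑ : Derivation K L L} {F a b R a' b' R' : L} {τ : ℝ}

theorem Tri.mul (h : Tri ϑ F a b R) (h' : Tri ϑ F a' b' R') :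
    Tri ϑ F (a * a' + b * b' * F) (a * b' + a' * b) (R + R') := by
  obtain ⟨h1, h2, h3⟩ := h
  obtain ⟨k1, k2, k3⟩ := h'
  refine ⟨by linear_combination (a' ^ 2 - b' ^ 2 * F) * h1 + k1, ?_, ?_⟩
  · simp only [map_add, Derivation.leibniz, smul_eq_mul, h2, k2]
    linear_combination (b' / 2) * h3 + (b / 2) * k3
  · simp only [map_add, Derivation.leibniz, smul_eq_mul, h2, k2]
    linear_combination a' * h3 + a * k3

theorem Tri.inv (h : Tri ϑ F a b R) : Tri ϑ F a (-b) (-R) := by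
  obtain ⟨h1, h2, h3⟩ := h
  refine ⟨by linear_combination h1, by linear_combination h2, ?_⟩
  rw [map_neg]
  linear_combination -h3

theorem Tri.congr {a1 b1 R1 : L} (h : Tri ϑ F a b R) (ha : a = a1) (hb : b = b1) (hR : R = R1) :
    Tri ϑ F a1 b1 R1 := by
  subst ha hb hR
  exact h

/-- A state of the iteration. -/
def St (ϑ : Derivation K L L) (F b R : L) (κ : K) (a' b' : L) : Prop :=
  Tri ϑ F a' b' (algebraMap K L κ * R) ∧ Ord a' 0 ∧ ∃ u, Ord u 0 ∧ b' = b * u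

theorem St.step (hτ : 0 < τ) {κ : K} (h : St ϑ F b R κ a' b') {w m : ℝ} (hw : Bd τ (a' - 1) w)
    (w1 : w ≤ 1) (wm : w ^ 2 ≤ m) (m5 : 1 / 5 ≤ m) :
    ∃ a'' b'', St ϑ F b R (5 * κ) a'' b'' ∧ Bd τ (a'' - 1) (w * m ^ 2) ∧
      ∀ c, Bd τ b' c → Bd τ b'' (c * m) := by
  obtain ⟨ht, ho, u, hu, hb⟩ := h
  have h2 := ht.mul ht
  have h5 := (h2.mul h2).mul ht
  have w0 := hw.nonneg hτ
  have n1 : ∀ n : ℕ, Ord (n : L) 0 := ord_nat
  have o2 : Ord (a' ^ 2) 0 := by simpa using ho.pow 2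
  have oU : Ord (16 * a' ^ 4 - 12 * a' ^ 2 + 1) 0 := by
    have o4 : Ord (a' ^ 4) 0 := by simpa using ho.pow 4
    exact ((by simpa using (n1 16).mul o4 : Ord (16 * a' ^ 4) 0).sub
      (by simpa using (n1 12).mul o2)).add ord_one
  have b5 : Bd τ (5 : L) m := (bd_five hτ).mono m5
  have bw : Bd τ (a' - 1) 1 := hw.mono w1
  have bw2 : Bd τ ((a' - 1) ^ 2) m := (hw.pow hτ 2).mono wm
  have sc : ∀ (n : ℕ) {z : L} {c : ℝ}, Bd τ z c → Bd τ (n * z) c := fun n z c hz => by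
    simpa using (bd_nat hτ n).mul hτ hz
  have sw : ∀ {z : L} {c : ℝ}, Bd τ z c → Bd τ ((a' - 1) * z) c := fun hz => by
    simpa using bw.mul hτ hz
  refine ⟨16 * a' ^ 5 - 20 * a' ^ 3 + 5 * a', b' * (16 * a' ^ 4 - 12 * a' ^ 2 + 1),
    ⟨h5.congr ?_ ?_ ?_, ?_, u * (16 * a' ^ 4 - 12 * a' ^ 2 + 1), by simpa using hu.mul oU,
      by rw [hb, mul_assoc]⟩, ?_, fun c hc => hc.mul hτ ?_⟩
  · have := ht.1
    linear_combination (-5 * a' * (b' ^ 2 * F + 3 * a' ^ 2 - 1)) * this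
  · have := ht.1
    linear_combination (-b' * (b' ^ 2 * F + 11 * a' ^ 2 - 1)) * this
  · rw [map_mul, map_ofNat]; ring
  · have o5 : Ord (a' ^ 5) 0 := by simpa using ho.pow 5
    have o3 : Ord (a' ^ 3) 0 := by simpa using ho.pow 3
    exact ((by simpa using (n1 16).mul o5 : Ord (16 * a' ^ 5) 0).sub
      (by simpa using (n1 20).mul o3)).add (by simpa using (n1 5).mul ho)
  · have e : 16 * a' ^ 5 - 20 * a' ^ 3 + 5 * a' - 1 =
        (a' - 1) * ((4 : ℕ) * (a' - 1) ^ 2 + (2 : ℕ) * ((a' - 1) * 5) + 5) ^ 2 := by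
      push_cast; ring
    rw [e]
    exact hw.mul hτ ((((sc 4 bw2).add hτ (sc 2 (sw b5))).add hτ b5).pow hτ 2)
  · have e : 16 * a' ^ 4 - 12 * a' ^ 2 + 1 = 5 + (8 : ℕ) * ((a' - 1) * 5) +
        (84 : ℕ) * (a' - 1) ^ 2 + (64 : ℕ) * ((a' - 1) * (a' - 1) ^ 2) +
          (16 : ℕ) * ((a' - 1) * ((a' - 1) * (a' - 1) ^ 2)) := by
      push_cast; ring
    rw [e]
    exact (((b5.add hτ (sc 8 (sw b5))).add hτ (sc 84 bw2)).add hτ (sc 64 (sw bw2))).add hτ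
      (sc 16 (sw (sw bw2)))

theorem coeff_alg_mul (κ : K) (u : L) (m : ℤ) :
    (algebraMap K L κ * u).coeff m = κ * u.coeff m := by
  rw [← Algebra.smul_def]; rfl

theorem bdry (hct : ∀ u, (ϑ u).coeff 0 = 0) (hτ : 0 < τ) (h : Tri ϑ F a b R) {ρ : ℝ}
    (hρ : Bd τ (a ^ 2 - 1) ρ) (ρ1 : ρ < 1) (ha : Fin' τ a) (hb : Fin' τ b) (hR : Fin' τ R)
    (ho : Ord a 0) : ∃ c, 0 ≤ c ∧ ∀ (φ G E : L) (δ : ℝ), Fin' τ φ → Ord (b * G) 1 →
      2 * F * ϑ φ + ϑ F * φ = G + E → Bd τ E δ → ‖(φ * R).coeff 0‖ ≤ c * δ := by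
  set q := max ρ (1 / 5) with hq
  have q1 : q < 1 := max_lt ρ1 (by norm_num)
  have q5 : 1 / 5 ≤ q := le_max_right _ _
  have q0 : 0 < q := lt_of_lt_of_le (by norm_num) q5
  have ph1 : ∀ k : ℕ, ∃ κ a' b', κ ≠ 0 ∧ St ϑ F b R κ a' b' ∧ Bd τ (a' - 1) (q ^ (k + 1)) ∧
      Fin' τ b' := by
    intro k
    induction k with
    | zero =>
      have o2 : Ord (2 : L) 0 := by simpa using ord_nat 2
      have b2 : Bd τ (2 : L) 1 := by simpa using bd_nat hτ 2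
      refine ⟨2, 2 * a ^ 2 - 1, b * (2 * a), two_ne_zero, ⟨(h.mul h).congr ?_ (by ring) ?_,
        (by simpa using o2.mul (ho.pow 2) : Ord (2 * a ^ 2) 0).sub ord_one, 2 * a,
        by simpa using o2.mul ho, rfl⟩, ?_, hb.mul hτ (Fin'.mul hτ ⟨_, b2⟩ ha)⟩
      · linear_combination -h.1
      · rw [map_ofNat]; ring
      · have e : 2 * a ^ 2 - 1 - 1 = 2 * (a ^ 2 - 1) := by ring
        rw [e]
        exact (b2.mul hτ hρ).mono (by simp [hq])
    | succ k ih =>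
      obtain ⟨κ, a', b', hκ, hs, hw, c, hc⟩ := ih
      have p1 : q ^ (k + 1) ≤ q := pow_le_of_le_one q0.le q1.le (by omega)
      have p0 : 0 < q ^ (k + 1) := by positivity
      obtain ⟨a'', b'', hs', hw', hb'⟩ := hs.step hτ hw (p1.trans q1.le) (m := q)
        (by nlinarith) q5
      refine ⟨_, a'', b'', mul_ne_zero (by norm_num) hκ, hs', hw'.mono ?_, _, hb' c hc⟩
      rw [pow_succ q (k + 1)]
      exact mul_le_mul_of_nonneg_left (by nlinarith) p0.le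
  obtain ⟨k, hk⟩ := exists_pow_lt_of_lt_one (by norm_num : (0 : ℝ) < 1 / 5) q1
  obtain ⟨κ, a1, b1, hκ, hs1, hw1, cb, hcb⟩ := ph1 k
  have hw1' : Bd τ (a1 - 1) (1 / 5) :=
    hw1.mono ((pow_le_pow_of_le_one q0.le q1.le (by omega)).trans hk.le)
  have ph2 : ∀ k : ℕ, ∃ a' b', St ϑ F b R (5 ^ k * κ) a' b' ∧
      Bd τ (a' - 1) ((1 / 5) ^ (k + 1)) ∧ Bd τ b' (cb * (1 / 5) ^ k) := by
    intro k
    induction k with
    | zero => exact ⟨a1, b1, by simpa using hs1, by simpa using hw1', by simpa using hcb⟩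
    | succ k ih =>
      obtain ⟨a', b', hs, hw, hc⟩ := ih
      have p1 : (1 / 5 : ℝ) ^ (k + 1) ≤ 1 / 5 :=
        pow_le_of_le_one (by norm_num) (by norm_num) (by omega)
      have p0 : (0 : ℝ) < (1 / 5) ^ (k + 1) := by positivity
      obtain ⟨a'', b'', hs', hw', hb'⟩ := hs.step hτ hw (p1.trans (by norm_num)) (m := 1 / 5)
        (by nlinarith) le_rfl
      refine ⟨a'', b'', by rwa [pow_succ', mul_assoc], hw'.mono ?_, ?_⟩
      · rw [pow_succ _ (k + 1)]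
        exact mul_le_mul_of_nonneg_left (by norm_num) p0.le
      · rw [pow_succ, ← mul_assoc]
        exact hb' _ hc
  have cb0 := hcb.nonneg hτ
  have κ0 : 0 < ‖κ‖ := norm_pos_iff.2 hκ
  refine ⟨cb / ‖κ‖, by positivity, fun φ G E δ ⟨cφ, hφ⟩ hG hL hE => ?_⟩
  obtain ⟨cR, hR⟩ := hR
  have cφ0 := hφ.nonneg hτ
  have cR0 := hR.nonneg hτ
  have δ0 := hE.nonneg hτ
  refine le_of_forall_pos_le_add fun ε hε => ?_
  obtain ⟨k, hk⟩ := exists_pow_lt_of_lt_one (div_pos hε (by positivity : 0 < cφ * cR + 1))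
    (by norm_num : (1 / 5 : ℝ) < 1)
  obtain ⟨a', b', ⟨ht, -, u, hu, hbu⟩, hw, hc⟩ := ph2 k
  have id1 : algebraMap K L 2 * ϑ (F * b' * φ) =
      algebraMap K L (2 * (5 ^ k * κ)) * (φ * a' * R) + b * G * u + b' * E := by
    simp only [Derivation.leibniz, smul_eq_mul, map_mul (algebraMap K L) 2, map_ofNat]
    linear_combination φ * ht.2.2 + b' * hL + G * hbu
  have id2 := congrArg (fun z => HahnSeries.coeff z 0) id1
  simp only [HahnSeries.coeff_add, coeff_alg_mul, hct, mul_zero] at id2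
  rw [(hG.mul hu) 0 (by norm_num), add_zero] at id2
  have e1 : ‖(φ * a' * R).coeff 0‖ ≤ cb / ‖κ‖ * δ := by
    have h1 := (hc.mul hτ hE).ct
    rw [eq_neg_of_add_eq_zero_right id2.symm, norm_neg, norm_mul, norm_mul, norm_mul, norm_two,
      norm_pow, norm_five] at h1
    have p0 : (0 : ℝ) < (1 / 5) ^ k := by positivity
    rw [div_mul_eq_mul_div, le_div_iff₀ κ0]
    refine le_of_mul_le_mul_left ?_ p0
    linarith
  have e2 : ‖(φ * (a' - 1) * R).coeff 0‖ ≤ ε := by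
    refine ((hφ.mul hτ hw).mul hτ hR).ct.trans ?_
    rw [lt_div_iff₀ (by positivity)] at hk
    have p0 : (0 : ℝ) < (1 / 5) ^ k := by positivity
    rw [pow_succ]
    nlinarith [mul_nonneg cφ0 cR0]
  have e3 : φ * R = φ * a' * R - φ * (a' - 1) * R := by ring
  rw [e3, HahnSeries.coeff_sub]
  exact (norm_sub_le _ _).trans (add_le_add e1 e2)

end Pool.Agent.MP_8d06cc_nt.H27
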