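import Pool.Agent.MP_8d06cc_nt.H27.Roots

/-! Configurations of roots and rational points, and changes of coordinates. -/

namespace Pool.Agent.MP_8d06cc_nt.H27

open Polynomial Finset

/-- The difference of the two points above `a` is torsion. -/
def Tors (f : ℚ[X]) (a : ℚ) : Prop :=
  ∃ n : ℕ, 0 < n ∧ ∃ A B : ℚ[X], A ^ 2 - B ^ 2 * f = (X - C a) ^ (2 * n) ∧ A.natDegree ≤ n ∧
    A.eval a ≠ 0

/-- `a` is the abscissa of a rational torsion point. -/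
def Good (f : ℚ[X]) (a : ℚ) : Prop := IsSquare (f.eval a) ∧ (f.eval a ≠ 0 → Tors f a)

theorem ev_refl {F : Type} [Field F] {z : F} (hz : z ≠ 0) {N : ℕ} {P : F[X]}
    (h : P.natDegree ≤ N) : (reflect N P).eval z = z ^ N * P.eval z⁻¹ := by
  let _ := invertibleOfNonzero (inv_ne_zero hz)
  have := eval₂_reflect_mul_pow (RingHom.id F) z⁻¹ N P h
  rw [invOf_eq_inv, inv_inv, eval₂_id, eval₂_id] at this
  rw [← this, mul_left_comm, ← mul_pow, mul_inv_cancel₀ hz, one_pow, mul_one]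

theorem ext_ne {F : Type} [Field F] [CharZero F] {P Q : F[X]}
    (h : ∀ z, z ≠ 0 → P.eval z = Q.eval z) : P = Q :=
  eq_of_infinite_eval_eq P Q ((Set.finite_singleton (0 : F)).infinite_compl.mono fun z hz => h z hz)

theorem Good.aff {f : ℚ[X]} {a α : ℚ} (γ : ℚ) (hα : α ≠ 0) (h : Good f a) :
    Good (f.comp (C α * X + C γ)) ((a - γ) / α) := by
  have e : (C α * X + C γ).eval ((a - γ) / α) = a := by simp; field_simp; ring
  rw [Good, eval_comp, e]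
  refine ⟨h.1, fun h0 => ?_⟩
  obtain ⟨n, hn, A, B, h1, h2, h3⟩ := h.2 h0
  refine ⟨n, hn, C (α⁻¹ ^ n) * A.comp (C α * X + C γ), C (α⁻¹ ^ n) * B.comp (C α * X + C γ),
    Polynomial.funext fun z => ?_, ?_, ?_⟩
  · have := congrArg (eval (α * z + γ)) h1
    simp only [eval_sub, eval_mul, eval_pow, eval_comp, eval_add, eval_C, eval_X] at this ⊢
    rw [mul_pow, mul_pow, mul_assoc, ← mul_sub, this, ← pow_mul, mul_comm n, ← mul_pow]
    congr 1
    field_simp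
    ring
  · refine (natDegree_C_mul_le _ _).trans (natDegree_comp_le.trans ?_)
    rw [natDegree_linear hα, mul_one]
    exact h2
  · rw [eval_mul, eval_comp, e, eval_C]
    exact mul_ne_zero (pow_ne_zero _ (inv_ne_zero hα)) h3

theorem Good.inv {f : ℚ[X]} {a : ℚ} (hf : f.natDegree = 8) (ha : a ≠ 0) (h : Good f a) :
    Good (reflect 8 f) a⁻¹ := by
  rw [Good, ev_refl (inv_ne_zero ha) hf.le, inv_inv]
  refine ⟨IsSquare.mul ⟨a⁻¹ ^ 4, by ring⟩ h.1, fun h0 => ?_⟩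
  obtain ⟨n, hn, A, B, h1, h2, h3⟩ := h.2 (right_ne_zero_of_mul h0)
  have hB : B ≠ 0 := by
    rintro rfl
    have := congrArg (eval a) h1
    simp [hn.ne'] at this
    exact h3 this
  have hd : B.natDegree + 4 ≤ n := by
    have e : B ^ 2 * f = A ^ 2 - (X - C a) ^ (2 * n) := by linear_combination -h1
    have := congrArg natDegree e
    rw [natDegree_mul (pow_ne_zero 2 hB) (by rintro rfl; simp at hf), natDegree_pow, hf] at this
    have h4 := natDegree_sub_le (A ^ 2) ((X - C a) ^ (2 * n))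
    rw [natDegree_pow, natDegree_pow, natDegree_X_sub_C] at h4
    omega
  obtain ⟨m, rfl⟩ : ∃ m, n = m + 4 := ⟨n - 4, by omega⟩
  refine ⟨m + 4, hn, C (a⁻¹ ^ (m + 4)) * reflect (m + 4) A, C (a⁻¹ ^ (m + 4)) * reflect m B,
    ext_ne fun z hz => ?_, ?_, ?_⟩
  · have := congrArg (eval z⁻¹) h1
    simp only [eval_sub, eval_mul, eval_pow, eval_C, eval_X, ev_refl hz h2, ev_refl hz hf.le,
      ev_refl hz (show B.natDegree ≤ m by omega)] at this ⊢
    have e : z - a⁻¹ = -(a⁻¹ * z * (z⁻¹ - a)) := by field_simp; ring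
    rw [e, (even_two_mul _).neg_pow, mul_pow _ (z⁻¹ - a), ← this]
    ring
  · exact (natDegree_C_mul_le _ _).trans (natDegree_reflect_le.trans (max_le le_rfl h2))
  · rw [eval_mul, eval_C, ev_refl (inv_ne_zero ha) h2, inv_inv]
    exact mul_ne_zero (pow_ne_zero _ (inv_ne_zero ha)) (mul_ne_zero (pow_ne_zero _ (inv_ne_zero ha)) h3)

/-- A curve with its branch points and a finite set of abscissas of rational points. -/
structure Cfg where
  f : ℚ[X]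
  c : K
  β : Fin 8 → K
  T : Finset ℚ
  c0 : c ≠ 0
  inj : Function.Injective β
  fac : f.map (Rat.castHom K) = C c * ∏ i, (X - C (β i))
  good : ∀ a ∈ T, Good f a

/-- Number of points above `a`. -/
noncomputable def wt (f : ℚ[X]) (a : ℚ) : ℕ := if f.eval a = 0 then 1 else 2

namespace Cfg

variable (Z : Cfg)

/-- The polynomial over `K`. -/
noncomputable def F : K[X] := Z.f.map (Rat.castHom K)

open Classical in
/-- Number of points in a region. -/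
noncomputable def cnt (p : K → Prop) : ℕ := ∑ a ∈ Z.T.filter fun a : ℚ => p a, wt Z.f a

open Classical in
/-- Number of branch points in a region. -/
noncomputable def nr (p : K → Prop) : ℕ := #{i | p (Z.β i)}

open Classical in
/-- Number of abscissas that are not branch points. -/
noncomputable def fr (p : K → Prop) : ℕ :=
  #(Z.T.filter fun a : ℚ => p a ∧ Z.f.eval a ≠ 0)

theorem F_eq : Z.F = C Z.c * ∏ i, (X - C (Z.β i)) := Z.fac

theorem F_deg : Z.F.natDegree = 8 := by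
  rw [F_eq, natDegree_C_mul Z.c0, natDegree_prod_of_monic _ _ fun i _ => monic_X_sub_C _]
  simp

theorem f_deg : Z.f.natDegree = 8 := by
  rw [← Z.F_deg, F, natDegree_map]

theorem F_rt : Rt Z.F := ⟨_, rfl⟩

theorem F_eval (a : ℚ) : Z.F.eval (a : K) = (Z.f.eval a : ℚ) := by
  rw [F, eval_map]
  exact eval₂_at_apply (Rat.castHom K) a

theorem F_eval' (z : K) : Z.F.eval z = Z.c * ∏ i, (z - Z.β i) := by simp [F_eq, eval_prod]

theorem F_root (i : Fin 8) : Z.F.IsRoot (Z.β i) := by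
  rw [IsRoot, F_eval', prod_eq_zero (mem_univ i) (sub_self _), mul_zero]

theorem root_iff (a : ℚ) : Z.f.eval a = 0 ↔ ∃ i, Z.β i = a := by
  rw [← Rat.cast_eq_zero (α := K), ← F_eval, F_eval']
  simp only [mul_eq_zero, Z.c0, false_or, prod_eq_zero_iff, mem_univ, true_and, sub_eq_zero]
  exact exists_congr fun i => eq_comm

/-- Affine change of coordinate. -/
noncomputable def aff (α γ : ℚ) (hα : α ≠ 0) : Cfg where
  f := Z.f.comp (C α * X + C γ)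
  c := Z.c * α ^ 8
  β i := (Z.β i - γ) / α
  T := Z.T.image fun a => (a - γ) / α
  c0 := mul_ne_zero Z.c0 (pow_ne_zero _ (Rat.cast_ne_zero.2 hα))
  inj i j h := Z.inj (by simpa [hα] using h)
  fac := Polynomial.funext fun z => by
    have h : (α : K) ≠ 0 := Rat.cast_ne_zero.2 hα
    have e : ∀ i, α * z + γ - Z.β i = α * (z - (Z.β i - γ) / α) := fun i => by field_simp; ring
    rw [map_comp, eval_comp, Z.fac]
    simp [eval_prod, e, prod_mul_distrib, mul_assoc]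
  good a ha := by
    obtain ⟨b, hb, rfl⟩ := mem_image.1 ha
    exact (Z.good b hb).aff γ hα

/-- Inversion of the coordinate. -/
noncomputable def inv (h0 : 0 ∉ Z.T) (hβ : ∀ i, Z.β i ≠ 0) : Cfg where
  f := reflect 8 Z.f
  c := Z.c * ∏ i, -Z.β i
  β i := (Z.β i)⁻¹
  T := Z.T.image fun a => a⁻¹
  c0 := mul_ne_zero Z.c0 (prod_ne_zero_iff.2 fun i _ => neg_ne_zero.2 (hβ i))
  inj i j h := Z.inj (inv_injective h)
  fac := ext_ne fun z hz => by
    have e : ∀ i, z * (z⁻¹ - Z.β i) = -Z.β i * (z - (Z.β i)⁻¹) := fun i => by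
      have := hβ i
      field_simp
      ring
    rw [← reflect_map, ← F, ev_refl hz Z.F_deg.le, F_eval', mul_left_comm,
      show z ^ 8 = ∏ _i : Fin 8, z by simp, ← prod_mul_distrib]
    simp only [e, prod_mul_distrib, eval_mul, eval_C, eval_prod, eval_sub, eval_X, mul_assoc]
  good a ha := by
    obtain ⟨b, hb, rfl⟩ := mem_image.1 ha
    exact (Z.good b hb).inv Z.f_deg fun h => h0 (h ▸ hb)

theorem cnt_aff (α γ : ℚ) (hα : α ≠ 0) (p : K → Prop) :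
    (Z.aff α γ hα).cnt p = Z.cnt fun z => p ((z - γ) / α) := by
  classical
  simp only [cnt, aff, sum_filter]
  rw [sum_image fun a _ b _ h => by simpa [hα] using h]
  refine sum_congr rfl fun a _ => ?_
  have e : (C α * X + C γ).eval ((a - γ) / α) = a := by simp; field_simp; ring
  simp only [wt, eval_comp, e, Rat.cast_div, Rat.cast_sub]

theorem nr_aff (α γ : ℚ) (hα : α ≠ 0) (p : K → Prop) :
    (Z.aff α γ hα).nr p = Z.nr fun z => p ((z - γ) / α) := rfl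

theorem cnt_inv (h0 : 0 ∉ Z.T) (hβ : ∀ i, Z.β i ≠ 0) (p : K → Prop) :
    (Z.inv h0 hβ).cnt p = Z.cnt fun z => p z⁻¹ := by
  classical
  simp only [cnt, inv, sum_filter]
  rw [sum_image fun a _ b _ h => inv_injective h]
  refine sum_congr rfl fun a ha => ?_
  have h : a ≠ 0 := fun h => h0 (h ▸ ha)
  simp [wt, ev_refl (inv_ne_zero h) Z.f_deg.le, h]

theorem nr_inv (h0 : 0 ∉ Z.T) (hβ : ∀ i, Z.β i ≠ 0) (p : K → Prop) :
    (Z.inv h0 hβ).nr p = Z.nr fun z => p z⁻¹ := rfl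

variable {Z}

theorem cnt_mono {p q : K → Prop} (h : ∀ a : ℚ, a ∈ Z.T → p a → q a) : Z.cnt p ≤ Z.cnt q := by
  classical
  exact sum_le_sum_of_subset fun a ha =>
    mem_filter.2 ⟨(mem_filter.1 ha).1, h a (mem_filter.1 ha).1 (mem_filter.1 ha).2⟩

theorem cnt_or {p q r : K → Prop} (h : ∀ a : ℚ, a ∈ Z.T → p a → q a ∨ r a) :
    Z.cnt p ≤ Z.cnt q + Z.cnt r := by
  classical
  simp only [cnt, sum_filter, ← sum_add_distrib]
  refine sum_le_sum fun a ha => ?_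
  have := h a ha
  split_ifs <;> first | omega | tauto

theorem nr_congr {p q : K → Prop} (h : ∀ i, p (Z.β i) ↔ q (Z.β i)) : Z.nr p = Z.nr q := by
  simp only [nr]
  congr 1
  ext i
  simp [h]

theorem nr_eq (p : K → Prop) [DecidablePred fun i => p (Z.β i)] : Z.nr p = #{i | p (Z.β i)} := by
  unfold nr
  congr

theorem nr_mono {p q : K → Prop} (h : ∀ i, p (Z.β i) → q (Z.β i)) : Z.nr p ≤ Z.nr q := by
  classical
  exact card_le_card fun i hi => by simpa using h i (by simpa using hi)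

theorem nr_add {p q r : K → Prop} (h : ∀ z, p z ↔ q z ∨ r z) (hd : ∀ z, q z → ¬ r z) :
    Z.nr p = Z.nr q + Z.nr r := by
  classical
  simp only [nr, h, filter_or]
  rw [card_union_of_disjoint (disjoint_filter.2 fun i _ => hd _)]

theorem nr_not (p : K → Prop) : Z.nr p + Z.nr (fun z => ¬ p z) = 8 := by
  rw [← nr_add (p := fun _ => True) (by tauto) (by tauto)]
  simp [nr]

theorem nr_eq_zero {p : K → Prop} : Z.nr p = 0 ↔ ∀ i, ¬ p (Z.β i) := by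
  simp [nr, filter_eq_empty_iff]

theorem cnt_le (p : K → Prop) : Z.cnt p ≤ Z.nr p + 2 * Z.fr p := by
  classical
  have e : Z.cnt p = #(Z.T.filter fun a : ℚ => p a ∧ Z.f.eval a = 0) + 2 * Z.fr p := by
    simp only [cnt, fr, wt, card_filter, sum_filter, mul_sum, ← sum_add_distrib]
    refine sum_congr rfl fun a _ => ?_
    by_cases h1 : p a <;> by_cases h2 : Z.f.eval a = 0 <;> simp [h1, h2]
  rw [e, add_le_add_iff_right, ← card_image_of_injective _ (Rat.cast_injective (α := K))]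
  refine le_trans (card_le_card fun z hz => ?_) (card_image_le (f := Z.β))
  obtain ⟨a, ha, rfl⟩ := mem_image.1 hz
  obtain ⟨i, hi⟩ := (Z.root_iff a).1 (mem_filter.1 ha).2.2
  exact mem_image.2 ⟨i, by simpa [hi] using (mem_filter.1 ha).2.1, hi⟩

variable (Z)

theorem gn_pos {r : ℝ} (hr : 0 < r) : 0 < gn r Z.F := by
  rw [F_eq, gn_mul hr, gn_C]
  exact mul_pos (norm_pos_iff.2 Z.c0) (gn_rts_pos _ hr _)

theorem top {r : ℝ} (hr : 0 < r) : ‖Z.F.coeff (Z.nr (‖·‖ ≤ r))‖ * r ^ Z.nr (‖·‖ ≤ r) = gn r Z.F ∧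
    ∀ j, Z.nr (‖·‖ ≤ r) < j → ‖Z.F.coeff j‖ * r ^ j < gn r Z.F := by
  have := top_lem Z.β hr univ
  rw [← nr_eq (‖·‖ ≤ r)] at this
  simp only [F_eq, gn_mul hr, gn_C, Polynomial.coeff_C_mul, norm_mul, mul_assoc]
  exact ⟨by rw [← this.1], fun j hj => mul_lt_mul_of_pos_left (this.2 j hj) (norm_pos_iff.2 Z.c0)⟩

theorem bot {r : ℝ} (hr : 0 < r) : ‖Z.F.coeff (Z.nr (‖·‖ < r))‖ * r ^ Z.nr (‖·‖ < r) = gn r Z.F ∧
    ∀ j, j < Z.nr (‖·‖ < r) → ‖Z.F.coeff j‖ * r ^ j < gn r Z.F := by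
  have := bot_lem Z.β hr univ
  rw [← nr_eq (‖·‖ < r)] at this
  simp only [F_eq, gn_mul hr, gn_C, Polynomial.coeff_C_mul, norm_mul, mul_assoc]
  exact ⟨by rw [← this.1], fun j hj => mul_lt_mul_of_pos_left (this.2 j hj) (norm_pos_iff.2 Z.c0)⟩

theorem p5_pow {r : ℝ} (hr : 0 < r) : P5 (r ^ Z.nr (‖·‖ = r)) := by
  have h1 := (Z.top hr).1
  have h2 := (Z.bot hr).1
  have g := Z.gn_pos hr
  have p1 := Z.F_rt.p5 (i := Z.nr (‖·‖ ≤ r)) fun h => by simp [h, g.ne] at h1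
  have p2 := Z.F_rt.p5 (i := Z.nr (‖·‖ < r)) fun h => by simp [h, g.ne] at h2
  rw [nr_add (q := (‖·‖ < r)) (r := (‖·‖ = r)) (fun z => le_iff_lt_or_eq) fun z h => h.ne] at h1 p1
  convert p1.inv.mul p2 using 1
  rw [eq_inv_mul_iff_mul_eq₀ p1.pos.ne']
  refine mul_right_cancel₀ (pow_pos hr (Z.nr (‖·‖ < r))).ne' ?_
  rw [h2, ← h1, pow_add]
  ring

/-- Integrality of the Newton polygon. -/
theorem int_lem {i : Fin 8} (h1 : 1 < ‖Z.β i‖) (h5 : ‖Z.β i‖ < 5) {j : ℕ}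
    (hj : Z.nr (fun z => 1 < ‖z‖ ∧ ‖z‖ < 5) ≤ j) :
    5 ≤ ‖Z.β i‖ ^ j ∧ ∃ m, m ≤ j ∧ m = Z.nr (‖·‖ = ‖Z.β i‖) ∧ 5 * ‖Z.β i‖ ^ m ≤ 5 ^ m := by
  have p := Z.p5_pow (zero_lt_one.trans h1)
  have m1 : Z.nr (‖·‖ = ‖Z.β i‖) ≠ 0 := fun h => nr_eq_zero.1 h i rfl
  have m2 : Z.nr (‖·‖ = ‖Z.β i‖) ≤ j := (nr_mono fun l hl => by rw [hl]; exact ⟨h1, h5⟩).trans hj
  refine ⟨le_trans ?_ (pow_le_pow_right₀ h1.le m2), _, m2, rfl,
    p.gap (P5.five.pow _) (pow_lt_pow_left₀ h5 (norm_nonneg _) m1)⟩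
  simpa using P5.one.gap p (one_lt_pow₀ h1 m1)

theorem base {ι : Type} [Fintype ι] [DecidableEq ι] (a : ι → ℚ) (i₀ : ι) (h : a i₀ ∈ Z.T)
    (h' : Z.f.eval (a i₀) ≠ 0) : ∃ σ : Sol Z.F fun i => (a i : K),
      (Rt σ.A ∧ Rt σ.B) ∧ σ.W i₀ ≠ 0 ∧ ∀ i, i ≠ i₀ → σ.W i = 0 := by
  obtain ⟨n, hn, A, B, h1, h2, h3⟩ := (Z.good _ h).2 h'
  obtain ⟨σ, e1, e2, e3⟩ := exists_base (f := Z.F) (x := fun i => (a i : K)) i₀ hn
    (A := A.map (Rat.castHom K)) (B := B.map (Rat.castHom K))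
    (by simpa [F] using congrArg (Polynomial.map (Rat.castHom K)) h1) (natDegree_map_le.trans h2)
    (by
      rw [eval_map]
      exact fun h => h3 ((map_eq_zero _).1 ((eval₂_at_apply (Rat.castHom K) _).symm.trans h)))
  exact ⟨σ, ⟨⟨_, e1⟩, _, e2⟩, e3⟩

theorem indep {ι : Type} {u v : ι → K} {i : ι} (hu : u i ≠ 0) (hv : v i = 0) (h : v ≠ 0) :
    LinearIndependent K ![u, v] := by
  rw [LinearIndependent.pair_iff]
  intro c d e
  have := congrFun e i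
  simp only [Pi.add_apply, Pi.smul_apply, hv, smul_eq_mul, mul_zero, add_zero, Pi.zero_apply,
    mul_eq_zero, hu, or_false] at this
  simpa [this, h] using e

theorem elimQ {ι : Type} [Fintype ι] {a : ι → ℚ} {r : ℝ} (hr : P5 r)
    (p : Sol Z.F (fun i => (a i : K)) → Prop) (pm : ∀ s t, p s → p t → p (s.mul t))
    (pi : ∀ s, p s → p s.inv) (s t : Sol Z.F fun i => (a i : K)) (hs : Rt s.A ∧ Rt s.B)
    (ht : Rt t.A ∧ Rt t.B) (ps : p s) (pt : p t) (hi : LinearIndependent K ![s.W, t.W]) :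
    ∃ u, (Rt u.A ∧ Rt u.B) ∧ p u ∧ u.Bdd r ∧ u.W ≠ 0 := by
  obtain ⟨u, h⟩ := elim' hr.pos (fun u => (Rt u.A ∧ Rt u.B) ∧ p u)
    (fun s t hs ht => ⟨⟨(hs.1.1.mul ht.1.1).add ((hs.1.2.mul ht.1.2).mul Z.F_rt),
      (hs.1.1.mul ht.1.2).add (ht.1.1.mul hs.1.2)⟩, pm _ _ hs.2 ht.2⟩)
    (fun s hs => ⟨⟨hs.1.1, hs.1.2.neg⟩, pi _ hs.2⟩)
    (fun s hs => disc_of hr (fun i => p5_max hr (a i)) s hs.1.1) s t ⟨hs, ps⟩ ⟨ht, pt⟩ hi
  exact ⟨u, h.1.1, h.1.2, h.2⟩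

theorem bdd2 {a : Fin 2 → ℚ} (hT : ∀ i, a i ∈ Z.T)
    (hf : ∀ i, Z.f.eval (a i) ≠ 0) : ∃ σ : Sol Z.F fun i => (a i : K), σ.Bdd 1 ∧ σ.W ≠ 0 := by
  obtain ⟨s, s1, s2, -⟩ := Z.base a 0 (hT 0) (hf 0)
  obtain ⟨t, t1, t2, t3⟩ := Z.base a 1 (hT 1) (hf 1)
  obtain ⟨u, -, -, h⟩ := Z.elimQ P5.one (fun _ => True) (by simp) (by simp) s t s1 t1 trivial
    trivial (indep s2 (t3 0 (by simp)) fun h => t2 (congrFun h 1))
  exact ⟨u, h⟩

theorem bdd3 {a : Fin 3 → ℚ} (hT : ∀ i, a i ∈ Z.T)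
    (hf : ∀ i, Z.f.eval (a i) ≠ 0) {r₁ r₂ : ℝ} (h1 : P5 r₁) (h2 : P5 r₂) :
    ∃ σ : Sol Z.F fun i => (a i : K), σ.Bdd r₁ ∧ σ.Bdd r₂ ∧ σ.W ≠ 0 := by
  choose s s1 s2 s3 using fun i => Z.base a i (hT i) (hf i)
  have pair : ∀ i j k, i ≠ j → k ≠ i → k ≠ j → ∃ u : Sol Z.F fun i => (a i : K),
      (Rt u.A ∧ Rt u.B) ∧ u.W k = 0 ∧ u.Bdd r₁ ∧ u.W ≠ 0 := fun i j k hij hi hj =>
    Z.elimQ h1 (fun u => u.W k = 0) (fun s t hs ht => by simp [Sol.mul, hs, ht])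
      (fun s hs => by simp [Sol.inv, hs]) (s i) (s j) (s1 i) (s1 j) (s3 i k hi) (s3 j k hj)
      (indep (s2 i) (s3 j i hij) fun h => s2 j (congrFun h j))
  obtain ⟨u, u1, u2, u3, u4⟩ := pair 0 1 2 (by simp) (by simp) (by simp)
  obtain ⟨k, hk, t, t1, t2, t3, t4⟩ : ∃ k, u.W k ≠ 0 ∧ ∃ t : Sol Z.F fun i => (a i : K),
      (Rt t.A ∧ Rt t.B) ∧ t.W k = 0 ∧ t.Bdd r₁ ∧ t.W ≠ 0 := by
    obtain ⟨k, hk⟩ := Function.ne_iff.1 u4
    refine ⟨k, hk, ?_⟩
    fin_cases k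
    · exact pair 1 2 0 (by simp) (by simp) (by simp)
    · exact pair 0 2 1 (by simp) (by simp) (by simp)
    · exact pair 0 1 2 (by simp) (by simp) (by simp)
  obtain ⟨v, -, h⟩ := Z.elimQ h2 (fun u => u.Bdd r₁) (fun s t hs ht => hs.mul h1.pos ht)
    (fun s hs => hs) u t u1 t1 u3 t3 (indep hk t2 t4)
  exact ⟨v, h⟩

end Cfg

end Pool.Agent.MP_8d06cc_nt.H27
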