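import Pool.Agent.MP_8d06cc_nt.H27.Vert

/-! Point counts in directions, circles, annuli and at the ends of the tree. -/

namespace Pool.Agent.MP_8d06cc_nt.H27

open Polynomial Finset

theorem gap_lt {r : ℝ} (hr : P5 r) {q : ℚ} (h : ‖(q : K)‖ < r) : 5 * ‖(q : K)‖ ≤ r := by
  by_cases h0 : q = 0
  · simpa [h0] using hr.pos.le
  · exact (p5_rat h0).gap hr h

theorem gap_gt {r : ℝ} (hr : P5 r) {q : ℚ} (h : r < ‖(q : K)‖) : 5 * r ≤ ‖(q : K)‖ :=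
  hr.gap (p5_rat fun h0 => by simp [h0, hr.pos.not_gt] at h) h

theorem P5.rat {r : ℝ} (h : P5 r) : ∃ α : ℚ, α ≠ 0 ∧ ‖(α : K)‖ = r := by
  obtain ⟨n, rfl⟩ := h
  exact ⟨5 ^ (-n), by positivity, by simp [norm_five]⟩

theorem P5.fifth : P5 (1 / 5) := by simpa using P5.five.inv

theorem s8 : s ^ 8 ≤ 5 := (pow_le_pow_right₀ s1.le (by norm_num)).trans s24

theorem rp_ne {x y : ZMod 5} (h : x ≠ y) : ‖(rp x : K) - rp y‖ = 1 :=
  le_antisymm (norm_sub_le' (rp_le x) (rp_le y)) (not_lt.1 fun h' => h (by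
    rw [rp_cast, rp_cast, ← Int.cast_sub, zm] at h'
    simpa [ri_cast, sub_eq_zero] using h'))

theorem cc_le {k : ℕ} (h : k ≤ 3) : cc k ≤ 2 + k := by interval_cases k <;> simp [cc]

/-- Bound for one side. -/
def sg (k j : ℕ) : ℕ :=
  if k = 4 ∧ 3 < j then 14 else if k = 2 ∧ j ≤ 2 then 4 else vb k

namespace Cfg

variable (Z : Cfg)

theorem dirA (h : Z.nr (‖·‖ < 5) ≤ 3)
    (h' : ¬ (Z.nr (‖·‖ ≤ 1) = 1 ∧ Z.nr (fun z => 1 < ‖z‖ ∧ ‖z‖ < 5) = 2)) :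
    Z.cnt (‖·‖ ≤ 1) ≤ cc (Z.nr (‖·‖ < 5)) := by
  have h1 := Z.mid_ne_one
  rw [nr_split] at h ⊢
  by_cases h0 : Z.nr (‖·‖ ≤ 1) = 0
  · have := Z.disc (.inl ⟨rfl, rfl, rfl⟩) h0 (Z.outer (j := 3) (by omega) le_rfl (by norm_num))
    rw [h0, zero_add] at h ⊢
    generalize Z.nr (fun z => 1 < ‖z‖ ∧ ‖z‖ < 5) = j at *
    interval_cases j <;> simp_all [cc] <;> omega
  have hj : Z.nr (fun z => 1 < ‖z‖ ∧ ‖z‖ < 5) = 0 := by omega
  obtain e | e | e : Z.nr (‖·‖ ≤ 1) = 1 ∨ Z.nr (‖·‖ ≤ 1) = 2 ∨ Z.nr (‖·‖ ≤ 1) = 3 := by omega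
  · rw [hj, e]
    exact Z.disc (.inr (.inl ⟨rfl, rfl, rfl⟩)) e (Z.outer hj.le (by norm_num) le_rfl)
  · rw [hj, e]
    exact Z.disc (.inr (.inr (.inl ⟨rfl, rfl, rfl⟩))) e (Z.outer hj.le (by norm_num) (by norm_num))
  · rw [hj, e]
    exact Z.disc (.inr (.inr (.inr ⟨rfl, rfl, rfl⟩))) e (Z.outer hj.le (by norm_num) le_rfl)

theorem dir_of {n : ℕ} (H : ∀ Z : Cfg, Z.nr (‖·‖ < 5) ≤ n → Z.cnt (‖·‖ ≤ 1) ≤ cc (Z.nr (‖·‖ < 5)))
    (Z : Cfg) {ρ : ℝ} (hρ : P5 ρ) (γ : ℚ) (h : Z.nr (‖· - γ‖ < ρ) ≤ n) :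
    Z.cnt (‖· - γ‖ < ρ) ≤ cc (Z.nr (‖· - γ‖ < ρ)) := by
  obtain ⟨α, h0, hα⟩ := (hρ.mul P5.fifth).rat
  have p := hρ.pos
  have e : (Z.aff α γ h0).nr (‖·‖ < 5) = Z.nr (‖· - γ‖ < ρ) := by
    rw [nr_aff]
    exact nr_congr fun i => by
      rw [norm_div, hα, div_lt_iff₀ (by positivity), show 5 * (ρ * (1 / 5)) = ρ by ring]
  have := H _ (e ▸ h)
  rw [e, cnt_aff] at this
  refine (cnt_mono fun a _ ha => ?_).trans this
  have := gap_lt hρ (q := a - γ) (by simpa using ha)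
  rw [norm_div, hα, div_le_one (by positivity)]
  push_cast at this
  linarith

theorem class_le (c : ZMod 5) : Z.nr (‖· - rp c‖ < 1) ≤ Z.nr (‖·‖ ≤ 1) :=
  nr_mono fun _ h => (norm_sub_iff (rp_le c)).1 h.le

theorem dir {ρ : ℝ} (hρ : P5 ρ) (γ : ℚ) (h : Z.nr (‖· - γ‖ < ρ) ≤ 3) :
    Z.cnt (‖· - γ‖ < ρ) ≤ cc (Z.nr (‖· - γ‖ < ρ)) := by
  have d2 := @dir_of 2 fun Z h => Z.dirA (by omega) fun h' => by rw [nr_split] at h; omega
  refine dir_of (fun Z h => ?_) Z hρ γ h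
  by_cases h' : Z.nr (‖·‖ ≤ 1) = 1 ∧ Z.nr (fun z => 1 < ‖z‖ ∧ ‖z‖ < 5) = 2
  · have := Z.vert (by omega) (fun c => (Z.class_le c).trans (by omega))
      fun c => d2 Z P5.one _ ((Z.class_le c).trans (by omega))
    rw [nr_split, h'.1, h'.2]
    rw [h'.1] at this
    exact this.resolve_right fun h => by omega
  · exact Z.dirA h h'

theorem far {a b : ℚ} (ha : a ∈ Z.T) (hb : b ∈ Z.T) (hab : a ≠ b) (fa : Z.f.eval a ≠ 0)
    (fb : Z.f.eval b ≠ 0) {ρ : ℝ} (hρ : P5 ρ) (h : ∀ i, ¬ ‖Z.β i - a‖ < ρ) : ρ ≤ ‖(a : K) - b‖ := by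
  classical
  by_contra! h'
  have h0 := nr_eq_zero (p := (‖· - a‖ < ρ)).2 h
  have := Z.dir hρ a (by omega)
  rw [h0] at this
  have h4 : ∑ z ∈ {a, b}, wt Z.f z ≤ Z.cnt (‖· - a‖ < ρ) := sum_le_sum_of_subset fun z hz => by
    rcases mem_insert.1 hz with rfl | hz
    · simpa [ha] using hρ.pos
    · rw [mem_singleton.1 hz]
      simpa [hb, norm_sub_rev] using h'
  rw [sum_pair hab, wt, wt, if_neg fa, if_neg fb] at h4
  exact absurd (h4.trans this) (by simp [cc])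

theorem circle {r : ℝ} (hr : P5 r) (h : ∀ i, ‖Z.β i‖ ≠ r) : Z.cnt (‖·‖ = r) ≤ 8 := by
  obtain ⟨α, h0, hα⟩ := hr.rat
  have p := hr.pos
  refine (Z.cnt_cover (fun (c : ZMod 5) z => c ≠ 0 ∧ ‖z - (α * rp c : ℚ)‖ < r) fun a _ ha => ?_).trans
    (le_trans (sum_le_sum (g := fun c => if c = 0 then 0 else 2) fun c _ => ?_) (by decide))
  · have e : ‖((a / α : ℚ) : K)‖ = 1 := by rw [Rat.cast_div, norm_div, ha, hα, div_self p.ne']
    obtain ⟨c, hc⟩ := exists_class e.le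
    refine ⟨c, ?_, ?_⟩
    · rintro rfl
      simp [rp, ri, e, -Rat.cast_div] at hc
    · have h0' : (α : K) ≠ 0 := Rat.cast_ne_zero.2 h0
      rw [show (a : K) - (α * rp c : ℚ) = α * ((a / α : ℚ) - rp c) by push_cast; field_simp,
        norm_mul, hα]
      exact mul_lt_of_lt_one_right p hc
  · split_ifs with hc
    · simp [cnt, hc]
    · have h1 : ‖((α * rp c : ℚ) : K)‖ = r := by
        have := rp_ne hc
        simp only [rp, ri, ZMod.val_zero, Nat.cast_zero, Int.cast_zero, Rat.cast_zero,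
          sub_zero] at this
        rw [Rat.cast_mul, norm_mul, hα, rp, ri, this, mul_one]
      have h2 := nr_eq_zero (Z := Z) (p := (‖· - (α * rp c : ℚ)‖ < r)).2 fun i hi =>
        h i (by rw [← h1]; exact norm_eq_of_sub_lt (by rwa [h1]))
      have := Z.dir hr (α * rp c) (by omega)
      rw [h2] at this
      exact (cnt_mono fun a _ ha => ha.2).trans this

theorem annulus {r₁ r₂ : ℝ} (h1 : P5 r₁) (h2 : P5 r₂) (P : K → Prop) (hP : Z.nr P = 4)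
    (hi : ∀ i, P (Z.β i) → ‖Z.β i‖ ≤ r₁ / s ^ 8) (ho : ∀ i, ¬ P (Z.β i) → r₂ * s ^ 8 ≤ ‖Z.β i‖) :
    Z.cnt (fun z => r₁ ≤ ‖z‖ ∧ ‖z‖ ≤ r₂) ≤ 4 := by
  classical
  have p1 := h1.pos
  have p2 := h2.pos
  have := s0
  have u : s < s ^ 8 := by simpa using pow_lt_pow_right₀ s1 (show 1 < 8 by norm_num)
  have q1 : r₁ / s ^ 8 < r₁ := div_lt_self p1 (s1.trans u)
  have q2 : r₂ < r₂ * s ^ 8 := lt_mul_of_one_lt_right p2 (s1.trans u)
  have no : ∀ i, ¬ (r₁ ≤ ‖Z.β i‖ ∧ ‖Z.β i‖ ≤ r₂) := fun i h => by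
    by_cases hp : P (Z.β i)
    · linarith [hi i hp, h.1]
    · linarith [ho i hp, h.2]
  refine (cnt_le _).trans ?_
  rw [nr_eq_zero.2 no, zero_add]
  suffices Z.fr (fun z => r₁ ≤ ‖z‖ ∧ ‖z‖ ≤ r₂) ≤ 2 by omega
  by_contra! h
  obtain ⟨a, ha, b, hb, c, hc, ab, ac, bc⟩ := two_lt_card.1 h
  obtain ⟨x, hx, inj⟩ : ∃ x : Fin 3 → ℚ, (∀ i, x i ∈ Z.T ∧ (r₁ ≤ ‖(x i : K)‖ ∧ ‖(x i : K)‖ ≤ r₂) ∧
      Z.f.eval (x i) ≠ 0) ∧ ∀ i j, i ≠ j → x i ≠ x j :=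
    ⟨![a, b, c], fun i => by
      fin_cases i
      exacts [by simpa using ha, by simpa using hb, by simpa using hc], fun i j => by
      fin_cases i <;> fin_cases j <;> simp [ab, ac, bc, ab.symm, ac.symm, bc.symm]⟩
  obtain ⟨σ, b1, b2, hW⟩ := Z.bdd3 (fun i => (hx i).1) (fun i => (hx i).2.2) h1 h2
  have hF := fac_of Z.β Z.c (fun i => P (Z.β i)) (fun _ => False) (R₁ := r₁ / s ^ 8)
    (by positivity) (R₂ := r₂ * s ^ 8) (by positivity) (d := False) hi (fun i h _ => ho i h)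
    False.elim
  rw [← nr_eq, hP, ← F_eq] at hF
  simp only [and_false, filter_false, prod_empty, map_one, mul_one, Nat.cast_ofNat] at hF
  obtain ⟨i, hi'⟩ : ∃ i, P (Z.β i) := by
    by_contra! h'
    rw [nr_eq_zero.2 h'] at hP
    omega
  obtain ⟨j, hj'⟩ : ∃ i, ¬ P (Z.β i) := by
    by_contra h'
    have := nr_not (Z := Z) P
    rw [nr_eq_zero (p := fun z => ¬ P z).2 fun i hi => h' ⟨i, hi⟩] at this
    omega
  refine regA σ Z.F_deg p1 (fun i => (hx i).2.1.1) (fun i => (hx i).2.1.2) (fun i j hij => ?_) hF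
    (rho_out σ p2 b2 (fun i => (hx i).2.1.2) (Z.F_root j) (le_trans (by gcongr) (ho j hj')))
    (rho_in σ p1 b1 (fun i => (hx i).2.1.1) (Z.F_root i) ((hi i hi').trans (by gcongr))) hW
  refine Z.far (hx i).1 (hx j).1 (inj i j hij) (hx i).2.2 (hx j).2.2 (p5_rat fun e => ?_)
    fun l hl => no l (by rw [norm_eq_of_sub_lt hl]; exact (hx i).2.1)
  have := (hx i).2.1.1
  rw [e, Rat.cast_zero, norm_zero] at this
  linarith

theorem inner1 {i : Fin 8} (h5 : ‖Z.β i‖ < 5) (h : 1 < ‖Z.β i‖ → Z.nr (‖·‖ = ‖Z.β i‖) ≤ 3) :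
    ‖Z.β i‖ * s ^ 8 ≤ 5 := by
  have := s0
  by_cases h1 : 1 < ‖Z.β i‖
  · obtain ⟨-, m, -, e, hm⟩ := Z.int_lem h1 h5 le_rfl
    obtain ⟨d, hd⟩ := Nat.exists_eq_add_of_le (e ▸ h h1 : m ≤ 3)
    refine le_of_pow_le_pow_left₀ three_ne_zero (by norm_num) ?_
    calc _ = ‖Z.β i‖ ^ (m + d) * s ^ 24 := by rw [← hd]; ring
      _ ≤ ‖Z.β i‖ ^ (m + d) * 5 := by gcongr; exact s24
      _ = 5 * ‖Z.β i‖ ^ m * ‖Z.β i‖ ^ d := by ring
      _ ≤ 5 ^ m * 5 ^ d := by gcongr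
      _ = _ := by rw [← pow_add, ← hd]
  · exact (mul_le_of_le_one_left (by positivity) (not_lt.1 h1)).trans s8

theorem flower (hk : Z.nr (‖·‖ ≤ 1) = 4) {x y : ZMod 5} (hxy : x ≠ y)
    (hx : Z.nr (‖· - rp x‖ < 1) = 2) (hy : Z.nr (‖· - rp y‖ < 1) = 2)
    (ho : ∀ i, ‖Z.β i‖ ≤ 1 ∨ s ^ 8 ≤ ‖Z.β i‖) : Z.cnt (‖·‖ ≤ 1) ≤ 10 := by
  classical
  have := s0
  have u : s < s ^ 8 := by simpa using pow_lt_pow_right₀ s1 (show 1 < 8 by norm_num)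
  set fre : K → Prop := fun z => ‖z‖ ≤ 1 ∧ ¬ ‖z - rp x‖ < 1 ∧ ¬ ‖z - rp y‖ < 1 with hfre
  have dj : ∀ z : K, ‖z - rp x‖ < 1 → ¬ ‖z - rp y‖ < 1 := fun z h1 h2 => by
    have := norm_sub_lt' h2 h1
    rw [sub_sub_sub_cancel_left, rp_ne hxy] at this
    exact this.false
  have n0 : Z.nr fre = 0 := by
    have e1 := nr_add (Z := Z) (p := (‖·‖ ≤ 1)) (q := fun z => ‖z - rp x‖ < 1 ∨ ‖z - rp y‖ < 1)
      (r := fre) (fun z => ⟨by tauto, fun h => h.elim (fun h => h.elim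
        (fun h => (norm_sub_iff (rp_le x)).1 h.le) fun h => (norm_sub_iff (rp_le y)).1 h.le)
        And.left⟩) (by tauto)
    have e2 := nr_add (Z := Z) (p := fun z => ‖z - rp x‖ < 1 ∨ ‖z - rp y‖ < 1) (fun _ => Iff.rfl) dj
    omega
  have c1 := Z.dir P5.one (rp x) (by omega)
  have c2 := Z.dir P5.one (rp y) (by omega)
  have c3 := cnt_or (Z := Z) (p := (‖·‖ ≤ 1)) (q := fun z => ‖z - rp x‖ < 1 ∨ ‖z - rp y‖ < 1)
    (r := fre) (by tauto)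
  have c4 := cnt_or (Z := Z) (p := fun z => ‖z - rp x‖ < 1 ∨ ‖z - rp y‖ < 1)
    (q := (‖· - rp x‖ < 1)) (r := (‖· - rp y‖ < 1)) fun _ _ h => h
  have c5 := cnt_le (Z := Z) fre
  rw [hx] at c1
  rw [hy] at c2
  suffices Z.fr fre ≤ 1 by simp only [cc] at c1 c2; omega
  refine card_le_one.2 fun a ha b hb => by_contra fun hab => ?_
  obtain ⟨a1, a2, a3⟩ : a ∈ Z.T ∧ fre a ∧ Z.f.eval a ≠ 0 := by simpa only [mem_filter] using ha
  obtain ⟨b1, b2, b3⟩ : b ∈ Z.T ∧ fre b ∧ Z.f.eval b ≠ 0 := by simpa only [mem_filter] using hb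
  have d1 : ‖(a : K) - b‖ = 1 := le_antisymm (norm_sub_le' a2.1 b2.1)
    (Z.far a1 b1 hab a3 b3 P5.one fun i hi => nr_eq_zero.1 n0 i
      ⟨(norm_sub_iff a2.1).1 hi.le, fun h => a2.2.1 (by simpa using norm_sub_lt' h hi),
        fun h => a2.2.2 (by simpa using norm_sub_lt' h hi)⟩)
  obtain ⟨σ, hb, hW⟩ := Z.bdd2 (a := ![a, b]) (by simp [a1, b1]) (by simp [a3, b3])
  have w0 : 0 < max ‖σ.W 0‖ ‖σ.W 1‖ := by
    by_contra! h
    exact hW (funext fun i => by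
      fin_cases i
      exacts [norm_le_zero_iff.1 (max_le_iff.1 h).1, norm_le_zero_iff.1 (max_le_iff.1 h).2])
  have key : ∀ c : ZMod 5, Z.nr (‖· - rp c‖ < 1) = 2 → ¬ ‖(a : K) - rp c‖ < 1 →
      ¬ ‖(b : K) - rp c‖ < 1 → ‖σ.W 0 * (b - rp c) + σ.W 1 * (a - rp c)‖ < max ‖σ.W 0‖ ‖σ.W 1‖ := by
    intro c hc ha' hb'
    have na : ‖(a : K) - rp c‖ = 1 := le_antisymm (norm_sub_le' a2.1 (rp_le c)) (not_lt.1 ha')
    have nb : ‖(b : K) - rp c‖ = 1 := le_antisymm (norm_sub_le' b2.1 (rp_le c)) (not_lt.1 hb')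
    have x1 : ∀ i, ‖((![a, b] i : ℚ) : K) - rp c‖ = 1 := fun i => by fin_cases i; exacts [na, nb]
    have hin : ∀ i, ‖Z.β i - rp c‖ < 1 → ‖Z.β i - rp c‖ ≤ s⁻¹ ^ 8 := fun i hi => by
      have e : ∀ i, ‖(Z.aff 5 (rp c) (by norm_num)).β i‖ = 5 * ‖Z.β i - rp c‖ := fun i => by
        simp only [aff, norm_div, Rat.cast_ofNat, norm_five]
        ring
      have := (Z.aff 5 (rp c) (by norm_num)).inner1 (i := i) (by rw [e]; linarith) fun _ => by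
        refine le_trans ?_ (show Z.nr (‖· - rp c‖ < 1) ≤ 3 by omega)
        rw [nr_aff]
        refine nr_mono fun l hl => ?_
        have hl : ‖(Z.aff 5 (rp c) (by norm_num)).β l‖ = _ := hl
        rw [e, e] at hl
        linarith
      rw [e, mul_assoc, mul_le_iff_le_one_right (by norm_num)] at this
      rwa [inv_pow, ← one_mul (s ^ 8)⁻¹, le_mul_inv_iff₀ (by positivity)]
    have hF := fac_of (fun i => Z.β i - rp c) Z.c (fun i => ‖Z.β i - rp c‖ < 1)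
      (fun i => ‖Z.β i‖ ≤ 1) (R₁ := s⁻¹ ^ 8) (by positivity) (R₂ := s ^ 8) (by positivity)
      (d := False) hin
      (fun i _ h => by
        rw [norm_sub_big ((rp_le c).trans_lt (not_le.1 h))]
        exact (ho i).resolve_left h) False.elim
    have hp := rts_props (fun i => Z.β i - rp c) {i | ¬ ‖Z.β i - rp c‖ < 1 ∧ ‖Z.β i‖ ≤ 1}
    have k2 : #{i | ¬ ‖Z.β i - rp c‖ < 1 ∧ ‖Z.β i‖ ≤ 1} = 2 := by
      have := nr_add (Z := Z) (p := (‖·‖ ≤ 1)) (q := (‖· - rp c‖ < 1))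
        (r := fun z => ¬ ‖z - rp c‖ < 1 ∧ ‖z‖ ≤ 1) (fun z => ⟨by tauto, fun h => h.elim
          (fun h => (norm_sub_iff (rp_le c)).1 h.le) And.right⟩) (by tauto)
      rw [← nr_eq fun z => ¬ ‖z - rp c‖ < 1 ∧ ‖z‖ ≤ 1]
      omega
    have m1 : ∀ i ∈ ({i | ¬ ‖Z.β i - rp c‖ < 1 ∧ ‖Z.β i‖ ≤ 1} : Finset (Fin 8)),
        ‖Z.β i - rp c‖ = 1 := fun i hi => le_antisymm
      (norm_sub_le' (mem_filter.1 hi).2.2 (rp_le c)) (not_lt.1 (mem_filter.1 hi).2.1)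
    have eF : Z.F.comp (X + C (rp c : K)) = C Z.c * ∏ i, (X - C (Z.β i - rp c)) := by
      rw [← F_shift, F_eq]
      simp [aff]
    rw [← nr_eq (‖· - rp c‖ < 1), hc, ← eF] at hF
    rw [k2] at hp
    have bd : (σ.shift (rp c)).Bdd 1 := by
      refine ((gn_comp one_pos (rp_le c) _).trans hb).trans (le_of_eq ?_)
      rw [gn_den_out one_pos fun i => (x1 i).le, gn_den_out one_pos fun i => by
        fin_cases i; exacts [a2.1, b2.1]]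
      rfl
    have rt : ∀ i, (Z.F.comp (X + C (rp c : K))).IsRoot (Z.β i - rp c) := fun i => by
      simpa using Z.F_root i
    obtain ⟨i, hi⟩ : ∃ i, ‖Z.β i - rp c‖ < 1 := by
      by_contra h'
      rw [nr_eq_zero.2 fun i hi => h' ⟨i, hi⟩] at hc
      omega
    obtain ⟨j, hj⟩ : ∃ i, ¬ ‖Z.β i‖ ≤ 1 := by
      by_contra h'
      have := nr_not (Z := Z) (‖·‖ ≤ 1)
      rw [nr_eq_zero (p := fun z => ¬ ‖z‖ ≤ 1).2 fun i hi => h' ⟨i, hi⟩] at this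
      omega
    have := regF (σ.shift (rp c)) (by rw [← F_shift]; exact F_deg _) x1 hp.1 hp.2.1 (hp.2.2.2 m1)
      (hp.2.2.1 fun i hi => (m1 i hi).le) hF
      (by simpa using rho_out _ one_pos bd (fun i => (x1 i).le) (rt j) (by
        rw [norm_sub_big ((rp_le c).trans_lt (not_le.1 hj))]
        linarith [(ho j).resolve_left hj]))
      (by simpa using rho_in _ one_pos bd (fun i => (x1 i).ge) (rt i) ((hin i hi).trans (by
        simpa using t_le (show 1 ≤ 8 by norm_num)))) w0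
      (fun i => by fin_cases i; exacts [le_max_left _ _, le_max_right _ _])
    have a0 : (a : K) - rp c ≠ 0 := by rw [← norm_pos_iff, na]; exact one_pos
    have b0 : (b : K) - rp c ≠ 0 := by rw [← norm_pos_iff, nb]; exact one_pos
    rw [show σ.W 0 * (b - rp c) + σ.W 1 * (a - rp c) = 
      (σ.W 0 * ((a : K) - rp c)⁻¹ + σ.W 1 * ((b : K) - rp c)⁻¹) *
      ((a - rp c) * (b - rp c)) by field_simp, norm_mul, norm_mul, na, nb, mul_one, mul_one]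
    simpa [Sol.shift] using this
  have k1 := key x hx a2.2.1 b2.2.1
  have k2 := key y hy a2.2.2 b2.2.2
  have k3 := norm_sub_lt' k2 k1
  rw [show σ.W 0 * (b - rp y) + σ.W 1 * (a - rp y) - (σ.W 0 * (b - rp x) + σ.W 1 * (a - rp x)) =
    (σ.W 0 + σ.W 1) * (rp x - rp y) by ring, norm_mul, rp_ne hxy, mul_one] at k3
  have k4 : ‖(σ.W 0 + σ.W 1) * (b - rp x)‖ < max ‖σ.W 0‖ ‖σ.W 1‖ := by
    rw [norm_mul]
    exact (mul_le_of_le_one_right (norm_nonneg _) (norm_sub_le' b2.1 (rp_le x))).trans_lt k3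
  have k5 := norm_sub_lt' k1 k4
  rw [show σ.W 0 * (b - rp x) + σ.W 1 * (a - rp x) - (σ.W 0 + σ.W 1) * (b - rp x) =
    σ.W 1 * (a - b) by ring, norm_mul, d1, mul_one] at k5
  have k6 := norm_sub_lt' k3 k5
  rw [add_sub_cancel_right] at k6
  exact (max_lt k6 k5).false

end Cfg

end Pool.Agent.MP_8d06cc_nt.H27
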