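import Mathlib

/-! Places, divisors and divisor classes of a function field; rational points of `y ^ 2 = f(x)`. -/

namespace Pool.Agent.MP_8d06cc_nt.H27

/-- Places of `F / k`: normalized discrete valuations of `F` that are trivial on `k`. For a
function field in one variable these are the closed points of its smooth projective curve. -/
@[ext] structure Place (k F : Type) [Field k] [Field F] [Algebra k F] where
  /-- the valuation, written multiplicatively: a uniformizer has value `exp (-1)` -/
  val : Valuation F (WithZero (Multiplicative ℤ))
  surj : Function.Surjective val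
  triv : ∀ a : k, a ≠ 0 → val (algebraMap k F a) = 1

namespace Place

variable {k F : Type} [Field k] [Field F] [Algebra k F] (v : Place k F)

theorem const_le (a : k) : v.val (algebraMap k F a) ≤ 1 := by
  by_cases h : a = 0
  · simp [h]
  · exact (v.triv a h).le

/-- The order of vanishing of `h` at the place `v`. -/
noncomputable def ord (h : F) : ℤ := -WithZero.log (v.val h)

/-- The valuation ring of `v`, as a vector space over `k`. -/
def ring : Submodule k F where
  carrier := {h | v.val h ≤ 1}
  zero_mem' := by simp
  add_mem' ha hb := v.val.map_add_le ha hb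
  smul_mem' a h hh := by
    rw [Set.mem_ofPred_eq, Algebra.smul_def, map_mul]
    exact mul_le_one' (v.const_le a) hh

/-- The maximal ideal of the valuation ring of `v`, as a vector space over `k`. -/
def ideal : Submodule k F where
  carrier := {h | v.val h < 1}
  zero_mem' := by simp
  add_mem' ha hb := v.val.map_add_lt ha hb
  smul_mem' a h hh := by
    rw [Set.mem_ofPred_eq, Algebra.smul_def, map_mul, mul_comm]
    exact mul_lt_one_of_lt_of_le hh (v.const_le a)

/-- The degree of `v`: the dimension over `k` of its residue field. -/
noncomputable def deg : ℕ := Module.finrank k (v.ring ⧸ v.ideal.submoduleOf v.ring)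

end Place

section

variable (k F : Type) [Field k] [Field F] [Algebra k F]

/-- Divisors of degree zero. -/
noncomputable def Div0 : AddSubgroup (Place k F →₀ ℤ) where
  carrier := {D | (D.sum fun v n => n * (v.deg : ℤ)) = 0}
  zero_mem' := by simp
  add_mem' {D E} hD hE := by
    rw [Set.mem_ofPred_eq] at *
    rw [Finsupp.sum_add_index' (by simp) (by simp [add_mul]), hD, hE, add_zero]
  neg_mem' {D} hD := by
    rw [Set.mem_ofPred_eq] at *
    rw [Finsupp.sum_neg_index (by simp)]
    simp [hD]

/-- Principal divisors. -/
noncomputable def Prin : AddSubgroup (Place k F →₀ ℤ) where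
  carrier := {D | ∃ h : F, h ≠ 0 ∧ ∀ v, D v = v.ord h}
  zero_mem' := ⟨1, one_ne_zero, fun v => by simp [Place.ord]⟩
  add_mem' := fun ⟨g, g0, hg⟩ ⟨h, h0, hh⟩ => ⟨g * h, mul_ne_zero g0 h0, fun v => by
    rw [Finsupp.add_apply, hg, hh, Place.ord, Place.ord, Place.ord, map_mul,
      WithZero.log_mul (by simpa using g0) (by simpa using h0), neg_add]⟩
  neg_mem' := fun ⟨h, h0, hh⟩ => ⟨h⁻¹, inv_ne_zero h0, fun v => by
    simp [hh, Place.ord, WithZero.log_inv]⟩

/-- The group of divisor classes of degree zero. -/
abbrev Pic0 : Type := Div0 k F ⧸ (Prin k F).addSubgroupOf (Div0 k F)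

end

open Classical in
/-- The number of rational points on the smooth projective model of `y ^ 2 = f(x)`, for
squarefree `f` of degree 7 or 8. -/
noncomputable def numPts (f : Polynomial ℚ) : ℕ∞ :=
  {p : ℚ × ℚ | p.2 ^ 2 = f.eval p.1}.encard +
    if f.natDegree = 7 then 1 else if IsSquare f.leadingCoeff then 2 else 0

end Pool.Agent.MP_8d06cc_nt.H27
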