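import Pool.Agent.MP_8d06cc_nt.H27.Count

/-! The global count. -/

namespace Pool.Agent.MP_8d06cc_nt.H27

open Polynomial Finset

theorem sg_le {k j k' : ℕ} (h : k + j + k' = 8) (h1 : k ≤ 4) (h2 : k' ≤ 4) :
    sg k j + sg k' j ≤ 24 := by
  obtain rfl : j = 8 - k - k' := by omega
  interval_cases k <;> interval_cases k' <;> decide

theorem sg_le' {k j : ℕ} (h : k + j = 4) : sg k j ≤ 10 := by
  obtain rfl : j = 4 - k := by omega
  have : k ≤ 4 := by omega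
  interval_cases k <;> decide

theorem rat_cases (q : ℚ) {r : ℝ} (hr : P5 r) : ‖(q : K)‖ ≤ r ∨ 5 * r ≤ ‖(q : K)‖ :=
  (le_or_gt _ r).imp_right (gap_gt hr)

namespace Cfg

variable (Z : Cfg)

/-- Every residue class has at most three branch points. -/
def Light : Prop := ∀ c : ZMod 5, Z.nr (‖· - rp c‖ < 1) ≤ 3

variable {Z}

theorem side (hl : Z.Light) (hk : Z.nr (‖·‖ ≤ 1) ≤ 4) :
    Z.cnt (‖·‖ ≤ 1) ≤ sg (Z.nr (‖·‖ ≤ 1)) (Z.nr fun z => 1 < ‖z‖ ∧ ‖z‖ < 5) := by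
  have v := Z.vert hk hl fun c => Z.dir P5.one _ (hl c)
  rw [sg]
  split_ifs with h1 h2
  · rcases v with v | v
    · rw [h1.1] at v
      exact v.trans (by decide)
    · exact v.2.1
  · exact Z.disc (.inr (.inr (.inl ⟨rfl, rfl, rfl⟩))) h2.1 (Z.outer h2.2 le_rfl (by norm_num))
  · refine v.elim id fun ⟨e, _, x, y, hxy, hx, hy⟩ => ?_
    rw [e]
    exact Z.flower e hxy hx hy (Z.outer (j := 3) (by omega) le_rfl (by norm_num))

theorem tip (hl : Z.Light) (h4 : Z.nr (‖·‖ < 5) = 4) : Z.cnt (‖·‖ ≤ 1) ≤ 10 ∧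
    ((∀ i, ‖Z.β i‖ < 5 → ‖Z.β i‖ * s ^ 8 ≤ 5) ∨ Z.cnt (‖·‖ ≤ 1) ≤ 2) := by
  have e := Z.nr_split
  refine ⟨(side hl (by omega)).trans (sg_le' (by omega)), or_iff_not_imp_left.2 fun h => ?_⟩
  simp only [not_forall] at h
  obtain ⟨i, h5, hi⟩ := h
  have := mt (Z.inner1 h5) hi
  simp only [Classical.not_imp, not_le] at this
  obtain ⟨h1, h3⟩ := this
  have a := nr_add (Z := Z) (p := (‖·‖ < 5)) (q := fun z => ‖z‖ < 5 ∧ ‖z‖ = ‖Z.β i‖)
    (r := fun z => ‖z‖ < 5 ∧ ‖z‖ ≠ ‖Z.β i‖) (by tauto) (by tauto)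
  have b := nr_mono (Z := Z) (p := (‖·‖ = ‖Z.β i‖)) (q := fun z => ‖z‖ < 5 ∧ ‖z‖ = ‖Z.β i‖)
    fun l hl => ⟨hl ▸ h5, hl⟩
  have c := nr_eq_zero (Z := Z) (p := fun z => ‖z‖ < 5 ∧ ‖z‖ ≠ ‖Z.β i‖).1 (by omega)
  have s16 : s ^ 8 * s ^ 8 ≤ 5 := by norm_num [s]
  have d : ∀ l, s ^ 8 ≤ ‖Z.β l‖ := fun l => by
    by_cases h : ‖Z.β l‖ < 5
    · rw [not_not.1 fun h' => c l ⟨h, h'⟩]
      exact (lt_of_mul_lt_mul_right (s16.trans_lt (not_le.1 hi)) (pow_pos s0 8).le).le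
    · exact s8.trans (not_lt.1 h)
  exact Z.disc (.inl ⟨rfl, rfl, rfl⟩) (nr_eq_zero.2 fun l hl =>
    ((one_lt_pow₀ s1 (by norm_num)).trans_le (d l)).not_ge hl) fun l => .inr (d l)

theorem sum_class : ∑ c : ZMod 5, Z.nr (‖· - rp c‖ < 1) ≤ Z.nr (‖·‖ ≤ 1) := by
  classical
  simp only [nr]
  rw [← card_biUnion fun x _ y _ h => disjoint_filter.2 fun i _ h1 h2 => by
    have := norm_sub_lt' h2 h1
    rw [sub_sub_sub_cancel_left, rp_ne h] at this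
    exact this.false]
  refine card_le_card fun i hi => ?_
  obtain ⟨c, -, hc⟩ := mem_biUnion.1 hi
  simpa using (norm_sub_iff (rp_le c)).1 (mem_filter.1 hc).2.le

theorem caseA (hl : Z.Light) (h0 : 0 ∉ Z.T) (hβ : ∀ i, Z.β i ≠ 0) (hk : 5 ≤ Z.nr (‖·‖ ≤ 1)) :
    Z.cnt (fun _ => True) ≤ 24 := by
  have c1 := (Z.cnt_cover (p := (‖·‖ ≤ 1)) (fun (c : ZMod 5) z => ‖z - rp c‖ < 1)
    fun a _ h => exists_class h).trans
    (sum_le_sum fun c _ => (Z.dir P5.one _ (hl c)).trans (cc_le (hl c)))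
  rw [sum_add_distrib] at c1
  have c2 := Z.sum_class
  have c3 := nr_not (Z := Z) (‖·‖ ≤ 1)
  have e : (Z.inv h0 hβ).nr (‖· - (0 : ℚ)‖ < 1) = Z.nr fun z => ¬ ‖z‖ ≤ 1 := by
    rw [nr_inv]
    exact nr_congr fun i => by simp [inv_lt_one₀ (norm_pos_iff.2 (hβ i))]
  have c4 := (Z.inv h0 hβ).dir P5.one 0 (by omega)
  rw [e, cnt_inv] at c4
  have c5 := cc_le (k := Z.nr fun z => ¬ ‖z‖ ≤ 1) (by omega)
  have c6 := cnt_or (Z := Z) (p := fun _ => True) (q := (‖·‖ ≤ 1))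
    (r := fun z => ‖z⁻¹ - (0 : ℚ)‖ < 1) fun a _ _ => (le_or_gt _ 1).imp_right fun h => by
      simpa using inv_lt_one_of_one_lt₀ h
  have c7 : ∑ _c : ZMod 5, 2 = 10 := by decide
  omega

theorem min_cfg (h4 : 4 ≤ Z.nr (‖·‖ < 1)) : ∃ (n : ℕ) (γ α : ℚ) (hα : α ≠ 0), ‖(γ : K)‖ < 1 ∧
    ‖(α : K)‖ = (1 / 5) ^ (n + 1) ∧ (Z.aff α γ hα).Light ∧ 0 ∉ (Z.aff α γ hα).T ∧
    (∀ i, (Z.aff α γ hα).β i ≠ 0) ∧ 4 ≤ (Z.aff α γ hα).nr (‖·‖ < 5) := by
  classical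
  have ex : ∃ n : ℕ, ¬ ∃ γ : ℚ, ‖(γ : K)‖ < 1 ∧ 4 ≤ Z.nr (‖· - γ‖ < (1 / 5) ^ n) := by
    have : ∀ᶠ n : ℕ in Filter.atTop, ∀ p : Fin 8 × Fin 8, p.1 ≠ p.2 →
        (1 / 5 : ℝ) ^ n < ‖Z.β p.1 - Z.β p.2‖ := Filter.eventually_all.2 fun p => by
      by_cases h : p.1 = p.2
      · simp [h]
      · exact ((tendsto_pow_atTop_nhds_zero_of_lt_one (by norm_num) (by norm_num)).eventually_lt_const
          (norm_pos_iff.2 (sub_ne_zero.2 (Z.inj.ne h)))).mono fun n hn _ => hn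
    obtain ⟨n, hn⟩ := this.exists
    refine ⟨n, fun ⟨γ, _, h⟩ => ?_⟩
    rw [nr_eq] at h
    obtain ⟨i, hi, j, hj, hij⟩ := one_lt_card.1 (lt_of_lt_of_le (by norm_num) h)
    have := norm_sub_lt' (mem_filter.1 hi).2 (mem_filter.1 hj).2
    rw [sub_sub_sub_cancel_right] at this
    exact this.not_gt (hn (i, j) hij)
  obtain ⟨n, hn⟩ : ∃ n, Nat.find ex = n + 1 := Nat.exists_eq_succ_of_ne_zero fun h =>
    (Nat.find_eq_zero ex).1 h ⟨0, by simp, by simpa using h4⟩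
  have m1 := Nat.find_spec ex
  obtain ⟨γ₀, g1, g2⟩ := not_not.1 (Nat.find_min ex (m := n) (by omega))
  rw [hn] at m1
  obtain ⟨γ, k1, k2, k3⟩ := Z.exists_near γ₀ (r := (1 / 5) ^ n) (by positivity)
  obtain ⟨α, hα, a1⟩ := (P5.fifth.pow (n + 1)).rat
  have a0 : (α : K) ≠ 0 := Rat.cast_ne_zero.2 hα
  have g3 : ‖(γ : K)‖ < 1 := by
    simpa using norm_add_lt' (k1.trans_le (pow_le_one₀ (by norm_num) (by norm_num))) g1
  refine ⟨n, γ, α, hα, g3, a1, fun c => ?_, ?_, fun i h => k3 i ?_, g2.trans ?_⟩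
  · by_contra! h
    rw [nr_aff] at h
    refine m1 ⟨γ + α * rp c, ?_, le_trans h (nr_mono fun i hi => ?_)⟩
    · push_cast
      refine norm_add_lt' g3 ?_
      rw [norm_mul, a1]
      exact (mul_le_of_le_one_right (by positivity) (rp_le c)).trans_lt
        (pow_lt_one₀ (by norm_num) (by norm_num) n.succ_ne_zero)
    · rw [show Z.β i - (γ + α * rp c : ℚ) = α * ((Z.β i - γ) / α - rp c) by
        push_cast; field_simp; ring, norm_mul, a1]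
      exact mul_lt_of_lt_one_right (by positivity) hi
  · simp only [aff, mem_image, div_eq_zero_iff, hα, or_false, sub_eq_zero, not_exists, not_and]
    rintro a ha rfl
    exact k2 ha
  · simpa [aff, hα, sub_eq_zero] using h
  · rw [nr_aff]
    refine nr_mono fun i hi => ?_
    have := norm_sub_lt' hi k1
    rw [sub_sub_sub_cancel_right] at this
    rw [norm_div, a1, div_lt_iff₀ (by positivity)]
    exact this.trans_eq (by ring)

theorem main1 (hl : Z.Light) (h0 : 0 ∉ Z.T) (hβ : ∀ i, Z.β i ≠ 0) (h4 : 4 ≤ Z.nr (‖·‖ < 5)) :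
    Z.cnt (fun _ => True) ≤ 24 := by
  by_cases hk : 5 ≤ Z.nr (‖·‖ ≤ 1)
  · exact caseA hl h0 hβ hk
  have c3 := nr_not (Z := Z) (‖·‖ ≤ 1)
  have c4 := nr_not (Z := Z) (‖·‖ < 5)
  have c5 := Z.nr_split
  obtain ⟨n, γ, α, hα, g1, a1, l5, -, -, k5⟩ := min_cfg (Z := Z.inv h0 hβ) (by
    rw [nr_inv, nr_congr (q := fun z => ¬ ‖z‖ ≤ 1) fun i => by
      simp [inv_lt_one₀ (norm_pos_iff.2 (hβ i))]]
    omega)
  set Y := (Z.inv h0 hβ).aff α γ hα with hY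
  have g2 : ‖(γ : K)‖ ≤ 5⁻¹ := by linarith [gap_lt P5.one g1]
  set N : ℝ := 5 ^ n with hN
  have N0 : 0 < N := by positivity
  have pN : P5 N := P5.five.pow n
  set φ : K → K := fun z => (z⁻¹ - γ) / α with hφ
  have e0 : ∀ z, ‖φ z‖ = 5 * N * ‖z⁻¹ - γ‖ := fun z => by
    rw [hφ, norm_div, a1, hN, one_div, inv_pow, div_inv_eq_mul]
    ring
  have e1 : ∀ z, z ≠ 0 → ‖z‖ < 5 → ‖φ z‖ = 5 * N / ‖z‖ := fun z hz h => by
    rw [e0, norm_sub_big (g2.trans_lt (by rw [norm_inv]; gcongr)),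
      norm_inv, div_eq_mul_inv]
  have e1' : ∀ z, z ≠ 0 → ‖z‖ < 5 → N < ‖φ z‖ := fun z hz h => by
    rw [e1 z hz h, lt_div_iff₀ (norm_pos_iff.2 hz)]
    nlinarith
  have e2 : ∀ z, ¬ ‖z‖ < 5 → ‖φ z‖ ≤ N := fun z h => by
    have : ‖z⁻¹ - γ‖ ≤ 5⁻¹ := norm_sub_le' (by rw [norm_inv]; gcongr; exact not_lt.1 h) g2
    rw [e0]
    nlinarith
  have cY : ∀ p, Y.cnt p = Z.cnt fun z => p (φ z) := fun p => by rw [hY, cnt_aff, cnt_inv]
  have nY : ∀ p, Y.nr p = Z.nr fun z => p (φ z) := fun p => rfl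
  have bY : ∀ i, Y.β i = φ (Z.β i) := fun i => rfl
  have T0 : ∀ a : ℚ, a ∈ Z.T → (a : K) ≠ 0 := fun a ha h => h0 (Rat.cast_eq_zero.1 h ▸ ha)
  rcases n with _ | n
  · rw [pow_zero] at hN
    rw [hN, mul_one] at e1
    rw [hN] at e1' e2
    have n1 : Y.nr (‖·‖ ≤ 1) = Z.nr fun z => ¬ ‖z‖ < 5 := (nY _).trans
      (nr_congr fun i => ⟨fun h h' => (e1' _ (hβ i) h').not_ge h, e2 _⟩)
    have n2 : Y.nr (fun z => 1 < ‖z‖ ∧ ‖z‖ < 5) = Z.nr fun z => 1 < ‖z‖ ∧ ‖z‖ < 5 :=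
      (nY _).trans <| nr_congr fun i => by
        have p := norm_pos_iff.2 (hβ i)
        by_cases h : ‖Z.β i‖ < 5
        · have := e1' _ (hβ i) h
          simp only [h, this, true_and, and_true]
          rw [e1 _ (hβ i) h, div_lt_iff₀ p, lt_mul_iff_one_lt_right (by norm_num)]
        · simp [h, (e2 _ h).not_gt]
    have s1 := side hl (by omega)
    have s2 := side l5 (by omega)
    rw [n1, n2, cY] at s2
    have c6 := cnt_or (Z := Z) (p := fun _ => True) (q := (‖·‖ ≤ 1)) (r := fun z => ‖φ z‖ ≤ 1)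
      fun a _ _ => (rat_cases a P5.one).imp_right fun h => e2 _ (by linarith)
    have := sg_le (k := Z.nr (‖·‖ ≤ 1)) (j := Z.nr fun z => 1 < ‖z‖ ∧ ‖z‖ < 5)
      (k' := Z.nr fun z => ¬ ‖z‖ < 5) (by omega) (by omega) (by omega)
    omega
  have N5 : 5 ≤ N := le_self_pow₀ (by norm_num) n.succ_ne_zero
  have a := nr_add (Z := Z) (p := fun z => ¬ ‖z‖ < 5) (q := fun z => ¬ ‖z‖ < 5 ∧ ‖φ z‖ < 5)
    (r := fun z => ¬ ‖z‖ < 5 ∧ ¬ ‖φ z‖ < 5) (by tauto) (by tauto)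
  have b : Y.nr (‖·‖ < 5) = Z.nr fun z => ¬ ‖z‖ < 5 ∧ ‖φ z‖ < 5 := (nY _).trans
    (nr_congr fun i => ⟨fun h => ⟨fun h' => by linarith [e1' _ (hβ i) h'], h⟩, And.right⟩)
  have c := nr_eq_zero (Z := Z) (p := fun z => ¬ ‖z‖ < 5 ∧ ¬ ‖φ z‖ < 5).1 (by omega)
  have out : ∀ i, ¬ ‖Y.β i‖ < 5 → ‖Z.β i‖ < 5 := fun i h => not_not.1 fun h' => c i ⟨h', h⟩
  have := s0
  have big : ∀ i, ¬ ‖Y.β i‖ < 5 → N < ‖Y.β i‖ := fun i h => e1' _ (hβ i) (out i h)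
  obtain ⟨r₁, p1, q1, w1⟩ : ∃ r, P5 r ∧ (∀ i, ‖Y.β i‖ < 5 → ‖Y.β i‖ ≤ r / s ^ 8) ∧
      Y.cnt (‖·‖ < r) ≤ 10 := by
    obtain ⟨t1, t2 | t2⟩ := tip l5 (by omega)
    · exact ⟨5, P5.five, fun i hi => (le_div_iff₀ (by positivity)).2 (t2 i hi),
        (cnt_mono fun a _ h => (rat_cases a P5.one).resolve_right (by linarith)).trans t1⟩
    · refine ⟨5 * 5, P5.five.mul P5.five, fun i hi => (le_div_iff₀ (by positivity)).2
        (mul_le_mul hi.le s8 (by positivity) (by norm_num)), ?_⟩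
      have u1 := Y.circle P5.five fun i h => by linarith [big i (by linarith)]
      have u2 := cnt_or (Z := Y) (p := (‖·‖ < 5 * 5)) (q := (‖·‖ ≤ 1)) (r := (‖·‖ = 5))
        fun a _ h => (rat_cases a P5.one).imp_right fun h' => le_antisymm
          ((rat_cases a P5.five).resolve_right h.not_ge) (by linarith)
      omega
  have u0 : Y.cnt (N < ‖·‖) ≤ Z.cnt (‖·‖ ≤ 1) := by
    rw [cY]
    exact cnt_mono fun a _ h => (rat_cases a P5.one).resolve_right fun h' =>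
      (e2 _ (by linarith)).not_gt h
  obtain ⟨r₂, p2, q2, w2⟩ : ∃ r, P5 r ∧ (∀ i, ¬ ‖Y.β i‖ < 5 → r * s ^ 8 ≤ ‖Y.β i‖) ∧
      Y.cnt (r < ‖·‖) ≤ 10 := by
    obtain ⟨t1, t2 | t2⟩ := tip hl (by omega)
    · refine ⟨N, pN, fun i hi => ?_, u0.trans t1⟩
      rw [bY, e1 _ (hβ i) (out i hi), le_div_iff₀ (norm_pos_iff.2 (hβ i))]
      nlinarith [t2 i (out i hi)]
    · refine ⟨N * (1 / 5), pN.mul P5.fifth, fun i hi => by nlinarith [big i hi, s8], ?_⟩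
      have u1 := Y.circle pN fun i h => by linarith [big i (by linarith)]
      have u2 := cnt_or (Z := Y) (p := (N * (1 / 5) < ‖·‖)) (q := (N < ‖·‖)) (r := (‖·‖ = N))
        fun a _ h => (lt_or_eq_of_le (by linarith [gap_gt (pN.mul P5.fifth) h])).imp_right Eq.symm
      omega
  have u3 := Y.annulus p1 p2 (‖·‖ < 5) (by omega) q1 q2
  have u4 := cnt_or (Z := Y) (p := fun _ => True) (q := (‖·‖ < r₁)) (r := (r₁ ≤ ‖·‖))
    fun a _ _ => lt_or_ge _ _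
  have u5 := cnt_or (Z := Y) (p := (r₁ ≤ ‖·‖)) (q := fun z => r₁ ≤ ‖z‖ ∧ ‖z‖ ≤ r₂) (r := (r₂ < ‖·‖))
    fun a _ h => (le_or_gt _ _).imp_left fun h' => ⟨h, h'⟩
  rw [cY] at u4
  omega

theorem global (Z : Cfg) : Z.cnt (fun _ => True) ≤ 24 := by
  obtain ⟨n, hn⟩ := (Filter.eventually_all.2 fun i => (tendsto_pow_atTop_atTop_of_one_lt
    (by norm_num : (1 : ℝ) < 5)).eventually_gt_atTop ‖Z.β i‖).exists
  obtain ⟨α, h0, hα⟩ := (P5.five.pow n).rat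
  obtain ⟨m, γ, α', hα', -, -, h1, h2, h3, h4⟩ := min_cfg (Z := Z.aff α 0 h0) (by
    have := nr_not (Z := Z.aff α 0 h0) (‖·‖ < 1)
    rw [nr_eq_zero (p := fun z => ¬ ‖z‖ < 1).2 fun i => not_not.2 (by
      simp only [aff, Rat.cast_zero, sub_zero, norm_div, hα]
      exact (div_lt_one (by positivity)).2 (hn i))] at this
    omega)
  have := main1 h1 h2 h3 h4
  rwa [cnt_aff, cnt_aff] at this

end Cfg

/-- The bound for a squarefree octic. -/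
theorem core {f : ℚ[X]} (hf : f.natDegree = 8) (hs : Squarefree f) (T : Finset ℚ)
    (hT : ∀ a ∈ T, Good f a) : ∑ a ∈ T, wt f a ≤ 24 := by
  classical
  have h0 : f ≠ 0 := hs.ne_zero
  have sp : (f.map (Rat.castHom K)).Splits := IsAlgClosed.splits _
  have nd : (f.map (Rat.castHom K)).roots.Nodup :=
    nodup_roots (PerfectField.separable_iff_squarefree.2 hs).map
  have cd : (f.map (Rat.castHom K)).roots.toFinset.card = 8 := by
    rw [Multiset.toFinset_card_of_nodup nd, ← sp.natDegree_eq_card_roots, natDegree_map, hf]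
  let e := (Finset.equivFinOfCardEq cd).symm
  have := Cfg.global
    { f := f, c := (f.map (Rat.castHom K)).leadingCoeff, β := fun i => e i, T := T
      c0 := leadingCoeff_ne_zero.2 (Polynomial.map_ne_zero h0)
      inj := Subtype.val_injective.comp e.injective
      fac := by
        rw [e.prod_comp fun z => X - C (z : K), prod_coe_sort _ fun z => X - C z, prod_eq_multiset_prod,
          Multiset.toFinset_val, nd.dedup]
        exact sp.eq_prod_roots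
      good := hT }
  simpa [Cfg.cnt] using this

end Pool.Agent.MP_8d06cc_nt.H27
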