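import Pool.Agent.MP_8d06cc_nt.H27.Bdry

/-! Laurent polynomials, their expansions at zero and infinity, and the residue formula. -/

namespace Pool.Agent.MP_8d06cc_nt.H27

open LaurentPolynomial

/-- Laurent polynomials. -/
abbrev LP : Type := LaurentPolynomial K

/-- The variable of `L` as a unit. -/
noncomputable def tU : Lˣ where
  val := HahnSeries.single 1 1
  inv := HahnSeries.single (-1) 1
  val_inv := by simp [HahnSeries.single_mul_single]
  inv_val := by simp [HahnSeries.single_mul_single]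

theorem tU_zpow (n : ℤ) : ((tU ^ n : Lˣ) : L) = HahnSeries.single n 1 := by
  induction n using Int.induction_on with
  | zero => simp
  | succ n ih => rw [zpow_add_one, Units.val_mul, ih]; simp [tU, HahnSeries.single_mul_single]
  | pred n ih =>
    rw [zpow_sub_one, Units.val_mul, ih]
    change _ * HahnSeries.single (-1) 1 = _
    simp [HahnSeries.single_mul_single, sub_eq_add_neg]

/-- Expansion with `x = t ^ σ`. -/
noncomputable def ev (σ : ℤ) : LP →+* L := eval₂ (algebraMap K L) (tU ^ σ)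

theorem ev_C (σ : ℤ) (a : K) : ev σ (C a) = algebraMap K L a := eval₂_C _ _ _

theorem ev_T (σ n : ℤ) : ev σ (T n) = HahnSeries.single (σ * n) 1 := by
  rw [ev, eval₂_T, ← zpow_mul, tU_zpow]

theorem ev_coeff {σ : ℤ} (hσ : σ * σ = 1) (ψ : LP) (n : ℤ) :
    (ev σ ψ).coeff n = ψ.coeff (σ * n) := by
  induction ψ using LaurentPolynomial.induction_on' with
  | add p q hp hq => simp [hp, hq]
  | C_mul_T m a =>
    rw [map_mul, ev_C, ev_T, coeff_alg_mul, ← single_eq_C_mul_T, HahnSeries.coeff_single,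
      AddMonoidAlgebra.coeff_single, Finsupp.single_apply]
    have : n = σ * m ↔ m = σ * n := by
      constructor <;> rintro rfl <;> rw [← mul_assoc, hσ, one_mul]
    simp [this]

theorem ev_inj {p q : LP} (h : ev 1 p = ev 1 q) : p = q := by
  ext n
  have := congrArg (fun z => HahnSeries.coeff z n) h
  simpa [ev_coeff] using this

theorem ev_toLaurent (σ : ℤ) (P : Polynomial K) :
    ev σ (Polynomial.toLaurent P) = Polynomial.aeval (ev σ (T 1)) P := by
  rw [ev, eval₂_toLaurent, eval₂_T, zpow_one, Polynomial.aeval_def]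

/-- The Euler operator on Laurent polynomials as a linear map. -/
noncomputable def thQ : LP →ₗ[K] LP where
  toFun ψ := .ofCoeff (Finsupp.onFinset ψ.coeff.support (fun n => (n : K) * ψ.coeff n)
    fun n hn => by
      simp only [ne_eq, mul_eq_zero, not_or] at hn
      simpa using hn.2)
  map_add' u v := by ext m; simp [mul_add]
  map_smul' c u := by ext m; simp [mul_left_comm]

theorem thQ_coeff (u : LP) (m : ℤ) : (thQ u).coeff m = (m : K) * u.coeff m := rfl

theorem ev_thQ (u : LP) : ev 1 (thQ u) = th (ev 1 u) := by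
  ext m
  simp [ev_coeff, thQ_coeff, th_coeff]

/-- The Euler derivation `x d/dx`. -/
noncomputable def thP : Derivation K LP LP := Derivation.mk' thQ fun u v => ev_inj (by
  simp [ev_thQ])

theorem thP_coeff (u : LP) (m : ℤ) : (thP u).coeff m = (m : K) * u.coeff m := rfl

theorem thP_T (n : ℤ) : thP (T n) = C (n : K) * T n := by
  ext m
  rw [thP_coeff, ← single_eq_C_mul_T, AddMonoidAlgebra.coeff_single, Finsupp.single_apply, T_apply]
  split_ifs with h <;> simp [h]

theorem thP_C (a : K) : thP (C a) = 0 := by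
  rw [C_eq_algebraMap, Derivation.map_algebraMap]

/-- The derivation `x d/dx` for `x = t ^ σ`. -/
noncomputable def ths (σ : ℤ) : Derivation K L L := (σ : K) • th

theorem ths_coeff (σ : ℤ) (u : L) (m : ℤ) : (ths σ u).coeff m = σ * (m * u.coeff m) := rfl

theorem ev_thP {σ : ℤ} (hσ : σ * σ = 1) (u : LP) : ths σ (ev σ u) = ev σ (thP u) := by
  ext m
  simp [ev_coeff hσ, thP_coeff, ths_coeff, mul_assoc]

theorem ct_th (σ : ℤ) (u : L) : (ths σ u).coeff 0 = 0 := by simp [ths_coeff]

theorem coeff_C_mul (a : K) (u : LP) (n : ℤ) : (C a * u).coeff n = a * u.coeff n := by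
  rw [← smul_eq_C_mul]; simp

theorem coeff_T_mul (m : ℤ) (u : LP) (n : ℤ) : (T m * u).coeff n = u.coeff (n - m) := by
  have := ev_coeff (σ := 1) rfl (T m * u) n
  rw [map_mul, ev_T, HahnSeries.coeff_single_mul, ev_coeff rfl] at this
  simpa using this.symm

theorem coeff_toL (P : Polynomial K) (n : ℕ) : (Polynomial.toLaurent P).coeff n = P.coeff n := by
  induction P using Polynomial.induction_on' with
  | add p q hp hq => simp only [map_add, AddMonoidAlgebra.coeff_add, Finsupp.add_apply, hp, hq,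
      Polynomial.coeff_add]
  | monomial m a =>
    rw [Polynomial.toLaurent_C_mul_T, coeff_C_mul, T_apply, Polynomial.coeff_monomial]
    simp

theorem coeff_toL_neg (P : Polynomial K) {n : ℤ} (hn : n < 0) :
    (Polynomial.toLaurent P).coeff n = 0 := by
  induction P using Polynomial.induction_on' with
  | add p q hp hq => simp only [map_add, AddMonoidAlgebra.coeff_add, Finsupp.add_apply, hp, hq,
      add_zero]
  | monomial m a =>
    rw [Polynomial.toLaurent_C_mul_T, coeff_C_mul, T_apply, if_neg (by omega), mul_zero]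

/-- Bound on the circle of radius `r`. -/
def LB (r : ℝ) (ψ : LP) (c : ℝ) : Prop := ∀ n : ℤ, ‖ψ.coeff n‖ * r ^ n ≤ c

/-- Order at zero. -/
def LO (ψ : LP) (o : ℤ) : Prop := ∀ n < o, ψ.coeff n = 0

/-- Degree at most `d`. -/
def LD (ψ : LP) (d : ℤ) : Prop := ∀ n > d, ψ.coeff n = 0

section
variable {r c d : ℝ} {u v : LP}

theorem lb_iff : LB r u c ↔ Bd r (ev 1 u) c := by simp [LB, Bd, ev_coeff]

theorem LB.out (h : LB r u c) : Bd r⁻¹ (ev (-1) u) c := fun m => by
  have := h (-m)
  rwa [ev_coeff (by norm_num), neg_one_mul, inv_zpow']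

theorem lo_iff {o : ℤ} : LO u o ↔ Ord (ev 1 u) o := by simp [LO, Ord, ev_coeff]

theorem ld_iff {o : ℤ} : LD u o ↔ Ord (ev (-1) u) (-o) := by
  simp only [LD, Ord, ev_coeff (σ := -1) (by norm_num), neg_one_mul]
  exact ⟨fun h m hm => h _ (by omega), fun h m hm => by simpa using h (-m) (by omega)⟩

theorem LB.nonneg (hr : 0 < r) (h : LB r u c) : 0 ≤ c := (lb_iff.1 h).nonneg hr

theorem LB.mono (h : LB r u c) (hc : c ≤ d) : LB r u d := fun m => (h m).trans hc

theorem LB.add (hr : 0 < r) (h : LB r u c) (h' : LB r v c) : LB r (u + v) c := by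
  rw [lb_iff] at *; rw [map_add]; exact h.add hr h'

theorem LB.sub (hr : 0 < r) (h : LB r u c) (h' : LB r v c) : LB r (u - v) c := by
  rw [lb_iff] at *; rw [map_sub]; exact h.sub hr h'

theorem LB.mul (hr : 0 < r) (h : LB r u c) (h' : LB r v d) : LB r (u * v) (c * d) := by
  rw [lb_iff] at *; rw [map_mul]; exact h.mul hr h'

theorem LB.th (hr : 0 < r) (h : LB r u c) : LB r (thP u) c := by
  rw [lb_iff] at *
  have := h.th hr
  rwa [← ev_thQ] at this

theorem lb_C (hr : 0 < r) (a : K) : LB r (C a) ‖a‖ := by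
  rw [lb_iff, ev_C]; exact bd_alg hr a

theorem lb_one (hr : 0 < r) : LB r 1 1 := by rw [lb_iff, map_one]; exact bd_one hr

theorem lb_two (hr : 0 < r) : LB r 2 1 := by
  rw [lb_iff, map_ofNat]; simpa using bd_nat hr 2

theorem lb_T (hr : 0 < r) (n : ℤ) : LB r (T n) (r ^ n) := by
  rw [lb_iff, ev_T]; simpa using bd_single hr n 1

theorem LB.invert (h : LB r⁻¹ u c) : LB r (invert u) c := fun m => by
  have := h (-m)
  rwa [invert_apply, ← zpow_neg_one r, ← zpow_mul, neg_mul_neg, one_mul] at *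

theorem LB.of_ord {s : ℝ} {o : ℤ} (hs : 0 < s) (hl : s ≤ r) (h : LB r u c) (ho : LO u o) :
    LB s u (c * (s / r) ^ o) := by
  rw [lb_iff] at *
  exact h.of_ord hs hl (lo_iff.1 ho)

theorem lb_exists (hr : 0 < r) (u : LP) : ∃ c, LB r u c := by
  induction u using LaurentPolynomial.induction_on' with
  | add p q hp hq =>
    obtain ⟨c, hc⟩ := hp
    obtain ⟨d, hd⟩ := hq
    exact ⟨max c d, (hc.mono (le_max_left _ _)).add hr (hd.mono (le_max_right _ _))⟩
  | C_mul_T m a => exact ⟨_, (lb_C hr a).mul hr (lb_T hr m)⟩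

theorem LO.mul {o p : ℤ} (h : LO u o) (h' : LO v p) : LO (u * v) (o + p) := by
  rw [lo_iff] at *; rw [map_mul]; exact h.mul h'

theorem lo_toL (P : Polynomial K) : LO (Polynomial.toLaurent P) 0 :=
  fun _ hn => coeff_toL_neg P hn

theorem lo_T (n : ℤ) : LO (T n) n := fun m hm => by rw [T_apply, if_neg hm.ne']

theorem ld_toL {P : Polynomial K} {n : ℕ} (h : P.natDegree ≤ n) :
    LD (Polynomial.toLaurent P) n := fun m hm => by
  obtain ⟨k, rfl⟩ := Int.eq_ofNat_of_zero_le (a := m) (by omega)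
  rw [coeff_toL, Polynomial.coeff_eq_zero_of_natDegree_lt (by omega)]

end

/-- Value at a point. -/
noncomputable def pv (x : K) (ψ : LP) : K := ψ.coeff.sum fun n c => c * x ^ n

theorem pv_add (x : K) (u v : LP) : pv x (u + v) = pv x u + pv x v := by
  simp only [pv, AddMonoidAlgebra.coeff_add]
  exact Finsupp.sum_add_index' (by simp) (by simp [add_mul])

theorem pv_C_mul_T (x a : K) (n : ℤ) : pv x (C a * T n) = a * x ^ n := by
  rw [pv, ← single_eq_C_mul_T, AddMonoidAlgebra.coeff_single, Finsupp.sum_single_index (by simp)]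

theorem pv_eq {x : K} (hx : x ≠ 0) (u : LP) :
    pv x u = eval₂ (RingHom.id K) (Units.mk0 x hx) u := by
  induction u using LaurentPolynomial.induction_on' with
  | add p q hp hq => rw [pv_add, map_add, hp, hq]
  | C_mul_T m a => rw [pv_C_mul_T, eval₂_C_mul_T]; simp

theorem pv_mul {x : K} (hx : x ≠ 0) (u v : LP) : pv x (u * v) = pv x u * pv x v := by
  simp [pv_eq hx]

theorem pv_sub {x : K} (hx : x ≠ 0) (u v : LP) : pv x (u - v) = pv x u - pv x v := by
  simp [pv_eq hx]

theorem pv_T (x : K) (n : ℤ) : pv x (T n) = x ^ n := by simpa using pv_C_mul_T x 1 n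

theorem pv_C (x a : K) : pv x (C a) = a := by simpa using pv_C_mul_T x a 0

theorem pv_lt {x : K} {u : LP} {c : ℝ} (hc : 0 < c) (h : ∀ n, ‖u.coeff n‖ * ‖x‖ ^ n < c) :
    ‖pv x u‖ < c :=
  norm_sum_lt _ _ hc fun n _ => by rw [norm_mul, norm_zpow]; exact h n

theorem pv_le {x : K} {u : LP} {c : ℝ} (h : LB ‖x‖ u c) : ‖pv x u‖ ≤ c :=
  IsUltrametricDist.norm_sum_le_of_forall_le_of_nonneg (le_trans (by positivity) (h 0))
    fun n _ => by rw [norm_mul, norm_zpow]; exact h n

/-- The geometric series. -/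
noncomputable def geo (c : K) : L :=
  HahnSeries.ofSuppBddBelow (fun n : ℤ => if 0 ≤ n then c ^ n else 0)
    ⟨0, fun n hn => by
      by_contra h
      exact hn (if_neg h)⟩

theorem geo_coeff (c : K) (n : ℤ) : (geo c).coeff n = if 0 ≤ n then c ^ n else 0 := rfl

theorem geo_mul (c : K) : (1 - HahnSeries.single 1 c) * geo c = 1 := by
  ext n
  rw [sub_mul, one_mul, HahnSeries.coeff_sub, HahnSeries.coeff_single_mul, geo_coeff, geo_coeff,
    HahnSeries.coeff_one]
  rcases lt_trichotomy n 0 with h | rfl | h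
  · rw [if_neg (by omega), if_neg (by omega), if_neg (by omega)]; simp
  · simp
  · obtain ⟨k, rfl⟩ : ∃ k : ℕ, n = k + 1 := ⟨(n - 1).toNat, by omega⟩
    rw [if_pos (by omega), if_pos (by omega), if_neg (by omega), add_sub_cancel_right]
    norm_cast
    ring

theorem geo_ord (c : K) : Ord (geo c) 0 := fun m hm => by rw [geo_coeff, if_neg (by omega)]

theorem geo_bd {τ : ℝ} (hτ : 0 < τ) {c : K} (h : ‖c‖ * τ ≤ 1) : Bd τ (geo c) 1 := fun m => by
  rw [geo_coeff]
  split_ifs with hm
  · obtain ⟨k, rfl⟩ := Int.eq_ofNat_of_zero_le hm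
    rw [norm_zpow, ← mul_zpow, zpow_natCast]
    exact pow_le_one₀ (by positivity) h
  · simp

theorem out_mul (c : K) :
    (ev (-1) (T 1) - algebraMap K L c) * (HahnSeries.single 1 1 * geo c) = 1 := by
  rw [← geo_mul c, ← mul_assoc, ev_T, algL_eq, sub_mul]
  simp [HahnSeries.single_mul_single]

theorem in_mul {c : K} (hc : c ≠ 0) :
    (ev 1 (T 1) - algebraMap K L c) * (algebraMap K L (-c⁻¹) * geo c⁻¹) = 1 := by
  rw [← geo_mul c⁻¹, ← mul_assoc, ev_T, algL_eq, algL_eq, sub_mul]
  simp only [HahnSeries.single_mul_single, mul_one, add_zero, one_mul, mul_neg,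
    mul_inv_cancel₀ hc, HahnSeries.single_neg, HahnSeries.single_zero_one]
  ring

theorem out_inv (c : K) :
    (ev (-1) (T 1) - algebraMap K L c)⁻¹ = HahnSeries.single 1 1 * geo c :=
  inv_eq_of_mul_eq_one_right (out_mul c)

theorem in_inv {c : K} (hc : c ≠ 0) :
    (ev 1 (T 1) - algebraMap K L c)⁻¹ = algebraMap K L (-c⁻¹) * geo c⁻¹ :=
  inv_eq_of_mul_eq_one_right (in_mul hc)

theorem residue {c : K} (hc : c ≠ 0) (ψ : LP) :
    (ev (-1) ψ * (ev (-1) (T 1) * (ev (-1) (T 1) - algebraMap K L c)⁻¹)).coeff 0 -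
      (ev 1 ψ * (ev 1 (T 1) * (ev 1 (T 1) - algebraMap K L c)⁻¹)).coeff 0 = pv c ψ := by
  rw [out_inv, in_inv hc]
  induction ψ using LaurentPolynomial.induction_on' with
  | add p q hp hq =>
    simp only [map_add, add_mul, HahnSeries.coeff_add, pv_add, ← hp, ← hq]
    ring
  | C_mul_T m a =>
    simp only [map_mul, ev_C, ev_T, mul_assoc, coeff_alg_mul, HahnSeries.coeff_single_mul,
      geo_coeff, pv_C_mul_T]
    by_cases hm : 0 ≤ m
    · rw [if_pos (by omega), if_neg (by omega)]
      simp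
    · rw [if_neg (by omega), if_pos (by omega)]
      simp only [one_mul, mul_zero, zero_sub, inv_zpow', neg_sub, sub_neg_eq_add]
      rw [zpow_add₀ hc]
      field_simp

end Pool.Agent.MP_8d06cc_nt.H27
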