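import Pool.Agent.MP_8d06cc_nt.H27.Lp

/-! Gauss norms, solutions of Pell equations and elimination. -/

namespace Pool.Agent.MP_8d06cc_nt.H27

open Polynomial

/-- Gauss norm. -/
noncomputable def gn (r : ℝ) (P : K[X]) : ℝ := P.gaussNorm (NormedField.toAbsoluteValue K) r

theorem hna : IsNonarchimedean (NormedField.toAbsoluteValue K) :=
  IsUltrametricDist.norm_add_le_max

section
variable {r c : ℝ} {P Q : K[X]}

theorem gn_mul (hr : 0 < r) (P Q : K[X]) : gn r (P * Q) = gn r P * gn r Q :=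
  gaussNorm_mul hna hr P Q

theorem gn_nonneg (hr : 0 < r) (P : K[X]) : 0 ≤ gn r P := gaussNorm_nonneg _ _ hr.le

theorem le_gn (hr : 0 < r) (P : K[X]) (i : ℕ) : ‖P.coeff i‖ * r ^ i ≤ gn r P :=
  le_gaussNorm (NormedField.toAbsoluteValue K) P hr.le i

theorem gn_eq (r : ℝ) (P : K[X]) : ∃ i, gn r P = ‖P.coeff i‖ * r ^ i := exists_eq_gaussNorm _ _ _

theorem gn_le (h : ∀ i, ‖P.coeff i‖ * r ^ i ≤ c) : gn r P ≤ c := by
  obtain ⟨i, hi⟩ := gn_eq r P
  exact hi ▸ h i

theorem gn_add (hr : 0 < r) (P Q : K[X]) : gn r (P + Q) ≤ max (gn r P) (gn r Q) :=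
  isNonarchimedean_gaussNorm _ hna hr.le P Q

theorem gn_C (r : ℝ) (a : K) : gn r (C a) = ‖a‖ := gaussNorm_C _ _ a

theorem gn_one (r : ℝ) : gn r 1 = 1 := by simpa using gn_C r 1

theorem gn_zero (r : ℝ) : gn r 0 = 0 := by simpa using gn_C r 0

theorem gn_neg (hr : 0 < r) (P : K[X]) : gn r (-P) = gn r P := by
  have := gn_mul hr (C (-1)) P
  rw [gn_C] at this
  simpa using this

theorem gn_sub (hr : 0 < r) (P Q : K[X]) : gn r (P - Q) ≤ max (gn r P) (gn r Q) := by
  rw [sub_eq_add_neg, ← gn_neg hr Q]; exact gn_add hr _ _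

theorem gn_pow (hr : 0 < r) (P : K[X]) (n : ℕ) : gn r (P ^ n) = gn r P ^ n := by
  induction n with
  | zero => simp [gn_one]
  | succ n ih => rw [pow_succ, pow_succ, gn_mul hr, ih]

theorem gn_prod (hr : 0 < r) {ι : Type} (s : Finset ι) (f : ι → K[X]) :
    gn r (∏ i ∈ s, f i) = ∏ i ∈ s, gn r (f i) := by
  classical
  induction s using Finset.induction_on with
  | empty => simp [gn_one]
  | insert a s ha ih => rw [Finset.prod_insert ha, Finset.prod_insert ha, gn_mul hr, ih]

theorem gn_X_sub (hr : 0 < r) (a : K) : gn r (X - C a) = max r ‖a‖ := by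
  apply le_antisymm
  · refine (gn_sub hr _ _).trans (le_of_eq ?_)
    rw [gn_C, gn, ← monomial_one_one_eq_X, gaussNorm_monomial]
    simp
  · have h1 := le_gn hr (X - C a) 1
    have h0 := le_gn hr (X - C a) 0
    exact max_le (by simpa using h1) (by simpa using h0)

theorem gn_two_mul (hr : 0 < r) (P : K[X]) : gn r (2 * P) = gn r P := by
  have := gn_mul hr (C 2) P
  rwa [gn_C, norm_two, one_mul] at this

theorem gn_comp (hr : 0 < r) {b : K} (hb : ‖b‖ ≤ r) (P : K[X]) :
    gn r (P.comp (X + C b)) ≤ gn r P := by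
  rw [comp, eval₂_eq_sum, Polynomial.sum]
  refine Finset.sum_induction _ (fun z => gn r z ≤ gn r P)
    (fun u v hu hv => (gn_add hr u v).trans (max_le hu hv)) (by rw [gn_zero]; exact gn_nonneg hr P)
    fun i _ => ?_
  have : X + C b = X - C (-b) := by simp
  rw [gn_mul hr, gn_C, gn_pow hr, this, gn_X_sub hr, norm_neg, max_eq_left hb]
  exact le_gn hr P i

theorem gn_mono {s : ℝ} (hs : 0 < s) (h : s ≤ r) (P : K[X]) : gn s P ≤ gn r P :=
  gn_le fun i => le_trans (by gcongr) (le_gn (hs.trans_le h) P i)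

theorem gn_up {s : ℝ} (hr : 0 < r) (h : r ≤ s) {n : ℕ} (hn : P.natDegree ≤ n) :
    gn s P ≤ gn r P * (s / r) ^ n := gn_le fun i => by
  have hs := hr.trans_le h
  have := gn_nonneg hr P
  by_cases hi : i ≤ n
  · have e : ‖P.coeff i‖ * s ^ i = ‖P.coeff i‖ * r ^ i * (s / r) ^ i := by
      rw [div_pow]; field_simp
    rw [e]
    exact mul_le_mul (le_gn hr P i) (pow_le_pow_right₀ ((one_le_div hr).2 h) hi) (by positivity)
      this
  · rw [coeff_eq_zero_of_natDegree_lt (by omega), norm_zero, zero_mul]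
    positivity

theorem lb_toL (hr : 0 < r) (P : K[X]) : LB r (toLaurent P) (gn r P) := fun n => by
  by_cases hn : n < 0
  · rw [coeff_toL_neg P hn, norm_zero, zero_mul]; exact gn_nonneg hr P
  · obtain ⟨k, rfl⟩ := Int.eq_ofNat_of_zero_le (not_lt.1 hn)
    rw [coeff_toL, zpow_natCast]
    exact le_gn hr P k

theorem eval_le {a : K} (hr : 0 < r) (ha : ‖a‖ ≤ r) (P : K[X]) : ‖P.eval a‖ ≤ gn r P := by
  rw [eval_eq_sum, Polynomial.sum]
  refine IsUltrametricDist.norm_sum_le_of_forall_le_of_nonneg (gn_nonneg hr P) fun i _ => ?_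
  rw [norm_mul, norm_pow]
  exact le_trans (by gcongr) (le_gn hr P i)

end

/-- The common denominator. -/
noncomputable def den {ι : Type} [Fintype ι] (x : ι → K) (e : ι → ℕ) : K[X] :=
  ∏ i, (X - C (x i)) ^ e i

/-- A function `(A + B y) / D` of norm one with the residues of its logarithmic derivative. -/
structure Sol (f : K[X]) {ι : Type} [Fintype ι] (x : ι → K) where
  A : K[X]
  B : K[X]
  e : ι → ℕ
  W : ι → K
  q : K[X]
  pell : A ^ 2 - B ^ 2 * f = den x e ^ 2
  deg : A.natDegree ≤ ∑ i, e i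
  tri : ∀ (ϑ : Derivation K L L) (ξ : L), (∀ i, ξ - algebraMap K L (x i) ≠ 0) →
    Tri ϑ (aeval ξ f) (aeval ξ A / aeval ξ (den x e)) (aeval ξ B / aeval ξ (den x e))
      (ϑ ξ * (∑ i, algebraMap K L (W i) * (ξ - algebraMap K L (x i))⁻¹ + aeval ξ q))

variable {f : K[X]} {ι : Type} [Fintype ι] {x : ι → K}

theorem den_add (e e' : ι → ℕ) : den x (e + e') = den x e * den x e' := by
  simp [den, pow_add, Finset.prod_mul_distrib]

theorem den_deg (e : ι → ℕ) : (den x e).natDegree = ∑ i, e i := by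
  rw [den, natDegree_prod_of_monic _ _ fun i _ => (monic_X_sub_C _).pow _]
  simp

theorem gn_den {r : ℝ} (hr : 0 < r) (e : ι → ℕ) : gn r (den x e) = ∏ i, max r ‖x i‖ ^ e i := by
  simp [den, gn_prod hr, gn_pow hr, gn_X_sub hr]

theorem gn_den_pos {r : ℝ} (hr : 0 < r) (e : ι → ℕ) : 0 < gn r (den x e) := by
  rw [gn_den hr]
  exact Finset.prod_pos fun i _ => pow_pos (lt_max_of_lt_left hr) _

theorem Sol.degP (s : Sol f x) : (s.B ^ 2 * f).natDegree ≤ 2 * ∑ i, s.e i := by
  have : s.B ^ 2 * f = s.A ^ 2 - den x s.e ^ 2 := by linear_combination -s.pell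
  rw [this]
  refine (natDegree_sub_le _ _).trans (max_le ?_ ?_)
  · rw [natDegree_pow]; have := s.deg; omega
  · rw [natDegree_pow, den_deg]

/-- Product. -/
noncomputable def Sol.mul (s t : Sol f x) : Sol f x where
  A := s.A * t.A + s.B * t.B * f
  B := s.A * t.B + t.A * s.B
  e := s.e + t.e
  W := s.W + t.W
  q := s.q + t.q
  pell := by
    rw [den_add]
    linear_combination (t.A ^ 2 - t.B ^ 2 * f) * s.pell + den x s.e ^ 2 * t.pell
  deg := by
    simp only [Pi.add_apply, Finset.sum_add_distrib]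
    refine (natDegree_add_le _ _).trans (max_le (natDegree_mul_le.trans (add_le_add s.deg t.deg)) ?_)
    have e : (s.B * t.B * f) ^ 2 = (s.B ^ 2 * f) * (t.B ^ 2 * f) := by ring
    have h := congrArg natDegree e
    rw [natDegree_pow] at h
    have := natDegree_mul_le (p := s.B ^ 2 * f) (q := t.B ^ 2 * f)
    have := s.degP
    have := t.degP
    omega
  tri ϑ ξ h := by
    refine ((s.tri ϑ ξ h).mul (t.tri ϑ ξ h)).congr ?_ ?_ ?_
    · simp only [den_add, map_add, map_mul]; ring
    · simp only [den_add, map_add, map_mul]; ring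
    · simp only [Pi.add_apply, map_add, add_mul, Finset.sum_add_distrib]; ring

/-- Inverse. -/
noncomputable def Sol.inv (s : Sol f x) : Sol f x where
  A := s.A
  B := -s.B
  e := s.e
  W := -s.W
  q := -s.q
  pell := by linear_combination s.pell
  deg := s.deg
  tri ϑ ξ h := by
    refine (s.tri ϑ ξ h).inv.congr rfl ?_ ?_
    · simp only [map_neg]; ring
    · simp only [Pi.neg_apply, map_neg, neg_mul, Finset.sum_neg_distrib]; ring

theorem den_comp (b : K) (e : ι → ℕ) :
    den (fun i => x i - b) e = (den x e).comp (X + C b) := by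
  simp only [den, Polynomial.prod_comp, pow_comp, sub_comp, X_comp, C_comp, map_sub]
  exact Finset.prod_congr rfl fun i _ => by ring

/-- Translation. -/
noncomputable def Sol.shift (s : Sol f x) (b : K) :
    Sol (f.comp (X + C b)) (fun i => x i - b) where
  A := s.A.comp (X + C b)
  B := s.B.comp (X + C b)
  e := s.e
  W := s.W
  q := s.q.comp (X + C b)
  pell := by
    rw [den_comp, ← pow_comp (den x s.e), ← s.pell, sub_comp, mul_comp, pow_comp, pow_comp]
  deg := by
    rw [natDegree_comp, natDegree_X_add_C, mul_one]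
    exact s.deg
  tri ϑ ξ h := by
    have e : ∀ i, ξ - algebraMap K L (x i - b) = ξ + algebraMap K L b - algebraMap K L (x i) :=
      fun i => by rw [map_sub]; ring
    have := s.tri ϑ (ξ + algebraMap K L b) (fun i => by rw [← e i]; exact h i)
    have e2 : ∀ P : K[X], aeval ξ (P.comp (X + C b)) = aeval (ξ + algebraMap K L b) P :=
      fun P => by rw [aeval_comp, map_add, aeval_X, aeval_C]
    rw [map_add ϑ, Derivation.map_algebraMap, add_zero] at this
    simp only [den_comp, e2, e]
    exact this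

theorem exists_base [DecidableEq ι] (i₀ : ι) {n : ℕ} (hn : 0 < n) {A B : K[X]}
    (hp : A ^ 2 - B ^ 2 * f = (X - C (x i₀)) ^ (2 * n)) (hd : A.natDegree ≤ n)
    (ha : A.eval (x i₀) ≠ 0) : ∃ s : Sol f x, s.A = A ∧ s.B = B ∧ s.W i₀ ≠ 0 ∧
      ∀ i, i ≠ i₀ → s.W i = 0 := by
  set l : K[X] := X - C (x i₀) with hl
  have hden : den x (Pi.single i₀ n) = l ^ n := by
    rw [den, Finset.prod_eq_single i₀ (fun i _ hi => by simp [hi]) (by simp)]
    simp [hl]
  have c1 : IsCoprime A l :=
    ((irreducible_X_sub_C (x i₀)).coprime_iff_not_dvd.2 fun h => ha (dvd_iff_isRoot.1 h)).symm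
  have c2 : IsCoprime A B := by
    have := c1.pow_right (n := 2 * n)
    rw [← hp, sq, sub_eq_neg_add, IsCoprime.add_mul_left_right_iff, IsCoprime.neg_right_iff,
      IsCoprime.mul_right_iff, sq, IsCoprime.mul_right_iff] at this
    exact this.1.1
  obtain ⟨m, rfl⟩ : ∃ m, n = m + 1 := ⟨n - 1, by omega⟩
  have dl : derivative l = 1 := by simp [hl]
  have d1 := congrArg derivative hp
  simp only [derivative_sub, derivative_mul, derivative_pow, dl, mul_one] at d1
  have e2 : 2 * (m + 1) - 1 = 2 * m + 1 := by omega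
  rw [e2] at d1
  simp only [Nat.cast_ofNat, Nat.add_one_sub_one, pow_one, map_ofNat, Nat.cast_mul, map_mul,
    Nat.cast_add, Nat.cast_one, map_add, map_natCast, map_one] at d1
  have key : A * (2 * (derivative A * l - (m + 1) * A)) =
      B * (2 * f * (derivative B * l - (m + 1) * B) + derivative f * B * l) := by
    linear_combination l * d1 - 2 * (m + 1 : K[X]) * hp
  have two : IsUnit (2 : K[X]) := by
    have : (2 : K[X]) = C 2 := rfl
    rw [this]; exact isUnit_C.2 (by simp)
  obtain ⟨S, hS⟩ : B ∣ derivative A * l - (m + 1) * A :=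
    (two.dvd_mul_left).1 (c2.symm.dvd_of_dvd_mul_left ⟨_, key⟩)
  have hB : B ≠ 0 := by
    rintro rfl
    have := congrArg (eval (x i₀)) hp
    simp [hl] at this
    exact ha this
  have hS2 : 2 * f * (derivative B * l - (m + 1) * B) + derivative f * B * l = 2 * A * S := by
    apply mul_left_cancel₀ hB
    rw [← key, hS]; ring
  obtain ⟨q, hq⟩ : l ∣ S - C (S.eval (x i₀)) := X_sub_C_dvd_sub_C_eval
  have hW : S.eval (x i₀) ≠ 0 := by
    intro h0
    have := congrArg (eval (x i₀)) hS
    simp only [hl, eval_sub, eval_mul, eval_X, eval_C, sub_self, mul_zero, eval_add, eval_natCast,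
      eval_one, zero_sub, h0, neg_eq_zero, mul_eq_zero] at this
    rcases this with h | h
    · exact Nat.cast_add_one_ne_zero m h
    · exact ha h
  refine ⟨⟨A, B, Pi.single i₀ (m + 1), Pi.single i₀ (S.eval (x i₀)), q,
    by rw [hden, hp, ← pow_mul, mul_comm (m + 1)], by simpa using hd, fun ϑ ξ h => ?_⟩, rfl, rfl,
    by simpa using hW, fun i hi => by simp [hi]⟩
  rw [hden, Finset.sum_eq_single i₀ (fun i _ hi => by simp [hi]) (by simp), Pi.single_eq_same,
    map_pow]
  have hl' : aeval ξ l = ξ - algebraMap K L (x i₀) := by simp [hl]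
  have h0 := h i₀
  rw [← hl'] at h0 ⊢
  have dq : ∀ P : K[X], ϑ (aeval ξ P / aeval ξ l ^ (m + 1)) =
      aeval ξ (derivative P * l - ((m : K[X]) + 1) * P) * ϑ ξ / aeval ξ l ^ (m + 2) := by
    intro P
    rw [Derivation.leibniz_div, Derivation.leibniz_pow, Derivation.map_aeval, Derivation.map_aeval,
      dl]
    simp only [map_one, smul_eq_mul, Nat.add_one_sub_one, nsmul_eq_mul, map_sub, map_mul, map_add,
      map_natCast]
    push_cast
    field_simp
    ring
  have hw : algebraMap K L (S.eval (x i₀)) = aeval ξ S - aeval ξ l * aeval ξ q := by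
    have := congrArg (aeval ξ) hq
    simp only [map_sub, aeval_C, map_mul] at this
    linear_combination -this
  refine And.intro ?_ (And.intro ?_ ?_)
  · have := congrArg (aeval ξ) hp
    simp only [map_sub, map_mul, map_pow] at this
    field_simp
    rw [← pow_mul, mul_comm (m + 1), ← this]
  · rw [dq, hS, hw, map_mul]
    field_simp
    ring
  · have := congrArg (aeval ξ) hS2
    simp only [map_add, map_mul (aeval ξ) (2 * f), map_mul (aeval ξ) 2, map_ofNat,
      map_mul (aeval ξ) (derivative f * B), map_mul (aeval ξ) (derivative f),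
      map_mul (aeval ξ) (2 * A)] at this
    rw [dq, hw, Derivation.map_aeval, smul_eq_mul, pow_succ _ (m + 1)]
    have h1 := pow_ne_zero (m + 1) h0
    generalize aeval ξ l ^ (m + 1) = z at h1
    field_simp
    linear_combination ϑ ξ * this

/-- Bounded on the circle of radius `r`. -/
def Sol.Bdd (s : Sol f x) (r : ℝ) : Prop := gn r s.A ≤ gn r (den x s.e)

theorem Sol.Bdd.gnP {s : Sol f x} {r : ℝ} (hr : 0 < r) (h : s.Bdd r) :
    gn r (s.B ^ 2 * f) ≤ gn r (den x s.e) ^ 2 := by
  have : s.B ^ 2 * f = s.A ^ 2 - den x s.e ^ 2 := by linear_combination -s.pell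
  rw [this]
  refine (gn_sub hr _ _).trans (max_le ?_ ?_)
  · rw [gn_pow hr]; exact pow_le_pow_left₀ (gn_nonneg hr _) h 2
  · rw [gn_pow hr]

theorem le_of_sq_le_sq₀ {a b : ℝ} (hb : 0 ≤ b) (h : a ^ 2 ≤ b ^ 2) : a ≤ b := by nlinarith

theorem Sol.Bdd.mul {s t : Sol f x} {r : ℝ} (hr : 0 < r) (h : s.Bdd r) (h' : t.Bdd r) :
    (s.mul t).Bdd r := by
  simp only [Sol.Bdd, Sol.mul, den_add, gn_mul hr] at *
  have d1 := gn_den_pos (x := x) hr s.e
  have d2 := gn_den_pos (x := x) hr t.e
  refine (gn_add hr _ _).trans (max_le ?_ ?_)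
  · rw [gn_mul hr]; exact mul_le_mul h h' (gn_nonneg hr _) d1.le
  · refine le_of_sq_le_sq₀ (by positivity) ?_
    have e : (s.B * t.B * f) ^ 2 = (s.B ^ 2 * f) * (t.B ^ 2 * f) := by ring
    rw [← gn_pow hr, e, gn_mul hr, mul_pow]
    exact mul_le_mul (Sol.Bdd.gnP hr h) (Sol.Bdd.gnP hr h') (gn_nonneg hr _) (by positivity)

theorem elim {r : ℝ} (hr : 0 < r) (p : Sol f x → Prop) (pm : ∀ s t, p s → p t → p (s.mul t))
    (pi : ∀ s, p s → p s.inv) (disc : ∀ s, p s → ¬ s.Bdd r → 5 * gn r (den x s.e) ≤ gn r s.A)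
    (N : ℕ) : ∀ s t, p s → p t → LinearIndependent K ![s.W, t.W] →
      gn r s.A * gn r t.A ≤ 5 ^ N * (gn r (den x s.e) * gn r (den x t.e)) →
      ∃ u, p u ∧ u.Bdd r ∧ u.W ≠ 0 := by
  induction N with
  | zero =>
    intro s t hs ht hi hN
    by_cases h1 : s.Bdd r
    · exact ⟨s, hs, h1, by simpa using hi.ne_zero 0⟩
    by_cases h2 : t.Bdd r
    · exact ⟨t, ht, h2, by simpa using hi.ne_zero 1⟩
    have := disc s hs h1
    have := disc t ht h2
    have := gn_den_pos (x := x) hr s.e
    have := gn_den_pos (x := x) hr t.e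
    exfalso
    nlinarith [mul_pos (gn_den_pos (x := x) hr s.e) (gn_den_pos (x := x) hr t.e)]
  | succ N ih =>
    have main : ∀ s t, p s → p t → LinearIndependent K ![s.W, t.W] →
        gn r s.A * gn r t.A ≤ 5 ^ (N + 1) * (gn r (den x s.e) * gn r (den x t.e)) →
        gn r t.A * gn r (den x s.e) ≤ gn r s.A * gn r (den x t.e) →
        ∃ u, p u ∧ u.Bdd r ∧ u.W ≠ 0 := by
      intro s t hs ht hi hN hle
      by_cases h2 : t.Bdd r
      · exact ⟨t, ht, h2, by simpa using hi.ne_zero 1⟩
      have k2 := disc t ht h2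
      have d1 := gn_den_pos (x := x) hr s.e
      have d2 := gn_den_pos (x := x) hr t.e
      set a := gn r s.A
      set b := gn r t.A
      set d := gn r (den x s.e)
      set e := gn r (den x t.e)
      have hb : 0 < b := by linarith
      have hda : d ≤ a := by nlinarith
      have ha : 0 < a := by linarith
      have s1 : a * b ≤ max (gn r (s.mul t).A) (gn r (s.mul t.inv).A) := by
        refine le_trans (le_of_eq ?_) (gn_add hr _ _)
        rw [← gn_mul hr, ← gn_two_mul hr]
        congr 1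
        simp only [Sol.mul, Sol.inv]
        ring
      have s2 : gn r (s.mul t).A * gn r (s.mul t.inv).A ≤ (a * e) ^ 2 := by
        have e1 : (s.mul t).A * (s.mul t.inv).A = (s.A * den x t.e) ^ 2 + (t.A * den x s.e) ^ 2 -
            (den x s.e * den x t.e) ^ 2 := by
          simp only [Sol.mul, Sol.inv]
          linear_combination (t.B ^ 2 * f) * s.pell + (s.A ^ 2 - den x s.e ^ 2) * t.pell
        rw [← gn_mul hr, e1]
        refine (gn_sub hr _ _).trans (max_le ((gn_add hr _ _).trans (max_le ?_ ?_)) ?_) <;>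
          rw [gn_pow hr, gn_mul hr] <;> gcongr
      have fin : ∀ u : Sol f x, p u → u.e = s.e + t.e → LinearIndependent K ![u.W, t.W] →
          ∀ z, gn r u.A * z ≤ (a * e) ^ 2 → a * b ≤ z → ∃ u, p u ∧ u.Bdd r ∧ u.W ≠ 0 := by
        intro u hu he hi' z h1 h2
        refine ih u t hu ht hi' ?_
        rw [he, den_add, gn_mul hr]
        have u0 := gn_nonneg hr u.A
        have h3 : gn r u.A * b ≤ a * e ^ 2 := by
          refine le_of_mul_le_mul_left ?_ ha
          nlinarith
        have h4 : a * (5 * e) ≤ 5 ^ (N + 1) * (d * e) := le_trans (by gcongr) hN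
        have h5 : a * e ≤ 5 ^ N * (d * e) := by rw [pow_succ] at h4; nlinarith
        change gn r u.A * b ≤ 5 ^ N * (d * e * e)
        nlinarith
      rw [LinearIndependent.pair_iff] at hi
      rcases le_total (gn r (s.mul t).A) (gn r (s.mul t.inv).A) with h | h
      · refine fin (s.mul t) (pm _ _ hs ht) rfl ?_ _ s2 (by rwa [max_eq_right h] at s1)
        rw [LinearIndependent.pair_iff]
        intro c c' hc
        obtain ⟨rfl, h'⟩ := hi c (c + c') (by rw [← hc]; simp only [Sol.mul]; module)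
        exact ⟨rfl, by simpa using h'⟩
      · refine fin (s.mul t.inv) (pm _ _ hs (pi _ ht)) rfl ?_ _ (by rwa [mul_comm] at s2)
          (by rwa [max_eq_left h] at s1)
        rw [LinearIndependent.pair_iff]
        intro c c' hc
        obtain ⟨rfl, h'⟩ := hi c (c' - c) (by rw [← hc]; simp only [Sol.mul, Sol.inv]; module)
        exact ⟨rfl, by simpa using h'⟩
    intro s t hs ht hi hN
    rcases le_total (gn r t.A * gn r (den x s.e)) (gn r s.A * gn r (den x t.e)) with h | h
    · exact main s t hs ht hi hN h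
    · exact main t s ht hs (LinearIndependent.pair_symm_iff.1 hi) (by linarith) h

theorem elim' {r : ℝ} (hr : 0 < r) (p : Sol f x → Prop) (pm : ∀ s t, p s → p t → p (s.mul t))
    (pi : ∀ s, p s → p s.inv) (disc : ∀ s, p s → ¬ s.Bdd r → 5 * gn r (den x s.e) ≤ gn r s.A)
    (s t : Sol f x) (hs : p s) (ht : p t) (hi : LinearIndependent K ![s.W, t.W]) :
    ∃ u, p u ∧ u.Bdd r ∧ u.W ≠ 0 := by
  have d := mul_pos (gn_den_pos (x := x) hr s.e) (gn_den_pos (x := x) hr t.e)
  obtain ⟨N, hN⟩ := pow_unbounded_of_one_lt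
    (gn r s.A * gn r t.A / (gn r (den x s.e) * gn r (den x t.e))) (by norm_num : (1 : ℝ) < 5)
  exact elim hr p pm pi disc N s t hs ht hi ((div_lt_iff₀ d).1 hN).le

end Pool.Agent.MP_8d06cc_nt.H27
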