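import Pool.Agent.MP_8d06cc_nt.H27.Solve

/-! The region lemmas for discs. -/

namespace Pool.Agent.MP_8d06cc_nt.H27

open Polynomial

theorem t_lt {n : ℕ} (hn : n ≠ 0) : s⁻¹ ^ n < 1 :=
  pow_lt_one₀ (inv_pos.2 s0).le (inv_lt_one_of_one_lt₀ s1) hn

theorem coeff_one' (n : ℤ) : (1 : LP).coeff n = if n = 0 then 1 else 0 := by
  rw [← LaurentPolynomial.T_zero, LaurentPolynomial.T_apply]
  simp [eq_comm]

theorem mu_small {μ : LP} {R₁ R₂ r : ℝ} {d : Prop} (h : Mu μ R₁ R₂ d) (h0 : 0 < R₁) (hr : 0 < r)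
    (h1 : d ∨ R₁ < r) (h2 : r < R₂) (n : ℤ) : ‖(μ - 1).coeff n‖ * r ^ n < 1 := by
  rw [coeff_sub', coeff_one']
  rcases lt_trichotomy n 0 with hn | rfl | hn
  · rw [if_neg hn.ne, sub_zero]
    rcases h1 with h1 | h1
    · simp [h.2.2.2 h1 n hn]
    · rcases eq_or_ne (μ.coeff n) 0 with e | e
      · simp [e]
      · refine lt_of_lt_of_le (mul_lt_mul_of_pos_left ?_ (norm_pos_iff.2 e)) (h.2.1 n)
        have := zpow_lt_zpow_left₀ (neg_pos.2 hn) h0.le h1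
        rwa [zpow_neg, zpow_neg, inv_lt_inv₀ (by positivity) (by positivity)] at this
  · simpa using h.2.2.1
  · rw [if_neg hn.ne', sub_zero]
    rcases eq_or_ne (μ.coeff n) 0 with e | e
    · simp [e]
    · exact lt_of_lt_of_le (mul_lt_mul_of_pos_left (zpow_lt_zpow_left₀ hn hr.le h2)
        (norm_pos_iff.2 e)) (h.1 n)

theorem pv_one (x : K) : pv x 1 = 1 := by simpa using pv_C x 1

theorem mu_pv {μ : LP} {R₁ R₂ : ℝ} {d : Prop} (h : Mu μ R₁ R₂ d) (h0 : 0 < R₁) {x : K} (hx : x ≠ 0)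
    (h1 : d ∨ R₁ < ‖x‖) (h2 : ‖x‖ < R₂) : ‖pv x μ - 1‖ < 1 ∧ ‖pv x μ‖ = 1 := by
  have := pv_lt one_pos (mu_small h h0 (norm_pos_iff.2 hx) h1 h2)
  rw [pv_sub hx, pv_one] at this
  exact ⟨this, by simpa using norm_eq_of_sub_lt (y := 1) (by simpa using this)⟩

theorem pv_small {a : K} (ha : ‖a‖ ≤ 1) {χ : LP} (h0 : LO χ 0) (h : ∀ n, ‖χ.coeff n‖ < 1) :
    ‖pv a χ‖ < 1 := pv_lt one_pos fun n => by
  by_cases hn : n < 0
  · simp [h0 n hn]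
  · obtain ⟨k, rfl⟩ := Int.eq_ofNat_of_zero_le (not_lt.1 hn)
    rw [zpow_natCast]
    exact (mul_le_of_le_one_right (norm_nonneg _) (pow_le_one₀ (norm_nonneg _) ha)).trans_lt (h _)

theorem pv_diff {a b : K} (ha : ‖a‖ ≤ 1) (hb : ‖b‖ ≤ 1) (hab : a ≠ b) {χ : LP} (h0 : LO χ 0)
    (h : ∀ n, ‖χ.coeff n‖ < 1) : ‖pv a χ - pv b χ‖ < ‖a - b‖ := by
  have p0 : 0 < ‖a - b‖ := norm_pos_iff.2 (sub_ne_zero.2 hab)
  rw [pv, pv, Finsupp.sum, Finsupp.sum, ← Finset.sum_sub_distrib]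
  refine norm_sum_lt _ _ p0 fun n _ => ?_
  by_cases hn : n < 0
  · simpa [h0 n hn] using p0
  · obtain ⟨k, rfl⟩ := Int.eq_ofNat_of_zero_le (not_lt.1 hn)
    rw [zpow_natCast, zpow_natCast, ← mul_sub, ← geom_sum₂_mul, norm_mul, norm_mul, ← mul_assoc]
    refine mul_lt_of_lt_one_left p0 ((mul_le_of_le_one_right (norm_nonneg _) ?_).trans_lt (h _))
    refine IsUltrametricDist.norm_sum_le_of_forall_le_of_nonneg zero_le_one fun i _ => ?_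
    rw [norm_mul, norm_pow, norm_pow]
    exact mul_le_one₀ (pow_le_one₀ (norm_nonneg _) ha) (by positivity)
      (pow_le_one₀ (norm_nonneg _) hb)

theorem const_lt {a : K} (a0 : a ≠ 0) (ha : ‖a‖ ≤ 1) {ψ : LP} (h0 : LO ψ 0)
    (h : ∀ n, 1 ≤ n → ‖ψ.coeff n‖ < 1) (hp : ‖pv a ψ‖ < 1) : ‖ψ.coeff 0‖ < 1 := by
  have := pv_small ha (χ := ψ - .C (ψ.coeff 0)) (fun n hn => by simp [h0 n hn, hn.ne])
    fun n => by
      rcases lt_trichotomy n 0 with hn | rfl | hn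
      · simp [h0 n hn, hn.ne]
      · simp
      · simpa [hn.ne'] using h n hn
  rw [pv_sub a0, pv_C] at this
  simpa using norm_sub_lt' hp this

theorem two_zeros {a b : K} (a0 : a ≠ 0) (b0 : b ≠ 0) (ha : ‖a‖ ≤ 1) (hb : ‖b‖ ≤ 1) (hab : a ≠ b)
    {ψ : LP} (h0 : LO ψ 0) (h : ∀ n, 2 ≤ n → ‖ψ.coeff n‖ < 1) (pa : ‖pv a ψ‖ < ‖a - b‖)
    (pb : ‖pv b ψ‖ < ‖a - b‖) : ‖ψ.coeff 0‖ < 1 ∧ ‖ψ.coeff 1‖ < 1 := by
  have p0 : 0 < ‖a - b‖ := norm_pos_iff.2 (sub_ne_zero.2 hab)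
  have := pv_diff ha hb hab (χ := ψ - .C (ψ.coeff 0) - .C (ψ.coeff 1) * .T 1)
    (fun n hn => by
      rw [coeff_sub', coeff_C_mul, lo_T 1 n (by omega)]
      simp [h0 n hn, hn.ne])
    fun n => by
      rw [coeff_sub', coeff_C_mul, LaurentPolynomial.T_apply]
      rcases lt_trichotomy n 0 with hn | rfl | hn
      · simp [h0 n hn, hn.ne, show 1 ≠ n by omega]
      · simp
      · by_cases h1 : 1 = n
        · simp [← h1]
        · simpa [hn.ne', h1] using h n (by omega)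
  simp only [pv_sub a0, pv_sub b0, pv_C, pv_C_mul_T, zpow_one] at this
  have e := norm_sub_lt' (norm_sub_lt' pa pb) this
  rw [show pv a ψ - pv b ψ - (pv a ψ - ψ.coeff 0 - ψ.coeff 1 * a -
    (pv b ψ - ψ.coeff 0 - ψ.coeff 1 * b)) = ψ.coeff 1 * (a - b) by ring, norm_mul] at e
  have h1 : ‖ψ.coeff 1‖ < 1 := by nlinarith [norm_nonneg (ψ.coeff 1)]
  refine ⟨const_lt a0 ha h0 (fun n hn => ?_) (pa.trans_le (norm_sub_le' ha hb)), h1⟩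
  rcases eq_or_lt_of_le hn with rfl | hn
  · exact h1
  · exact h n hn

theorem G_up {μ : LP} {E dg κ : ℕ} (hμ : LB (s ^ E) μ 1) {g : K[X]} (hd : g.natDegree ≤ dg)
    (hg : gn 1 g ≤ 1) {n : ℕ} (hn : κ + dg ≤ n) :
    ‖(.T κ * toLaurent g * μ).coeff n‖ ≤ s⁻¹ ^ (E * (n - (κ + dg))) := by
  have p : 0 < s ^ E := pow_pos s0 E
  have l1 := (gn_up one_pos (one_le_pow₀ s1.le : 1 ≤ s ^ E) hd).trans
    (mul_le_of_le_one_left (by positivity) hg)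
  have := ((lb_T p κ).mul p ((lb_toL p g).mono l1)).mul p hμ n
  obtain ⟨m, rfl⟩ := Nat.exists_eq_add_of_le hn
  rw [div_one, mul_one, zpow_natCast, zpow_natCast, ← pow_add, pow_add _ (κ + dg), ← mul_assoc,
    mul_comm _ (_ ^ (κ + dg)), mul_assoc, mul_le_iff_le_one_right (by positivity)] at this
  rw [add_tsub_cancel_left, pow_mul, inv_pow s, inv_pow, ← one_div, le_div_iff₀ (by positivity)]
  exact this

theorem xg_bd {g : K[X]} (hd : g.natDegree ≤ 2) (hg : gn 1 g ≤ 1) : LB s (xg g) (s ^ 3) := by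
  have l1 := (gn_up one_pos s1.le hd).trans (mul_le_of_le_one_left (by have := s0; positivity) hg)
  exact ((lb_T s0 1).mul s0 ((lb_toL s0 g).mono l1)).mono (le_of_eq (by simp [pow_succ']))

/-- Solutions of the equation outside the window. -/
def Base (p : K[X]) (k : ℕ) (μ ψ : LP) (g : K[X]) : Prop :=
  LO ψ 0 ∧ ∀ n : ℤ, k ≤ n → 1 ≤ n → (Lop (toLaurent p) ψ).coeff n = (xg g * μ).coeff n

theorem xg_add (g g' : K[X]) : xg (g + g') = xg g + xg g' := by simp only [xg, map_add, mul_add]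

theorem xg_C (c : K) (g : K[X]) : xg (C c * g) = .C c * xg g := by
  simp only [xg, map_mul, toLaurent_C]; ring

theorem lin_win (P μ : LP) (n : ℤ) : Lin fun ψ g => (Lop P ψ).coeff n - (xg g * μ).coeff n :=
  ⟨fun _ _ _ _ => by simp only [Lop_add, xg_add, add_mul, coeff_add']; ring,
    fun _ _ _ => by simp only [Lop_C, xg_C, mul_assoc, coeff_C_mul]; ring⟩

theorem lin_pv {z : K} (hz : z ≠ 0) : Lin fun ψ _ => pv z ψ :=
  ⟨fun _ _ _ _ => pv_add _ _ _, fun _ _ _ => by simp only [pv_mul hz, pv_C]⟩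

theorem lin_coeff (n : ℕ) : Lin fun _ g => g.coeff n :=
  ⟨fun _ _ _ _ => coeff_add _ _ _, fun _ _ _ => Polynomial.coeff_C_mul _⟩

/-- The output of the solver on a disc. -/
def Out (p : K[X]) (μ ψ : LP) (g : K[X]) (j₀ : ℕ) : Prop :=
  g.natDegree ≤ 2 ∧ LB s ψ (s ^ 3) ∧ LB s (xg g) (s ^ 3) ∧ LO ψ 0 ∧
    Lop (toLaurent p) ψ = xg g * μ ∧ (∀ n : ℤ, j₀ ≤ n → ‖ψ.coeff n‖ < 1) ∧
    ¬ (‖ψ.coeff 0‖ < 1 ∧ ‖ψ.coeff 1‖ < 1)

theorem disc_sol {p : K[X]} {k : ℕ} (hp : p.natDegree ≤ k) (h1 : p.coeff k = 1) (hg : gn 1 p ≤ 1)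
    {μ : LP} {E : ℕ} (hE0 : E ≠ 0) (hμ : Mu μ (1 / 2) (s ^ E) True) (Φ₀ Φ₁ Φ₂ : LP → K[X] → K)
    (l0 : Lin Φ₀) (l1 : Lin Φ₁) (l2 : Lin Φ₂)
    (hQ : ∀ ψ g, Base p k μ ψ g → ∃ ψ', Base p k μ ψ' g ∧ Φ₀ ψ' g = 0) {dg a b j₀ : ℕ}
    (hdg : ∀ ψ g, g.natDegree ≤ 2 → Φ₁ ψ g = 0 → Φ₂ ψ g = 0 → g.natDegree ≤ dg ∧
      ∀ n : ℤ, 1 ≤ n → n < k → (Lop (toLaurent p) ψ).coeff n = (xg g * μ).coeff n)
    (j1 : 1 ≤ j₀) (j2 : j₀ ≤ 2) (jk : 1 + dg ≤ j₀ + k) (ha : 0 < a) (hb : 0 < a * j₀ + b)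
    (hc : ∀ j : ℕ, ‖((2 * j + k : ℕ) : K)‖ = ‖((a * j + b : ℕ) : K)‖)
    (hE : ∀ j, j₀ ≤ j → ∀ v, 4 * v < a * j + b →
      25 * v + (j - j₀ + 1) ≤ E * (j + k - (1 + dg))) :
    ∃ ψ g, Out p μ ψ g j₀ ∧ Φ₀ ψ g = 0 ∧ Φ₁ ψ g = 0 ∧ Φ₂ ψ g = 0 := by
  obtain ⟨ψ, g, gd, ⟨⟨q0, q1⟩, f0⟩, f1, f2, n1, n2, n3, n4⟩ := tri_sol
    (fun ψ g => Base p k μ ψ g ∧ Φ₀ ψ g = 0)
    (fun ψ g ψ' g' h h' => ⟨⟨fun n hn => by rw [coeff_add', h.1.1 n hn, h'.1.1 n hn, add_zero],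
      fun n hn hn' => by
        rw [Lop_add, xg_add, add_mul, coeff_add', coeff_add', h.1.2 n hn hn', h'.1.2 n hn hn']⟩,
      by rw [l0.1, h.2, h'.2, add_zero]⟩)
    (fun c ψ g h => ⟨⟨fun n hn => by rw [coeff_C_mul, h.1.1 n hn, mul_zero],
      fun n hn hn' => by rw [Lop_C, xg_C, mul_assoc, coeff_C_mul, coeff_C_mul, h.1.2 n hn hn']⟩,
      by rw [l0.2, h.2, mul_zero]⟩)
    (fun i => by
      obtain ⟨ψ, h⟩ := solve_pos hp h1 (xg (X ^ i) * μ)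
      exact hQ ψ _ h) Φ₁ Φ₂ l1 l2
  obtain ⟨gd', hw⟩ := hdg ψ g gd f1 f2
  have eq : Lop (toLaurent p) ψ = xg g * μ := by
    ext n
    by_cases hn : n < 1
    · rw [Lop_lo q0 n hn, xg, (((lo_T 1).mul (lo_toL g)).mul (hμ.2.2.2 trivial)) n hn]
    · by_cases hk : n < k
      · exact hw n (by omega) hk
      · exact q1 n (by omega) (by omega)
  have td := top_down hp h1 hg ha hb hc (fun j => E * (j + k - (1 + dg))) hE (G := xg g * μ)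
    (fun j hj => by exact_mod_cast G_up (κ := 1) hμ.1 gd' n1 (n := j + k) (by omega))
    (fun j _ => by rw [eq])
  have lt : ∀ n : ℤ, j₀ ≤ n → ‖ψ.coeff n‖ < 1 := fun n hn => by
    obtain ⟨j, rfl⟩ := Int.eq_ofNat_of_zero_le (a := n) (by omega)
    exact (td j (by omega)).trans_lt (t_lt (by omega))
  refine ⟨ψ, g, ⟨gd, fun n => ?_, xg_bd gd n1, q0, eq, lt, fun h => n4 ⟨?_, h⟩⟩, f0, f1, f2⟩
  · have := s0
    by_cases hn : n < 0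
    · rw [q0 n hn, norm_zero, zero_mul]; positivity
    obtain ⟨j, rfl⟩ := Int.eq_ofNat_of_zero_le (not_lt.1 hn)
    rw [zpow_natCast]
    by_cases hj : j₀ ≤ j
    · refine (mul_le_mul_of_nonneg_right (td j hj) (by positivity)).trans ?_
      rw [inv_pow, inv_mul_le_iff₀ (by positivity), ← pow_add]
      exact pow_le_pow_right₀ s1.le (by omega)
    · refine (mul_le_of_le_one_left (by positivity) ?_).trans (pow_le_pow_right₀ s1.le (by omega))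
      obtain rfl | rfl : j = 0 ∨ j = 1 := by omega
      exacts [n2, n3]
  · refine key_lt ((lb_toL one_pos p).mono hg) (fun n => ?_) n1 (fun n => by
      simpa using mu_small hμ (by norm_num) one_pos (.inl trivial) (one_lt_pow₀ s1 hE0) n) eq
    by_cases hn : n < 0
    · simp [q0 n hn]
    · obtain rfl | rfl | hn : n = 0 ∨ n = 1 ∨ 2 ≤ n := by omega
      exacts [h.1, h.2, lt n (by omega)]

variable {f : K[X]}

theorem disc_rel {ι κ : Type} [Fintype ι] [Fintype κ] {x : ι → K} (σ : κ → Sol f x)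
    (hf : f.natDegree = 8) (hx : ∀ i, x i ≠ 0) (hx1 : ∀ i, ‖x i‖ ≤ 1) {p : K[X]} {E : ℕ}
    (hE : 2 ≤ E) (hF : Fac f (toLaurent p) (1 / 2) (s ^ E) True)
    (ho : ∀ j, gn s ((σ j).B ^ 2 * f) < gn s (den x (σ j).e) ^ 2) {ε : ℝ} (hε : 0 < ε) :
    ∃ μ, Mu μ (1 / 2) (s ^ E) True ∧ (∀ i, ‖pv (x i) μ‖ = 1) ∧ ∀ ψ g j₀, Out p μ ψ g j₀ →
      ∀ j, ‖∑ i, (σ j).W i * (pv (x i) ψ * pv (x i) μ)‖ < ε := by
  have h3 : s < s ^ E := by simpa using pow_lt_pow_right₀ s1 (show 1 < E by omega)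
  obtain ⟨μ, hμ, h⟩ := relation σ hf hx hF (by norm_num) (by norm_num : (1 / 2 : ℝ) < 1) s1.le h3
    (fun i => (hx1 i).trans s1.le) ho (fun h => absurd trivial h) (s ^ 3) hε
  exact ⟨μ, hμ, fun i => (mu_pv hμ (by norm_num) (hx i) (.inl trivial)
    ((hx1 i).trans_lt (s1.trans h3))).2, fun ψ g j₀ o => h ψ g o.1 o.2.1 o.2.2.1
      (fun _ => o.2.2.2.1) (fun h => absurd trivial h) o.2.2.2.2.1⟩

theorem two_pt {x : Fin 2 → K} (σ : Sol f x) (hf : f.natDegree = 8) (hx : ∀ i, x i ≠ 0)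
    (hx1 : ∀ i, ‖x i‖ ≤ 1) (hne : x 0 ≠ x 1) {p : K[X]} {E : ℕ} (hE : 2 ≤ E)
    (hF : Fac f (toLaurent p) (1 / 2) (s ^ E) True)
    (ho : gn s (σ.B ^ 2 * f) < gn s (den x σ.e) ^ 2) (hW : σ.W ≠ 0)
    (hs : ∀ μ, Mu μ (1 / 2) (s ^ E) True → ∀ z : K, z ≠ 0 → ∃ ψ g, Out p μ ψ g 2 ∧ pv z ψ = 0) :
    False := by
  obtain ⟨i, j, hi, hij, hsum⟩ : ∃ i j, σ.W i ≠ 0 ∧ x i ≠ x j ∧
      ∀ u : Fin 2 → K, ∑ l, u l = u i + u j := by
    by_cases h : σ.W 0 = 0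
    · exact ⟨1, 0, fun h' => hW (funext fun l => by fin_cases l <;> simpa), hne.symm,
        fun u => by simp [add_comm]⟩
    · exact ⟨0, 1, h, hne, fun u => by simp⟩
  have p0 : 0 < ‖x i - x j‖ := norm_pos_iff.2 (sub_ne_zero.2 hij)
  have w0 : 0 < ‖σ.W i‖ := norm_pos_iff.2 hi
  obtain ⟨μ, hμ, h1, h⟩ := disc_rel (fun _ : Unit => σ) hf hx hx1 hE hF (fun _ => ho)
    (mul_pos w0 p0)
  obtain ⟨ψ, g, o, hz⟩ := hs μ hμ (x j) (hx j)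
  have := h ψ g 2 o ()
  rw [hsum, hz, zero_mul, mul_zero, add_zero, norm_mul, norm_mul, h1, mul_one] at this
  exact o.2.2.2.2.2.2 (two_zeros (hx i) (hx j) (hx1 i) (hx1 j) hij o.2.2.2.1 o.2.2.2.2.2.1
    (lt_of_mul_lt_mul_left this w0.le) (by rwa [hz, norm_zero]))

theorem lin_zero : Lin fun _ _ => 0 := ⟨by simp, by simp⟩

theorem deg0 {g : K[X]} (h : g.natDegree ≤ 2) (h1 : g.coeff 1 = 0) (h2 : g.coeff 2 = 0) :
    g.natDegree ≤ 0 := natDegree_le_iff_coeff_eq_zero.2 fun n hn => by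
  obtain rfl | rfl | hn : n = 1 ∨ n = 2 ∨ 2 < n := by omega
  exacts [h1, h2, coeff_eq_zero_of_natDegree_lt (by omega)]

theorem norm_two_mul (m : ℕ) : ‖((2 * m : ℕ) : K)‖ = ‖(m : K)‖ := by
  rw [Nat.cast_mul, norm_mul, Nat.cast_ofNat, norm_two, one_mul]

theorem reg0 {x : Fin 2 → K} (σ : Sol f x) (hf : f.natDegree = 8) (hx : ∀ i, x i ≠ 0)
    (hx1 : ∀ i, ‖x i‖ ≤ 1) (hne : x 0 ≠ x 1) (hF : Fac f (toLaurent 1) (1 / 2) (s ^ 8) True)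
    (ho : gn s (σ.B ^ 2 * f) < gn s (den x σ.e) ^ 2) (hW : σ.W ≠ 0) : False := by
  refine two_pt σ hf hx hx1 hne (by norm_num) hF ho hW fun μ hμ z hz => ?_
  obtain ⟨ψ, g, o, h, -⟩ := disc_sol (p := 1) (k := 0) (by simp) (by simp) (gn_one 1).le
    (by norm_num) hμ _ _ _ (lin_pv hz) (lin_coeff 1) (lin_coeff 2) (fun ψ g h => ⟨ψ + .C (-pv z ψ) * 1,
      ⟨fun n hn => by simp [h.1 n hn, hn.ne], fun n hn hn' => by
        rw [Lop_add, Lop_C, ← h.2 n hn hn']; simp [Lop]⟩, by rw [mul_one, pv_add, pv_C, add_neg_cancel]⟩)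
    (dg := 0) (a := 1) (b := 0) (j₀ := 2) (fun ψ g h h1 h2 => ⟨deg0 h h1 h2, by omega⟩)
    (by norm_num) le_rfl (by norm_num) one_pos (by norm_num)
    (fun j => by rw [add_zero, norm_two_mul]; simp) (by omega)
  exact ⟨ψ, g, o, h⟩

theorem reg2 {x : Fin 2 → K} (σ : Sol f x) (hf : f.natDegree = 8) (hx : ∀ i, x i ≠ 0)
    (hx1 : ∀ i, ‖x i‖ ≤ 1) (hne : x 0 ≠ x 1) {p : K[X]} (hp : p.natDegree ≤ 2)
    (h1 : p.coeff 2 = 1) (hg : gn 1 p ≤ 1) (hF : Fac f (toLaurent p) (1 / 2) (s ^ 12) True)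
    (ho : gn s (σ.B ^ 2 * f) < gn s (den x σ.e) ^ 2) (hW : σ.W ≠ 0) : False := by
  refine two_pt σ hf hx hx1 hne (by norm_num) hF ho hW fun μ hμ z hz => ?_
  obtain ⟨ψ, g, o, -, h, -⟩ := disc_sol hp h1 hg (by norm_num) hμ _ _ _ lin_zero (lin_pv hz)
    (lin_win (toLaurent p) μ 1) (fun ψ g h => ⟨ψ, h, rfl⟩)
    (dg := 2) (a := 1) (b := 1) (j₀ := 2) (fun ψ g h h1 h2 => ⟨h, fun n _ _ => by
      obtain rfl : n = 1 := by omega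
      exact sub_eq_zero.1 h2⟩)
    (by norm_num) le_rfl (by norm_num) one_pos (by norm_num)
    (fun j => by rw [← norm_two_mul (1 * j + 1)]; congr 2; ring) (by omega)
  exact ⟨ψ, g, o, h⟩

theorem reg3 {x : Fin 2 → K} (σ : Fin 2 → Sol f x) (hf : f.natDegree = 8) (hx : ∀ i, x i ≠ 0)
    (hx1 : ∀ i, ‖x i‖ ≤ 1) (hne : x 0 ≠ x 1) {p : K[X]} (hp : p.natDegree ≤ 3)
    (h1 : p.coeff 3 = 1) (hg : gn 1 p ≤ 1) (hF : Fac f (toLaurent p) (1 / 2) (s ^ 24) True)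
    (ho : ∀ j, gn s ((σ j).B ^ 2 * f) < gn s (den x (σ j).e) ^ 2) (hW : ∀ j, (σ j).W j ≠ 0)
    (hW' : ∀ j i, i ≠ j → (σ j).W i = 0) : False := by
  have p0 : 0 < ‖x 0 - x 1‖ := norm_pos_iff.2 (sub_ne_zero.2 hne)
  have w0 : ∀ j, 0 < ‖(σ j).W j‖ := fun j => norm_pos_iff.2 (hW j)
  obtain ⟨μ, hμ, h2, h⟩ := disc_rel σ hf hx hx1 (by norm_num) hF ho
    (mul_pos (lt_min (w0 0) (w0 1)) p0)
  obtain ⟨ψ, g, o, -⟩ := disc_sol hp h1 hg (by norm_num) hμ _ _ _ lin_zero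
    (lin_win (toLaurent p) μ 1) (lin_win (toLaurent p) μ 2) (fun ψ g h => ⟨ψ, h, rfl⟩)
    (dg := 2) (a := 2) (b := 3) (j₀ := 2) (fun ψ g h h1 h2 => ⟨h, fun n _ _ => by
      obtain rfl | rfl : n = 1 ∨ n = 2 := by omega
      exacts [sub_eq_zero.1 h1, sub_eq_zero.1 h2]⟩)
    (by norm_num) le_rfl (by norm_num) two_pos (by norm_num) (fun j => rfl) (by omega)
  have key : ∀ j, ‖pv (x j) ψ‖ < ‖x 0 - x 1‖ := fun j => by
    have := h ψ g 2 o j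
    rw [Finset.sum_eq_single j (fun i _ hi => by rw [hW' j i hi, zero_mul]) (by simp), norm_mul,
      norm_mul, h2, mul_one] at this
    refine lt_of_mul_lt_mul_left (this.trans_le ?_) (w0 j).le
    gcongr
    fin_cases j
    exacts [min_le_left _ _, min_le_right _ _]
  exact o.2.2.2.2.2.2 (two_zeros (hx 0) (hx 1) (hx1 0) (hx1 1) hne o.2.2.2.1 o.2.2.2.2.2.1
    (key 0) (key 1))

theorem reg1 {x : Unit → K} (σ : Sol f x) (hf : f.natDegree = 8) (hx : ∀ i, x i ≠ 0)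
    (hx1 : ∀ i, ‖x i‖ ≤ 1) {p : K[X]} (hp : p.natDegree ≤ 1)
    (h1 : p.coeff 1 = 1) (hg : gn 1 p ≤ 1) (hF : Fac f (toLaurent p) (1 / 2) (s ^ 24) True)
    (ho : gn s (σ.B ^ 2 * f) < gn s (den x σ.e) ^ 2) (hW : σ.W () ≠ 0) : False := by
  have w0 := norm_pos_iff.2 hW
  obtain ⟨μ, hμ, h2, h⟩ := disc_rel (fun _ : Unit => σ) hf hx hx1 (by norm_num) hF (fun _ => ho) w0
  obtain ⟨ψ, g, o, -⟩ := disc_sol hp h1 hg (by norm_num) hμ _ _ _ lin_zero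
    (lin_coeff 1) (lin_coeff 2) (fun ψ g h => ⟨ψ, h, rfl⟩)
    (dg := 0) (a := 2) (b := 1) (j₀ := 1) (fun ψ g h h1 h2 => ⟨deg0 h h1 h2, by omega⟩)
    le_rfl (by norm_num) (by norm_num) two_pos (by norm_num) (fun j => rfl) (by omega)
  have := h ψ g 1 o ()
  rw [Fintype.sum_unique, norm_mul, norm_mul, h2, mul_one] at this
  exact o.2.2.2.2.2.2 ⟨const_lt (hx ()) (hx1 ()) o.2.2.2.1 o.2.2.2.2.2.1
    (by nlinarith [norm_nonneg (pv (x ()) ψ)]), o.2.2.2.2.2.1 1 le_rfl⟩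

end Pool.Agent.MP_8d06cc_nt.H27
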