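import Pool.Agent.MP_8d06cc_nt.H27.Pell

/-! The reciprocity relation on a disc or an annulus. -/

namespace Pool.Agent.MP_8d06cc_nt.H27

open Polynomial

/-- Twice `x y d(u y)/dx` for `y ^ 2 = F`. -/
noncomputable def Lop (F u : LP) : LP := 2 * F * thP u + thP F * u

/-- `x` times a polynomial. -/
noncomputable def xg (g : K[X]) : LP := LaurentPolynomial.T 1 * toLaurent g

variable {f : K[X]} {ι : Type} [Fintype ι] {x : ι → K}

/-- The logarithmic derivative, expanded. -/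
noncomputable def Sol.R (s : Sol f x) (σ : ℤ) : L :=
  ev σ (.T 1) * (∑ i, algebraMap K L (s.W i) * (ev σ (.T 1) - algebraMap K L (x i))⁻¹ +
    ev σ (toLaurent s.q))

theorem den_inv (ξ : L) (e : ι → ℕ) :
    (aeval ξ (den x e))⁻¹ = ∏ i, (ξ - algebraMap K L (x i))⁻¹ ^ e i := by
  simp [den, map_prod]

theorem circ (s : Sol f x) {σ : ℤ} (hσ : σ * σ = 1) {r τ : ℝ} (hr : 0 < r) (hτ : 0 < τ)
    (hLB : ∀ u c, LB r u c → Bd τ (ev σ u) c)
    (hne : ∀ i, ev σ (.T 1) - algebraMap K L (x i) ≠ 0)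
    (hinv : ∀ i, Bd τ (ev σ (.T 1) - algebraMap K L (x i))⁻¹ (max r ‖x i‖)⁻¹)
    (hρ : gn r (s.B ^ 2 * f) < gn r (den x s.e) ^ 2)
    (hoa : Ord (ev σ (toLaurent s.A) * (aeval (ev σ (.T 1)) (den x s.e))⁻¹) 0)
    (hob : ∀ g : K[X], g.natDegree ≤ 2 →
      Ord (ev σ (toLaurent s.B) * (aeval (ev σ (.T 1)) (den x s.e))⁻¹ * ev σ (xg g)) 1) :
    ∃ c, 0 ≤ c ∧ ∀ (φ : LP) (g : K[X]) (δ : ℝ), g.natDegree ≤ 2 →
      LB r (Lop (toLaurent f) φ - xg g) δ → ‖(ev σ φ * s.R σ).coeff 0‖ ≤ c * δ := by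
  have ht := s.tri (ths σ) _ hne
  have e1 : ths σ (ev σ (.T 1)) = ev σ (.T 1) := by rw [ev_thP hσ, thP_T]; simp
  simp only [← ev_toLaurent σ f, ← ev_toLaurent σ s.A, ← ev_toLaurent σ s.B, ← ev_toLaurent σ s.q,
    e1, div_eq_mul_inv] at ht
  have fin : ∀ u, Fin' τ (ev σ u) := fun u => by
    obtain ⟨c, hc⟩ := lb_exists hr u
    exact ⟨c, hLB u c hc⟩
  have hD : Bd τ (aeval (ev σ (.T 1)) (den x s.e))⁻¹ (gn r (den x s.e))⁻¹ := by
    rw [den_inv, gn_den hr, ← Finset.prod_inv_distrib]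
    exact Bd.prod hτ _ _ _ fun i _ => by rw [← inv_pow (max r ‖x i‖)]; exact (hinv i).pow hτ _
  have dp := gn_den_pos (x := x) hr s.e
  have h1 : Bd τ ((ev σ (toLaurent s.A) * (aeval (ev σ (.T 1)) (den x s.e))⁻¹) ^ 2 - 1)
      (gn r (s.B ^ 2 * f) * (gn r (den x s.e))⁻¹ ^ 2) := by
    have := (hLB _ _ (lb_toL hr (s.B ^ 2 * f))).mul hτ (hD.pow hτ 2)
    simp only [map_mul, map_pow] at this
    convert this using 1
    linear_combination ht.1
  obtain ⟨c, c0, hc⟩ := bdry (ct_th σ) hτ ht h1 (by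
      rw [inv_pow, ← div_eq_mul_inv, div_lt_one (by positivity)]; exact hρ)
    ((fin _).mul hτ ⟨_, hD⟩) ((fin _).mul hτ ⟨_, hD⟩)
    ((fin _).mul hτ (Fin'.add hτ (Fin'.sum hτ _ _ fun i _ =>
      Fin'.mul hτ ⟨_, bd_alg hτ _⟩ ⟨_, hinv i⟩) (fin _))) hoa
  refine ⟨c, c0, fun φ g δ hg hE => hc _ _ _ δ (fin φ) (hob g hg) ?_ (hLB _ _ hE)⟩
  simp only [ev_thP hσ, Lop, map_sub, map_add, map_mul, map_ofNat]
  ring

theorem out_rel (s : Sol f x) (hf : f.natDegree = 8) {r : ℝ} (hr : 0 < r) (hx : ∀ i, ‖x i‖ ≤ r)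
    (hρ : gn r (s.B ^ 2 * f) < gn r (den x s.e) ^ 2) :
    ∃ c, 0 ≤ c ∧ ∀ (φ : LP) (g : K[X]) (δ : ℝ), g.natDegree ≤ 2 →
      LB r (Lop (toLaurent f) φ - xg g) δ → ‖(ev (-1) φ * s.R (-1)).coeff 0‖ ≤ c * δ := by
  have hτ : 0 < r⁻¹ := by positivity
  have oD : Ord (aeval (ev (-1) (.T 1)) (den x s.e))⁻¹ (∑ i, s.e i : ℕ) := by
    rw [den_inv]
    push_cast
    refine Ord.prod _ _ _ fun i _ => ?_
    rw [out_inv]
    have := ((ord_single 1 1).mul (geo_ord (x i))).pow (s.e i)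
    simpa using this
  refine circ s (by norm_num) hr hτ (fun u c h => h.out) (fun i => left_ne_zero_of_mul_eq_one
    (out_mul (x i))) (fun i => ?_) hρ ?_ fun g hg => ?_
  · rw [out_inv, max_eq_left (hx i)]
    have := (bd_single hτ 1 1).mul hτ (geo_bd hτ (c := x i)
      (by rw [← div_eq_mul_inv, div_le_one hr]; exact hx i))
    simpa using this
  · have := (ld_iff.1 (ld_toL s.deg)).mul oD
    rwa [neg_add_cancel] at this
  · by_cases hB : s.B = 0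
    · simp [hB, ord_zero]
    have h0 : f ≠ 0 := by rintro rfl; simp at hf
    have := s.degP
    rw [natDegree_mul (pow_ne_zero 2 hB) h0, natDegree_pow, hf] at this
    have o1 := (ld_iff.1 (ld_toL (P := s.B) le_rfl)).mul oD
    have o2 := (ord_single (-1 * 1) (1 : K)).mul (ld_iff.1 (ld_toL hg))
    rw [← ev_T, ← map_mul] at o2
    exact (o1.mul o2).mono (by omega)

omit [Fintype ι] in
theorem in_ord (hx : ∀ i, x i ≠ 0) (i : ι) :
    Ord (ev 1 (.T 1) - algebraMap K L (x i))⁻¹ 0 := by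
  rw [in_inv (hx i)]
  exact (ord_alg _).mul (geo_ord _)

theorem in_rel (s : Sol f x) {r : ℝ} (hr : 0 < r) (hx : ∀ i, r ≤ ‖x i‖)
    (hρ : gn r (s.B ^ 2 * f) < gn r (den x s.e) ^ 2) :
    ∃ c, 0 ≤ c ∧ ∀ (φ : LP) (g : K[X]) (δ : ℝ), g.natDegree ≤ 2 →
      LB r (Lop (toLaurent f) φ - xg g) δ → ‖(ev 1 φ * s.R 1).coeff 0‖ ≤ c * δ := by
  have h0 : ∀ i, x i ≠ 0 := fun i => norm_pos_iff.1 (hr.trans_le (hx i))
  have oD : Ord (aeval (ev 1 (.T 1)) (den x s.e))⁻¹ 0 := by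
    rw [den_inv]
    have := Ord.prod Finset.univ _ (fun _ => 0) fun i _ => by
      simpa using (in_ord h0 i).pow (s.e i)
    simpa using this
  refine circ s (by norm_num) hr hr (fun u c h => lb_iff.1 h) (fun i => left_ne_zero_of_mul_eq_one
    (in_mul (h0 i))) (fun i => ?_) hρ ?_ fun g hg => ?_
  · rw [in_inv (h0 i), max_eq_right (hx i)]
    have := (bd_alg hr (-(x i)⁻¹)).mul hr (geo_bd hr (c := (x i)⁻¹)
      (by rw [norm_inv, inv_mul_le_one₀ (hr.trans_le (hx i))]; exact hx i))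
    simpa using this
  · simpa using (lo_iff.1 (lo_toL s.A)).mul oD
  · exact ((lo_iff.1 (lo_toL s.B)).mul oD).mul (lo_iff.1 ((lo_T 1).mul (lo_toL g)))

theorem res_sum (s : Sol f x) (hx : ∀ i, x i ≠ 0) (φ : LP) :
    (ev (-1) φ * s.R (-1)).coeff 0 - (ev 1 φ * s.R 1).coeff 0 = ∑ i, s.W i * pv (x i) φ := by
  have e : ∀ σ : ℤ, σ * σ = 1 → (ev σ φ * s.R σ).coeff 0 = ∑ i, s.W i *
      (ev σ φ * (ev σ (.T 1) * (ev σ (.T 1) - algebraMap K L (x i))⁻¹)).coeff 0 +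
      (φ * (.T 1 * toLaurent s.q)).coeff 0 := by
    intro σ hσ
    have := ev_coeff hσ (φ * (.T 1 * toLaurent s.q)) 0
    rw [mul_zero, map_mul, map_mul] at this
    rw [← this, Sol.R, mul_add, mul_add, HahnSeries.coeff_add, Finset.mul_sum, Finset.mul_sum,
      HahnSeries.coeff_sum]
    congr 1
    refine Finset.sum_congr rfl fun i _ => ?_
    rw [← coeff_alg_mul]
    congr 1
    ring
  rw [e _ (by norm_num), e _ (by norm_num), add_sub_add_right_eq_sub, ← Finset.sum_sub_distrib]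
  exact Finset.sum_congr rfl fun i _ => by rw [← mul_sub, residue (hx i)]

theorem in_zero (s : Sol f x) (hx : ∀ i, x i ≠ 0) {φ : LP} (h : LO φ 0) :
    (ev 1 φ * s.R 1).coeff 0 = 0 := by
  have o1 : Ord (∑ i, algebraMap K L (s.W i) * (ev 1 (.T 1) - algebraMap K L (x i))⁻¹) 0 :=
    Ord.sum _ _ fun i _ => by simpa using (ord_alg _).mul (in_ord hx i)
  exact ((lo_iff.1 h).mul ((lo_iff.1 (lo_T 1)).mul (o1.add (lo_iff.1 (lo_toL s.q))))) 0
    (by norm_num)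

theorem nu_exists {R : ℝ} (hR : 0 < R) {P : K[X]} (h0 : P.coeff 0 = 1) (hP : gn R P ≤ 1) (N : ℕ) :
    ∃ ν : K[X], ν.coeff 0 = 1 ∧ gn R ν ≤ 1 ∧ X ^ (N + 1) ∣ ν ^ 2 * P - 1 := by
  induction N with
  | zero => exact ⟨1, by simp, (gn_one R).le, by simp [X_dvd_iff, h0]⟩
  | succ N ih =>
    obtain ⟨ν, n0, n1, Q, hQ⟩ := ih
    have g1 : gn R (ν ^ 2 * P - 1) ≤ 1 := by
      refine (gn_sub hR _ _).trans (max_le ?_ (gn_one R).le)
      rw [gn_mul hR, gn_pow hR]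
      exact mul_le_one₀ (pow_le_one₀ (gn_nonneg hR _) n1) (gn_nonneg hR _) hP
    have g2 := (le_gn hR _ (N + 1)).trans g1
    have c1 := coeff_X_pow_mul Q (N + 1) 0
    rw [zero_add] at c1
    rw [hQ, c1] at g2
    refine ⟨ν - C (Q.coeff 0 / 2) * X ^ (N + 1), by simp [n0], ?_, ?_⟩
    · refine (gn_sub hR _ _).trans (max_le n1 ?_)
      have : gn R X = R := by simpa [hR.le] using gn_X_sub hR 0
      rw [gn_mul hR, gn_C, gn_pow hR, this, norm_div, norm_two, div_one]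
      exact g2
    · have e : (ν - C (Q.coeff 0 / 2) * X ^ (N + 1)) ^ 2 * P - 1 = X ^ (N + 1) *
          (Q - 2 * C (Q.coeff 0 / 2) * ν * P + C (Q.coeff 0 / 2) ^ 2 * X ^ (N + 1) * P) := by
        linear_combination hQ
      rw [e, pow_succ X (N + 1)]
      refine mul_dvd_mul_left _ (X_dvd_iff.2 ?_)
      simp [mul_coeff_zero, n0, h0]
      ring

theorem small {r R : ℝ} (hr : 0 < r) (h : r ≤ R) {P : K[X]} {k : ℕ} (hk : X ^ k ∣ P)
    (hP : gn R P ≤ 1) : LB r (toLaurent P) ((r / R) ^ k) := by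
  have ho : LO (toLaurent P) k := by
    obtain ⟨Q, rfl⟩ := hk
    rw [map_mul, toLaurent_X_pow]
    simpa using (lo_T k).mul (lo_toL Q)
  simpa using ((lb_toL (hr.trans_le h) P).mono hP).of_ord hr h ho

theorem nu_lb {r₀ R : ℝ} (h : r₀ < R) (hR : 0 < R) {P : K[X]} (h0 : P.coeff 0 = 1)
    (hP : gn R P ≤ 1) {δ : ℝ} (hδ : 0 < δ) : ∃ ν : K[X], (P = 1 → ν = 1) ∧
      (∀ r, 0 < r → r ≤ R → LB r (toLaurent ν) 1 ∧ LB r (toLaurent P) 1 ∧
        LB r (toLaurent ν - 1) (r / R)) ∧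
      ∀ r, 0 < r → r ≤ r₀ → LB r (toLaurent ν ^ 2 * toLaurent P - 1) δ := by
  by_cases h1 : P = 1
  · refine ⟨1, fun _ => rfl, fun r hr _ => ?_, fun r hr _ => ?_⟩
    · simp only [h1, map_one, sub_self]
      exact ⟨lb_one hr, lb_one hr, fun n => by simpa using (div_pos hr hR).le⟩
    · simp only [h1, map_one, one_pow, mul_one, sub_self]
      exact fun n => by simpa using hδ.le
  obtain ⟨N, hN⟩ := exists_pow_lt_of_lt_one hδ ((div_lt_one hR).2 h)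
  obtain ⟨ν, n0, n1, hd⟩ := nu_exists hR h0 hP N
  refine ⟨ν, fun h => absurd h h1, fun r hr hl => ⟨?_, ?_, ?_⟩, fun r hr hl => ?_⟩
  · simpa using small hr hl (k := 0) (by simp) n1
  · simpa using small hr hl (k := 0) (by simp) hP
  · simpa using small hr hl (k := 1) (P := ν - 1) (by simp [X_dvd_iff, n0])
      ((gn_sub hR _ _).trans (max_le n1 (gn_one R).le))
  · have := small hr (hl.trans h.le) hd (by
      refine (gn_sub hR _ _).trans (max_le ?_ (gn_one R).le)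
      rw [gn_mul hR, gn_pow hR]
      exact mul_le_one₀ (pow_le_one₀ (gn_nonneg hR _) n1) (gn_nonneg hR _) hP)
    simp only [map_sub, map_mul, map_pow, map_one] at this
    refine this.mono (le_trans ?_ hN.le)
    refine (pow_le_pow_of_le_one (by positivity) ((div_le_one hR).2 (hl.trans h.le))
      (Nat.le_succ N)).trans ?_
    gcongr

/-- Factorisation of `f` relative to an annulus, or to a disc when `d` holds. -/
def Fac (f : K[X]) (fm : LP) (R₁ R₂ : ℝ) (d : Prop) : Prop :=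
  ∃ (c : K) (Po Pi : K[X]), toLaurent f =
      .C c * fm * (toLaurent Po * LaurentPolynomial.invert (toLaurent Pi)) ∧
    Po.coeff 0 = 1 ∧ Pi.coeff 0 = 1 ∧ gn R₂ Po ≤ 1 ∧ gn R₁⁻¹ Pi ≤ 1 ∧ (d → Pi = 1)

/-- The properties of an approximate inverse square root that are used later. -/
def Mu (μ : LP) (R₁ R₂ : ℝ) (d : Prop) : Prop :=
  LB R₂ μ 1 ∧ LB R₁ μ 1 ∧ ‖μ.coeff 0 - 1‖ < 1 ∧ (d → LO μ 0)

theorem cons_bd {r δ c₀ cf : ℝ} (hr : 0 < r) {c : K} {fm U μ ψ G : LP} (hU : LB r U 1)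
    (hμ : LB r μ 1) (he : LB r (μ ^ 2 * U - 1) δ) (hf : LB r fm cf) (hψ : LB r ψ c₀)
    (hG : LB r G c₀) (h : Lop fm ψ = G * μ) :
    LB r (Lop (.C c * fm * U) (ψ * μ) - .C c * G) (‖c‖ * (max 1 cf * c₀ * δ)) := by
  have δ0 := he.nonneg hr
  have c0 := hψ.nonneg hr
  have l1 : LB r (Lop U μ) 1 :=
    (by simpa using ((lb_two hr).mul hr hU).mul hr (hμ.th hr) : LB r (2 * U * thP μ) 1).add hr
      (by simpa using (hU.th hr).mul hr hμ)
  have e1 : Lop U μ = U * μ * thP (μ ^ 2 * U - 1) - (μ ^ 2 * U - 1) * Lop U μ := by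
    simp only [Lop, map_sub, Derivation.leibniz, Derivation.leibniz_pow, Derivation.map_one_eq_zero,
      smul_eq_mul, nsmul_eq_mul]
    push_cast
    ring
  have l2 : LB r (Lop U μ) δ := by
    rw [e1]
    exact (by simpa using (hU.mul hr hμ).mul hr (he.th hr) : LB r (U * μ * thP _) δ).sub hr
      (by simpa using he.mul hr l1)
  have e2 : Lop (.C c * fm * U) (ψ * μ) - .C c * G =
      .C c * (G * (μ ^ 2 * U - 1) + fm * ψ * Lop U μ) := by
    simp only [Lop, Derivation.leibniz, thP_C, smul_eq_mul] at h ⊢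
    linear_combination (LaurentPolynomial.C c * U * μ) * h
  rw [e2]
  refine (lb_C hr c).mul hr (LB.add hr ((hG.mul hr he).mono ?_) (((hf.mul hr hψ).mul hr l2).mono ?_))
  · have := le_max_left 1 cf
    nlinarith [mul_nonneg c0 δ0]
  · gcongr
    exact le_max_right _ _

theorem relation {κ : Type} [Fintype κ] (s : κ → Sol f x) (hf : f.natDegree = 8)
    (hx : ∀ i, x i ≠ 0) {fm : LP} {R₁ r₁ r₂ R₂ : ℝ} {d : Prop} (hF : Fac f fm R₁ R₂ d)
    (h0 : 0 < R₁) (h1 : R₁ < r₁) (h2 : r₁ ≤ r₂) (h3 : r₂ < R₂) (hx2 : ∀ i, ‖x i‖ ≤ r₂)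
    (ho : ∀ j, gn r₂ ((s j).B ^ 2 * f) < gn r₂ (den x (s j).e) ^ 2)
    (hi : ¬ d → (∀ i, r₁ ≤ ‖x i‖) ∧ ∀ j, gn r₁ ((s j).B ^ 2 * f) < gn r₁ (den x (s j).e) ^ 2)
    (c₀ : ℝ) {ε : ℝ} (hε : 0 < ε) : ∃ μ, Mu μ R₁ R₂ d ∧ ∀ (ψ : LP) (g : K[X]), g.natDegree ≤ 2 →
      LB r₂ ψ c₀ → LB r₂ (xg g) c₀ → (d → LO ψ 0) → (¬ d → LB r₁ ψ c₀) → Lop fm ψ = xg g * μ →
      ∀ j, ‖∑ i, (s j).W i * (pv (x i) ψ * pv (x i) μ)‖ < ε := by
  have p1 : 0 < r₁ := h0.trans h1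
  have p2 : 0 < r₂ := p1.trans_le h2
  have p3 : 0 < R₂ := p2.trans h3
  have hR : R₁ ≤ R₂ := by linarith
  have key : ∀ j, ∃ c, 0 ≤ c ∧ ∀ (φ : LP) (g : K[X]) (δ : ℝ), g.natDegree ≤ 2 →
      LB r₂ (Lop (toLaurent f) φ - xg g) δ → (d → LO φ 0) →
      (¬ d → LB r₁ (Lop (toLaurent f) φ - xg g) δ) → ‖∑ i, (s j).W i * pv (x i) φ‖ ≤ c * δ := by
    intro j
    obtain ⟨c, c0, hc⟩ := out_rel (s j) hf p2 hx2 (ho j)
    by_cases hd : d
    · refine ⟨c, c0, fun φ g δ hg hE hφ _ => ?_⟩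
      rw [← res_sum _ hx, in_zero _ hx (hφ hd), sub_zero]
      exact hc φ g δ hg hE
    · obtain ⟨c', c0', hc'⟩ := in_rel (s j) p1 (hi hd).1 ((hi hd).2 j)
      refine ⟨c + c', by positivity, fun φ g δ hg hE _ hE' => ?_⟩
      rw [← res_sum _ hx, add_mul]
      exact (norm_sub_le _ _).trans (add_le_add (hc φ g δ hg hE) (hc' φ g δ hg (hE' hd)))
  choose cc cc0 hcc using key
  obtain ⟨c, Po, Pi, hfac, o0, i0, o1, i1, hd⟩ := hF
  obtain ⟨cf1, hf1⟩ := lb_exists p1 fm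
  obtain ⟨cf2, hf2⟩ := lb_exists p2 fm
  set M := ‖c‖ * (max 1 (max cf1 cf2) * |c₀|) with hM
  have M0 : 0 ≤ M := by positivity
  have S0 : 0 ≤ ∑ j, cc j := Finset.sum_nonneg fun j _ => cc0 j
  obtain ⟨δ, δ0, δ1, hδ⟩ : ∃ δ, 0 < δ ∧ δ ≤ 1 ∧ (∑ j, cc j) * M * δ < ε := by
    refine ⟨min 1 (ε / ((∑ j, cc j) * M + 1)), by positivity, min_le_left _ _, ?_⟩
    refine lt_of_le_of_lt (mul_le_mul_of_nonneg_left (min_le_right _ _) (by positivity)) ?_
    rw [← mul_div_assoc, div_lt_iff₀ (by positivity)]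
    nlinarith
  obtain ⟨νo, -, a1, a2⟩ := nu_lb h3 p3 o0 o1 δ0
  obtain ⟨νi, b0, b1, b2⟩ := nu_lb (r₀ := r₁⁻¹) (inv_strictAnti₀ h0 h1) (by positivity) i0 i1 δ0
  have m1 : ∀ r, R₁ ≤ r → r ≤ R₂ →
      LB r (toLaurent νo * LaurentPolynomial.invert (toLaurent νi)) 1 ∧
      LB r (toLaurent Po * LaurentPolynomial.invert (toLaurent Pi)) 1 := by
    intro r l1 l2
    have hr := h0.trans_le l1
    have k1 := a1 r hr l2
    have k2 := b1 r⁻¹ (by positivity) (inv_anti₀ h0 l1)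
    exact ⟨by simpa using k1.1.mul hr k2.1.invert, by simpa using k1.2.1.mul hr k2.2.1.invert⟩
  have m2 : ∀ r, r₁ ≤ r → r ≤ r₂ → ∀ ψ G cf, LB r fm cf → cf ≤ max cf1 cf2 → LB r ψ c₀ → LB r G c₀ →
      Lop fm ψ = G * (toLaurent νo * LaurentPolynomial.invert (toLaurent νi)) →
      LB r (Lop (toLaurent f) (ψ * (toLaurent νo * LaurentPolynomial.invert (toLaurent νi))) -
        .C c * G) (M * δ) := by
    intro r l1 l2 ψ G cf hcf hl hψ hG hL
    have hr := p1.trans_le l1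
    have k := m1 r (by linarith) (by linarith)
    have k1 := a2 r hr l2
    have k2 := (b2 r⁻¹ (by positivity) (inv_anti₀ p1 l1)).invert
    simp only [map_sub, map_mul, map_pow, map_one] at k2
    have k3 := (k1.mul hr k2).mono (mul_le_of_le_one_left δ0.le δ1)
    have := cons_bd hr (c := c) k.2 k.1 (δ := δ)
      (by convert (k1.add hr k2).add hr k3 using 1; ring) (hcf.mono hl) hψ hG hL
    rw [hfac]
    refine this.mono (le_of_eq ?_)
    rw [hM, abs_of_nonneg (hψ.nonneg hr)]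
    ring
  refine ⟨toLaurent νo * LaurentPolynomial.invert (toLaurent νi), ⟨(m1 _ hR le_rfl).1,
    (m1 _ le_rfl hR).1, ?_, fun h => ?_⟩, fun ψ g hg hψ hG hψ0 hψ1 hL j => ?_⟩
  · have k1 := a1 r₂ p2 h3.le
    have k2 := b1 r₂⁻¹ (by positivity) (inv_anti₀ h0 (by linarith))
    have k3 := k2.2.2.invert
    simp only [map_sub, map_one] at k3
    have k4 := ((k1.2.2.mul p2 k2.1.invert).mono (le_max_left _ _)).add p2
      (k3.mono (le_max_right _ _)) 0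
    rw [sub_mul, one_mul, sub_add_sub_cancel] at k4
    have k5 : max (r₂ / R₂ * 1) (r₂⁻¹ / R₁⁻¹) < 1 := max_lt (by rwa [mul_one, div_lt_one p3])
      (by rw [div_lt_one (by positivity)]; exact inv_strictAnti₀ h0 (by linarith))
    refine lt_of_le_of_lt (le_trans (le_of_eq ?_) k4) k5
    simp
  · rw [b0 (hd h)]
    simpa using lo_toL νo
  · have e : xg (C c * g) = .C c * xg g := by simp only [xg, map_mul, toLaurent_C]; ring
    have := hcc j _ (C c * g) (M * δ) ((natDegree_C_mul_le _ _).trans hg)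
      (e ▸ m2 r₂ h2 le_rfl ψ _ _ hf2 (le_max_right _ _) hψ hG hL)
      (fun h => by
        rw [b0 (hd h)]
        simpa using (hψ0 h).mul (lo_toL νo))
      (fun h => e ▸ m2 r₁ le_rfl h2 ψ _ _ hf1 (le_max_left _ _) (hψ1 h) (by
        have o : LO (xg g) 0 := fun n hn => (lo_T 1).mul (lo_toL g) n (by omega)
        simpa using hG.of_ord p1 h2 o) hL)
    simp only [pv_mul (hx _) ψ] at this
    refine this.trans_lt (lt_of_le_of_lt ?_ hδ)
    rw [mul_assoc (∑ j, cc j)]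
    exact mul_le_mul_of_nonneg_right
      (Finset.single_le_sum (fun j _ => cc0 j) (Finset.mem_univ j)) (by positivity)

end Pool.Agent.MP_8d06cc_nt.H27
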