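import Pool.Agent.MP_8d06cc_nt.H27.Ann

/-! Newton polygon facts, factorisations and the smallness conditions on boundary circles. -/

namespace Pool.Agent.MP_8d06cc_nt.H27

open Polynomial Finset

section
variable {ι : Type} (β : ι → K) {r : ℝ}

theorem gn_rts_pos (hr : 0 < r) (S : Finset ι) : 0 < gn r (∏ i ∈ S, (X - C (β i))) := by
  rw [gn_prod hr]
  exact prod_pos fun i _ => by rw [gn_X_sub hr]; exact lt_max_of_lt_left hr

theorem step_lt {P : K[X]} {b : K} {j : ℕ} {c : ℝ} (hr : 0 < r)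
    (h1 : ‖(X * P).coeff j‖ * r ^ j < c) (h2 : ‖b‖ * (‖P.coeff j‖ * r ^ j) < c) :
    ‖((X - C b) * P).coeff j‖ * r ^ j < c := by
  rw [sub_mul, coeff_sub, Polynomial.coeff_C_mul, ← lt_div_iff₀ (by positivity)]
  exact norm_sub_lt' ((lt_div_iff₀ (by positivity)).2 h1)
    ((lt_div_iff₀ (by positivity)).2 (by rwa [norm_mul, mul_assoc]))

theorem step_eq1 {P : K[X]} {b : K} {j : ℕ} {c : ℝ} (hr : 0 < r)
    (h1 : ‖(X * P).coeff j‖ * r ^ j = c) (h2 : ‖b‖ * (‖P.coeff j‖ * r ^ j) < c) :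
    ‖((X - C b) * P).coeff j‖ * r ^ j = c := by
  rw [← h1, sub_mul, coeff_sub, Polynomial.coeff_C_mul, norm_eq_of_sub_lt]
  rw [sub_sub_cancel_left, norm_neg, norm_mul]
  exact lt_of_mul_lt_mul_right (by rwa [h1, mul_assoc]) (pow_pos hr j).le

theorem step_eq2 {P : K[X]} {b : K} {j : ℕ} {c : ℝ} (hr : 0 < r)
    (h1 : ‖(X * P).coeff j‖ * r ^ j < c) (h2 : ‖b‖ * (‖P.coeff j‖ * r ^ j) = c) :
    ‖((X - C b) * P).coeff j‖ * r ^ j = c := by
  rw [← h2, sub_mul, coeff_sub, Polynomial.coeff_C_mul, norm_sub_rev, norm_eq_of_sub_lt, norm_mul,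
    mul_assoc]
  rw [sub_sub_cancel_left, norm_neg, norm_mul]
  exact lt_of_mul_lt_mul_right (by rwa [mul_assoc, h2]) (pow_pos hr j).le

theorem xc (P : K[X]) (j : ℕ) :
    ‖(X * P).coeff (j + 1)‖ * r ^ (j + 1) = r * (‖P.coeff j‖ * r ^ j) := by
  rw [coeff_X_mul]; ring

theorem xc_lt (hr : 0 < r) {P : K[X]} {j : ℕ} {c G : ℝ} (hc : r * G ≤ c) (G0 : 0 < G)
    (h : ∀ i, i + 1 = j → ‖P.coeff i‖ * r ^ i < G) : ‖(X * P).coeff j‖ * r ^ j < c := by
  rcases j with _ | j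
  · simpa using (mul_pos hr G0).trans_le hc
  · rw [xc]; exact (mul_lt_mul_of_pos_left (h j rfl) hr).trans_le hc

open Classical in
theorem top_lem (hr : 0 < r) (S : Finset ι) :
    ‖(∏ i ∈ S, (X - C (β i))).coeff #{i ∈ S | ‖β i‖ ≤ r}‖ * r ^ #{i ∈ S | ‖β i‖ ≤ r} =
      gn r (∏ i ∈ S, (X - C (β i))) ∧ ∀ j, #{i ∈ S | ‖β i‖ ≤ r} < j →
      ‖(∏ i ∈ S, (X - C (β i))).coeff j‖ * r ^ j < gn r (∏ i ∈ S, (X - C (β i))) := by
  induction S using Finset.induction_on with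
  | empty => exact ⟨by simp [gn_one], fun j hj => by
      simp [gn_one, coeff_one, show j ≠ 0 by omega]⟩
  | insert a S ha ih =>
    obtain ⟨h1, h2⟩ := ih
    have G0 := gn_rts_pos β hr S
    have hl := le_gn hr (∏ i ∈ S, (X - C (β i)))
    rw [prod_insert ha, gn_mul hr, gn_X_sub hr, filter_insert]
    split_ifs with h
    · rw [card_insert_of_notMem (by simp [ha]), max_eq_left h]
      have v : ∀ j, #{i ∈ S | ‖β i‖ ≤ r} < j → ‖β a‖ * (‖(∏ i ∈ S, (X - C (β i))).coeff j‖ * r ^ j) <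
          r * gn r (∏ i ∈ S, (X - C (β i))) := fun j hj =>
        (mul_le_mul_of_nonneg_right h (by positivity)).trans_lt (mul_lt_mul_of_pos_left (h2 j hj) hr)
      exact ⟨step_eq1 hr (by rw [xc, h1]) (v _ (by omega)), fun j hj =>
        step_lt hr (xc_lt hr le_rfl G0 fun i hi => h2 i (by omega)) (v j (by omega))⟩
    · have h := not_le.1 h
      rw [max_eq_right h.le]
      have u : ∀ j, ‖(X * ∏ i ∈ S, (X - C (β i))).coeff j‖ * r ^ j <
          ‖β a‖ * gn r (∏ i ∈ S, (X - C (β i))) := fun j => by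
        refine lt_of_le_of_lt ?_ (mul_lt_mul_of_pos_right h G0)
        rcases j with _ | j
        · simpa using (mul_pos hr G0).le
        · rw [xc]; exact mul_le_mul_of_nonneg_left (hl j) hr.le
      exact ⟨step_eq2 hr (u _) (by rw [h1]), fun j hj =>
        step_lt hr (u j) (mul_lt_mul_of_pos_left (h2 j hj) (hr.trans h))⟩

open Classical in
theorem bot_lem (hr : 0 < r) (S : Finset ι) :
    ‖(∏ i ∈ S, (X - C (β i))).coeff #{i ∈ S | ‖β i‖ < r}‖ * r ^ #{i ∈ S | ‖β i‖ < r} =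
      gn r (∏ i ∈ S, (X - C (β i))) ∧ ∀ j, j < #{i ∈ S | ‖β i‖ < r} →
      ‖(∏ i ∈ S, (X - C (β i))).coeff j‖ * r ^ j < gn r (∏ i ∈ S, (X - C (β i))) := by
  induction S using Finset.induction_on with
  | empty => exact ⟨by simp [gn_one], fun j hj => by simp at hj⟩
  | insert a S ha ih =>
    obtain ⟨h1, h2⟩ := ih
    have G0 := gn_rts_pos β hr S
    have hl := le_gn hr (∏ i ∈ S, (X - C (β i)))
    rw [prod_insert ha, gn_mul hr, gn_X_sub hr, filter_insert]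
    split_ifs with h
    · rw [card_insert_of_notMem (by simp [ha]), max_eq_left h.le]
      have v : ∀ j, ‖β a‖ * (‖(∏ i ∈ S, (X - C (β i))).coeff j‖ * r ^ j) <
          r * gn r (∏ i ∈ S, (X - C (β i))) := fun j =>
        (mul_le_mul_of_nonneg_left (hl j) (norm_nonneg _)).trans_lt (mul_lt_mul_of_pos_right h G0)
      exact ⟨step_eq1 hr (by rw [xc, h1]) (v _), fun j hj =>
        step_lt hr (xc_lt hr le_rfl G0 fun i hi => h2 i (by omega)) (v j)⟩
    · have h := not_lt.1 h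
      rw [max_eq_right h]
      have u : ∀ j, j ≤ #{i ∈ S | ‖β i‖ < r} → ‖(X * ∏ i ∈ S, (X - C (β i))).coeff j‖ * r ^ j <
          ‖β a‖ * gn r (∏ i ∈ S, (X - C (β i))) := fun j hj =>
        xc_lt hr (mul_le_mul_of_nonneg_right h G0.le) G0 fun i hi => h2 i (by omega)
      exact ⟨step_eq2 hr (u _ le_rfl) (by rw [h1]), fun j hj =>
        step_lt hr (u j hj.le) (mul_lt_mul_of_pos_left (h2 j hj) (hr.trans_le h))⟩

theorem rts_props (S : Finset ι) : (∏ i ∈ S, (X - C (β i))).natDegree ≤ #S ∧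
    (∏ i ∈ S, (X - C (β i))).coeff #S = 1 ∧
    ((∀ i ∈ S, ‖β i‖ ≤ 1) → gn 1 (∏ i ∈ S, (X - C (β i))) ≤ 1) ∧
    ((∀ i ∈ S, ‖β i‖ = 1) → ‖(∏ i ∈ S, (X - C (β i))).coeff 0‖ = 1) := by
  have d : (∏ i ∈ S, (X - C (β i))).natDegree = #S := by
    rw [natDegree_prod_of_monic _ _ fun i _ => monic_X_sub_C _]; simp
  refine ⟨d.le, ?_, fun h => ?_, fun h => ?_⟩
  · rw [← d]; exact monic_prod_of_monic _ _ fun i _ => monic_X_sub_C _
  · rw [gn_prod one_pos]
    exact prod_le_one (fun i _ => gn_nonneg one_pos _) fun i hi => by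
      rw [gn_X_sub one_pos]; exact max_le le_rfl (h i hi)
  · rw [coeff_zero_prod, norm_prod]
    exact prod_eq_one fun i hi => by simpa using h i hi

theorem lin_props (S : Finset ι) (a : ι → K) {R : ℝ} (hR : 0 < R) (h : ∀ i ∈ S, ‖a i‖ * R ≤ 1) :
    (∏ i ∈ S, (1 - C (a i) * X)).coeff 0 = 1 ∧ gn R (∏ i ∈ S, (1 - C (a i) * X)) ≤ 1 := by
  refine ⟨by rw [coeff_zero_prod]; simp, ?_⟩
  rw [gn_prod hR]
  refine prod_le_one (fun i _ => gn_nonneg hR _) fun i hi => (gn_sub hR _ _).trans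
    (max_le (gn_one R).le ?_)
  have : gn R X = R := by simpa [hR.le] using gn_X_sub hR 0
  rw [gn_mul hR, gn_C, this]
  exact h i hi

theorem fac_of [Fintype ι] (c : K) (p q : ι → Prop) [DecidablePred p] [DecidablePred q]
    {R₁ R₂ : ℝ} (h1 : 0 < R₁) (h2 : 0 < R₂) {d : Prop} (hp : ∀ i, p i → ‖β i‖ ≤ R₁)
    (hq : ∀ i, ¬ p i → ¬ q i → R₂ ≤ ‖β i‖) (hd : d → ∀ i, ¬ p i) :
    Fac (C c * ∏ i, (X - C (β i)))
      (.T #{i | p i} * toLaurent (∏ i with ¬ p i ∧ q i, (X - C (β i)))) R₁ R₂ d := by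
  have o := lin_props {i | ¬ p i ∧ ¬ q i} (fun i => (β i)⁻¹) h2 fun i hi => by
    have := mem_filter.1 hi
    have := hq i this.2.1 this.2.2
    rwa [norm_inv, inv_mul_le_one₀ (h2.trans_le this)]
  have n := lin_props {i | p i} β (inv_pos.2 h1) fun i hi => by
    rw [mul_inv_le_iff₀ h1, one_mul]; exact hp i (mem_filter.1 hi).2
  refine ⟨c * ∏ i with ¬ p i ∧ ¬ q i, -β i, _, _, ?_, o.1, n.1, o.2, n.2, fun h => by
    rw [filter_false_of_mem fun i _ => hd h i, prod_empty]⟩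
  have e1 : toLaurent (∏ i with p i, (X - C (β i))) =
      .T #{i | p i} * LaurentPolynomial.invert (toLaurent (∏ i with p i, (1 - C (β i) * X))) := by
    rw [map_prod, map_prod, map_prod, ← mul_one (#{i | p i} : ℤ), ← LaurentPolynomial.T_pow,
      ← prod_const, ← prod_mul_distrib]
    refine prod_congr rfl fun i _ => ?_
    have : (LaurentPolynomial.T 1 : LP) * .T (-1) = 1 := by
      rw [← LaurentPolynomial.T_add]; simp
    simp only [map_sub, toLaurent_X, toLaurent_C, map_one, map_mul, LaurentPolynomial.invert_C,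
      LaurentPolynomial.invert_T]
    linear_combination LaurentPolynomial.C (β i) * this
  have e2 : (∏ i with ¬ p i ∧ ¬ q i, (X - C (β i))) =
      C (∏ i with ¬ p i ∧ ¬ q i, -β i) * ∏ i with ¬ p i ∧ ¬ q i, (1 - C (β i)⁻¹ * X) := by
    rw [map_prod, ← prod_mul_distrib]
    refine prod_congr rfl fun i hi => ?_
    have := mem_filter.1 hi
    have h0 : β i ≠ 0 := norm_pos_iff.1 (h2.trans_le (hq i this.2.1 this.2.2))
    have : C (β i) * C (β i)⁻¹ = 1 := by rw [← C_mul, mul_inv_cancel₀ h0, C_1]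
    rw [map_neg]
    linear_combination -X * this
  rw [← prod_filter_mul_prod_filter_not univ p, ← prod_filter_mul_prod_filter_not {i | ¬ p i} q,
    filter_filter, filter_filter, e2]
  simp only [map_mul, toLaurent_C, e1]
  ring

end

/-- Polynomials with rational coefficients. -/
def Rt (P : K[X]) : Prop := ∃ Q : ℚ[X], P = Q.map (Rat.castHom K)

theorem Rt.add {P Q : K[X]} (h : Rt P) (h' : Rt Q) : Rt (P + Q) := by
  obtain ⟨a, rfl⟩ := h
  obtain ⟨b, rfl⟩ := h'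
  exact ⟨a + b, by rw [Polynomial.map_add]⟩

theorem Rt.mul {P Q : K[X]} (h : Rt P) (h' : Rt Q) : Rt (P * Q) := by
  obtain ⟨a, rfl⟩ := h
  obtain ⟨b, rfl⟩ := h'
  exact ⟨a * b, by rw [Polynomial.map_mul]⟩

theorem Rt.neg {P : K[X]} (h : Rt P) : Rt (-P) := by
  obtain ⟨a, rfl⟩ := h
  exact ⟨-a, by rw [Polynomial.map_neg]⟩

theorem Rt.p5 {P : K[X]} (h : Rt P) {i : ℕ} (hi : P.coeff i ≠ 0) : P5 ‖P.coeff i‖ := by
  obtain ⟨a, rfl⟩ := h
  rw [coeff_map] at hi ⊢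
  exact p5_rat fun h => hi (by simp [h])

theorem Rt.gn_form {P : K[X]} (h : Rt P) {r : ℝ} (h0 : 0 < gn r P) :
    ∃ a i, P5 a ∧ gn r P = a * r ^ i := by
  obtain ⟨i, hi⟩ := gn_eq r P
  exact ⟨_, i, h.p5 fun e => by simp [hi, e] at h0, hi⟩

theorem s_generic {a b : ℝ} {m n : ℕ} (ha : P5 a) (hb : P5 b) (h : a * s ^ m = b * s ^ n) :
    m = n := by
  wlog hl : m ≤ n generalizing a b m n
  · exact (this hb ha h.symm (by omega)).symm
  obtain ⟨d, rfl⟩ := Nat.exists_eq_add_of_le hl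
  obtain ⟨z, hz⟩ := ha.mul hb.inv
  have := s0
  have := hb.pos
  have e : (5 : ℝ) ^ z = s ^ d := by
    rw [← hz, mul_inv_eq_iff_eq_mul₀ hb.pos.ne']
    rw [pow_add] at h
    refine mul_right_cancel₀ (pow_pos s0 m).ne' (h.trans (by ring))
  rcases d with _ | d
  · rfl
  exfalso
  rw [s, div_pow, eq_div_iff (by positivity)] at e
  obtain ⟨k, rfl | rfl⟩ := z.eq_nat_or_neg
  · have : 5 ^ k * 15 ^ (d + 1) = 16 ^ (d + 1) := by exact_mod_cast e
    have := congrArg (· % 2) this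
    simp [Nat.mul_mod, Nat.pow_mod] at this
  · rw [zpow_neg, inv_mul_eq_iff_eq_mul₀ (by positivity)] at e
    have : 15 ^ (d + 1) = 5 ^ k * 16 ^ (d + 1) := by exact_mod_cast e
    have := congrArg (· % 2) this
    simp [Nat.mul_mod, Nat.pow_mod] at this

variable {f : K[X]} {ι : Type} [Fintype ι] {x : ι → K}

theorem gn_den_out {r : ℝ} (hr : 0 < r) (hx : ∀ i, ‖x i‖ ≤ r) (e : ι → ℕ) :
    gn r (den x e) = r ^ ∑ i, e i := by
  rw [gn_den hr, ← prod_pow_eq_pow_sum]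
  exact prod_congr rfl fun i _ => by rw [max_eq_left (hx i)]

theorem rho_odd (σ : Sol f x) (hA : Rt σ.A) (hB : Rt σ.B) (hx : ∀ i, ‖x i‖ ≤ 1) {c : ℝ} {k : ℕ}
    (hc : P5 c) (hk : gn s f = c * s ^ (2 * k + 1)) :
    gn s (σ.B ^ 2 * f) < gn s (den x σ.e) ^ 2 := by
  by_contra h
  have h := not_lt.1 h
  have d := gn_den_pos (x := x) s0 σ.e
  have u : gn s (σ.B ^ 2 * f) = gn s σ.B ^ 2 * (c * s ^ (2 * k + 1)) := by
    rw [gn_mul s0, gn_pow s0, hk]
  have b0 : 0 < gn s σ.B := by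
    refine (gn_nonneg s0 _).lt_of_ne fun e => ?_
    rw [u, ← e] at h
    nlinarith
  obtain ⟨b, j, hb, hj⟩ := hB.gn_form b0
  have u2 : gn s (σ.B ^ 2 * f) = b ^ 2 * c * s ^ (2 * (j + k) + 1) := by rw [u, hj]; ring
  have pb := (hb.pow 2).mul hc
  have h2 : gn s (den x σ.e) ^ 2 < gn s (σ.B ^ 2 * f) := h.lt_of_ne fun e => by
    rw [u2, gn_den_out s0 fun i => (hx i).trans s1.le, ← pow_mul, ← one_mul (s ^ _)] at e
    have := s_generic P5.one pb e
    omega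
  have e1 : gn s σ.A ^ 2 = gn s (σ.B ^ 2 * f) := by
    rw [← gn_pow s0] at h2 ⊢
    apply le_antisymm
    · rw [show σ.A ^ 2 = σ.B ^ 2 * f + den x σ.e ^ 2 by linear_combination σ.pell]
      exact (gn_add s0 _ _).trans (max_le le_rfl h2.le)
    · have := gn_sub s0 (σ.A ^ 2) (den x σ.e ^ 2)
      rw [show σ.A ^ 2 - den x σ.e ^ 2 = σ.B ^ 2 * f by linear_combination σ.pell] at this
      exact (le_max_iff.1 this).resolve_right h2.not_ge
  have a0 : 0 < gn s σ.A := by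
    refine (gn_nonneg s0 _).lt_of_ne fun e => ?_
    rw [← e1, ← e] at h2
    nlinarith
  obtain ⟨a, i, ha, hi⟩ := hA.gn_form a0
  rw [hi, u2, mul_pow, ← pow_mul] at e1
  have := s_generic (ha.pow 2) pb e1
  omega

theorem rho_out (σ : Sol f x) {r : ℝ} (hr : 0 < r) (hb : σ.Bdd r) (hx : ∀ i, ‖x i‖ ≤ r) {β : K}
    (hβ : f.IsRoot β) (h : r * s ≤ ‖β‖) :
    gn (r * s) (σ.B ^ 2 * f) < gn (r * s) (den x σ.e) ^ 2 := by
  have := s0
  have l : r ≤ r * s := le_mul_of_one_le_right hr.le s1.le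
  have p : 0 < r * s := by positivity
  by_cases h0 : σ.B ^ 2 * f = 0
  · rw [h0, gn_zero]; exact pow_pos (gn_den_pos p _) 2
  obtain ⟨Q, hQ⟩ := (dvd_iff_isRoot.2 hβ).mul_left (σ.B ^ 2)
  have d := σ.degP
  have g := hb.gnP hr
  rw [hQ] at d g h0 ⊢
  rw [natDegree_mul (X_sub_C_ne_zero β) (right_ne_zero_of_mul h0), natDegree_X_sub_C] at d
  obtain ⟨m, hm⟩ : ∃ m, 2 * ∑ i, σ.e i = m + 1 := ⟨2 * ∑ i, σ.e i - 1, by omega⟩
  have u := gn_up (P := Q) hr l (n := m) (by omega)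
  rw [gn_mul hr, gn_X_sub hr, max_eq_right (l.trans h), gn_den_out hr hx, ← pow_mul, mul_comm _ 2,
    hm] at g
  rw [gn_mul p, gn_X_sub p, max_eq_right h, gn_den_out p fun i => (hx i).trans l, ← pow_mul,
    mul_comm _ 2, hm]
  rw [mul_div_cancel_left₀ _ hr.ne'] at u
  calc _ ≤ ‖β‖ * gn r Q * s ^ m := by rw [mul_assoc]; gcongr
    _ ≤ r ^ (m + 1) * s ^ m := by gcongr
    _ < _ := by rw [mul_pow]; gcongr; exacts [s1, Nat.lt_succ_self m]

theorem rho_in (σ : Sol f x) {r : ℝ} (hr : 0 < r) (hb : σ.Bdd r) (hx : ∀ i, r ≤ ‖x i‖) {β : K}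
    (hβ : f.IsRoot β) (h : ‖β‖ ≤ r / s) :
    gn (r / s) (σ.B ^ 2 * f) < gn (r / s) (den x σ.e) ^ 2 := by
  have := s0
  have l : r / s < r := div_lt_self hr s1
  have p : 0 < r / s := by positivity
  obtain ⟨Q, hQ⟩ := (dvd_iff_isRoot.2 hβ).mul_left (σ.B ^ 2)
  have g := hb.gnP hr
  have e : gn (r / s) (den x σ.e) = gn r (den x σ.e) := by
    rw [gn_den p, gn_den hr]
    exact prod_congr rfl fun i _ => by rw [max_eq_right (hx i), max_eq_right (l.le.trans (hx i))]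
  have d := pow_pos (gn_den_pos (x := x) hr σ.e) 2
  rw [hQ, gn_mul hr, gn_X_sub hr, max_eq_left (h.trans l.le)] at g
  rw [e, hQ, gn_mul p, gn_X_sub p, max_eq_left h]
  calc _ ≤ r * gn r Q / s := by
        rw [div_mul_eq_mul_div]; gcongr; exact gn_mono p l.le Q
    _ ≤ gn r (den x σ.e) ^ 2 / s := by gcongr
    _ < _ := div_lt_self d s1

theorem p5_max {r : ℝ} (hr : P5 r) (q : ℚ) : P5 (max r ‖(q : K)‖) := by
  by_cases h : q = 0
  · simpa [h, hr.pos.le] using hr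
  rcases max_choice r ‖(q : K)‖ with e | e <;> rw [e]
  exacts [hr, p5_rat h]

theorem disc_of {r : ℝ} (hr : P5 r) (hx : ∀ i, P5 (max r ‖x i‖)) (σ : Sol f x) (hA : Rt σ.A)
    (h : ¬ σ.Bdd r) : 5 * gn r (den x σ.e) ≤ gn r σ.A := by
  have h := not_le.1 h
  obtain ⟨a, i, ha, hi⟩ := hA.gn_form ((gn_den_pos hr.pos _).trans h)
  refine P5.gap ?_ (hi ▸ ha.mul (hr.pow i)) h
  rw [gn_den hr.pos]
  exact prod_induction _ P5 (fun _ _ => P5.mul) P5.one fun i _ => (hx i).pow _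

end Pool.Agent.MP_8d06cc_nt.H27
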