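import Mathlib

/-! The field `K`, Laurent series over it, coefficient bounds and the Euler derivation. -/

namespace Pool.Agent.MP_8d06cc_nt.H27

instance fact5 : Fact (Nat.Prime 5) := ⟨Nat.prime_five⟩

/-- An algebraically closed field with an ultrametric norm extending the 5-adic norm. -/
structure Pack where
  K : Type
  [nf : NormedField K]
  [um : IsUltrametricDist K]
  [ac : IsAlgClosed K]
  [cz : CharZero K]
  norm_rat : ∀ q : ℚ, ‖(q : K)‖ = (padicNorm 5 q : ℝ)

theorem pack_nonempty : Nonempty Pack := ⟨Pack.mk (PadicAlgCl 5) fun q => by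
  rw [← map_ratCast (algebraMap ℚ_[5] (PadicAlgCl 5))]
  exact (PadicAlgCl.norm_extends 5 (q : ℚ_[5])).trans (Padic.eq_padicNorm q)⟩

/-- The chosen field. -/
noncomputable def pack : Pack := Classical.choice pack_nonempty

/-- The field of constants. -/
def K : Type := pack.K

noncomputable instance : NormedField K := pack.nf
instance : IsUltrametricDist K := pack.um
instance : IsAlgClosed K := pack.ac
instance : CharZero K := pack.cz

theorem norm_rat (q : ℚ) : ‖(q : K)‖ = (padicNorm 5 q : ℝ) := pack.norm_rat q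

theorem norm_int_le (n : ℤ) : ‖(n : K)‖ ≤ 1 := IsUltrametricDist.norm_intCast_le_one K n

theorem norm_nat_le (n : ℕ) : ‖(n : K)‖ ≤ 1 := IsUltrametricDist.norm_natCast_le_one K n

theorem norm_five : ‖(5 : K)‖ = 1 / 5 := by
  have := norm_rat 5
  have h2 : padicNorm 5 (5 : ℚ) = 5⁻¹ := by simpa using padicNorm.padicNorm_p_of_prime (p := 5)
  rw [h2] at this
  simpa using this

theorem norm_int_lt_iff (n : ℤ) : ‖(n : K)‖ < 1 ↔ (5 : ℤ) ∣ n := by
  have := norm_rat n
  rw [Rat.cast_intCast] at this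
  rw [this]
  exact_mod_cast padicNorm.int_lt_one_iff (p := 5) n

theorem norm_int_eq (n : ℤ) (h : ¬ (5 : ℤ) ∣ n) : ‖(n : K)‖ = 1 :=
  le_antisymm (norm_int_le n) (not_lt.1 fun h' => h ((norm_int_lt_iff n).1 h'))

theorem norm_two : ‖(2 : K)‖ = 1 := by simpa using norm_int_eq 2 (by norm_num)

/-- Integer powers of five. -/
def P5 (x : ℝ) : Prop := ∃ n : ℤ, x = 5 ^ n

theorem P5.pos {x : ℝ} (h : P5 x) : 0 < x := by obtain ⟨n, rfl⟩ := h; positivity

theorem P5.mul {x y : ℝ} (h : P5 x) (h' : P5 y) : P5 (x * y) := by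
  obtain ⟨n, rfl⟩ := h
  obtain ⟨m, rfl⟩ := h'
  exact ⟨n + m, by rw [zpow_add₀ (by norm_num)]⟩

theorem P5.inv {x : ℝ} (h : P5 x) : P5 x⁻¹ := by
  obtain ⟨n, rfl⟩ := h
  exact ⟨-n, by rw [zpow_neg]⟩

theorem P5.one : P5 1 := ⟨0, by simp⟩

theorem P5.five : P5 5 := ⟨1, by simp⟩

theorem P5.pow {x : ℝ} (h : P5 x) (n : ℕ) : P5 (x ^ n) := by
  induction n with
  | zero => simpa using P5.one
  | succ n ih => rw [pow_succ]; exact ih.mul h

theorem P5.gap {x y : ℝ} (h : P5 x) (h' : P5 y) (hl : x < y) : 5 * x ≤ y := by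
  obtain ⟨n, rfl⟩ := h
  obtain ⟨m, rfl⟩ := h'
  have := (zpow_lt_zpow_iff_right₀ (by norm_num : (1 : ℝ) < 5)).1 hl
  rw [mul_comm, ← zpow_add_one₀ (by norm_num)]
  exact zpow_le_zpow_right₀ (by norm_num) (by omega)

theorem p5_rat {q : ℚ} (h : q ≠ 0) : P5 ‖(q : K)‖ := by
  rw [norm_rat, padicNorm.eq_zpow_of_nonzero h]
  exact ⟨-padicValRat 5 q, by push_cast; rfl⟩

theorem norm_add_le' {x y : K} {c : ℝ} (h : ‖x‖ ≤ c) (h' : ‖y‖ ≤ c) : ‖x + y‖ ≤ c :=
  (IsUltrametricDist.norm_add_le_max x y).trans (max_le h h')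

theorem norm_add_lt' {x y : K} {c : ℝ} (h : ‖x‖ < c) (h' : ‖y‖ < c) : ‖x + y‖ < c :=
  (IsUltrametricDist.norm_add_le_max x y).trans_lt (max_lt h h')

theorem norm_sub_le' {x y : K} {c : ℝ} (h : ‖x‖ ≤ c) (h' : ‖y‖ ≤ c) : ‖x - y‖ ≤ c := by
  rw [sub_eq_add_neg]; exact norm_add_le' h (by rwa [norm_neg])

theorem norm_sub_lt' {x y : K} {c : ℝ} (h : ‖x‖ < c) (h' : ‖y‖ < c) : ‖x - y‖ < c := by
  rw [sub_eq_add_neg]; exact norm_add_lt' h (by rwa [norm_neg])

theorem norm_eq_of_sub_lt {x y : K} (h : ‖x - y‖ < ‖y‖) : ‖x‖ = ‖y‖ := by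
  have := IsUltrametricDist.norm_add_eq_max_of_norm_ne_norm (x := x - y) (y := y) h.ne
  rw [sub_add_cancel, max_eq_right h.le] at this
  exact this

theorem norm_sum_lt {ι : Type} (s : Finset ι) (f : ι → K) {c : ℝ} (hc : 0 < c)
    (h : ∀ i ∈ s, ‖f i‖ < c) : ‖∑ i ∈ s, f i‖ < c := by
  classical
  induction s using Finset.induction_on with
  | empty => simpa using hc
  | insert a s ha ih =>
    rw [Finset.sum_insert ha]
    exact norm_add_lt' (h a (by simp)) (ih fun i hi => h i (by simp [hi]))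

/-- Laurent series. -/
abbrev L : Type := HahnSeries ℤ K

noncomputable instance algL : Algebra K L := HahnSeries.instAlgebra

instance : CharZero L := charZero_of_injective_algebraMap (algebraMap K L).injective

theorem algL_eq (a : K) : algebraMap K L a = HahnSeries.single 0 a := rfl

/-- The Euler operator as a linear map. -/
noncomputable def thL : L →ₗ[K] L where
  toFun u := ⟨fun m => (m : K) * u.coeff m, u.isPWO_support.mono fun m hm => by
    simp only [Function.mem_support, ne_eq, mul_eq_zero, not_or] at hm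
    exact hm.2⟩
  map_add' u v := by ext m; simp [mul_add]
  map_smul' c u := by ext m; simp [mul_left_comm]

theorem thL_coeff (u : L) (m : ℤ) : (thL u).coeff m = (m : K) * u.coeff m := rfl

/-- The Euler derivation `t d/dt`. -/
noncomputable def th : Derivation K L L := Derivation.mk' thL fun u v => by
  have su : ∀ w : L, (thL w).support ⊆ w.support := fun w m hm => by
    simp only [HahnSeries.mem_support, thL_coeff, ne_eq, mul_eq_zero, not_or] at hm ⊢
    exact hm.2
  ext m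
  rw [smul_eq_mul, smul_eq_mul, mul_comm v, HahnSeries.coeff_add,
    HahnSeries.coeff_mul_right' v.isPWO_support (su v),
    HahnSeries.coeff_mul_left' u.isPWO_support (su u), thL_coeff, HahnSeries.coeff_mul,
    Finset.mul_sum, ← Finset.sum_add_distrib]
  refine Finset.sum_congr rfl fun ij hij => ?_
  have := (Finset.mem_antidiagonal.1 hij).2.2
  rw [thL_coeff, thL_coeff, ← this]
  push_cast
  ring

theorem th_coeff (u : L) (m : ℤ) : (th u).coeff m = (m : K) * u.coeff m := rfl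

/-- Bound on the circle of radius `τ`. -/
def Bd (τ : ℝ) (u : L) (c : ℝ) : Prop := ∀ m : ℤ, ‖u.coeff m‖ * τ ^ m ≤ c

/-- Order at least `o`. -/
def Ord (u : L) (o : ℤ) : Prop := ∀ m < o, u.coeff m = 0

section
variable {τ : ℝ} {u v : L} {c d : ℝ}

theorem Bd.nonneg (hτ : 0 < τ) (h : Bd τ u c) : 0 ≤ c := le_trans (by positivity) (h 0)

theorem Bd.mono (h : Bd τ u c) (hc : c ≤ d) : Bd τ u d := fun m => (h m).trans hc

theorem bd_iff (hτ : 0 < τ) : Bd τ u c ↔ ∀ m, ‖u.coeff m‖ ≤ c / τ ^ m :=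
  forall_congr' fun m => (le_div_iff₀ (by positivity)).symm

theorem Bd.add (hτ : 0 < τ) (h : Bd τ u c) (h' : Bd τ v c) : Bd τ (u + v) c := by
  rw [bd_iff hτ] at *
  exact fun m => by rw [HahnSeries.coeff_add]; exact norm_add_le' (h m) (h' m)

theorem Bd.neg (h : Bd τ u c) : Bd τ (-u) c := fun m => by simpa using h m

theorem Bd.sub (hτ : 0 < τ) (h : Bd τ u c) (h' : Bd τ v c) : Bd τ (u - v) c := by
  rw [sub_eq_add_neg]; exact h.add hτ h'.neg

theorem Bd.mul (hτ : 0 < τ) (h : Bd τ u c) (h' : Bd τ v d) : Bd τ (u * v) (c * d) := by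
  have hc := h.nonneg hτ
  have hd := h'.nonneg hτ
  rw [bd_iff hτ]
  intro m
  rw [HahnSeries.coeff_mul]
  refine IsUltrametricDist.norm_sum_le_of_forall_le_of_nonneg (by positivity) fun ij hij => ?_
  have := (Finset.mem_antidiagonal.1 hij).2.2
  rw [le_div_iff₀ (by positivity), ← this, zpow_add₀ hτ.ne', norm_mul, mul_mul_mul_comm]
  exact mul_le_mul (h _) (h' _) (by positivity) hc

theorem bd_single (hτ : 0 < τ) (n : ℤ) (a : K) :
    Bd τ (HahnSeries.single n a) (‖a‖ * τ ^ n) := fun m => by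
  rw [HahnSeries.coeff_single]
  split_ifs with h
  · rw [h]
  · simp only [norm_zero, zero_mul]; positivity

theorem bd_alg (hτ : 0 < τ) (a : K) : Bd τ (algebraMap K L a) ‖a‖ := by
  simpa [algL_eq] using bd_single hτ 0 a

theorem bd_one (hτ : 0 < τ) : Bd τ 1 1 := by simpa using bd_alg hτ 1

theorem bd_zero (hc : 0 ≤ c) : Bd τ 0 c := fun m => by simpa using hc

theorem bd_nat (hτ : 0 < τ) (n : ℕ) : Bd τ (n : L) 1 := by
  have := (bd_alg hτ (n : K)).mono (norm_nat_le n)
  rwa [map_natCast] at this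

theorem bd_five (hτ : 0 < τ) : Bd τ (5 : L) (1 / 5) := by
  have := bd_alg hτ 5
  rwa [norm_five, map_ofNat] at this

theorem Bd.pow (hτ : 0 < τ) (h : Bd τ u c) (n : ℕ) : Bd τ (u ^ n) (c ^ n) := by
  induction n with
  | zero => simpa using bd_one hτ
  | succ n ih => rw [pow_succ, pow_succ]; exact ih.mul hτ h

theorem Bd.prod (hτ : 0 < τ) {ι : Type} (s : Finset ι) (f : ι → L) (g : ι → ℝ)
    (h : ∀ i ∈ s, Bd τ (f i) (g i)) : Bd τ (∏ i ∈ s, f i) (∏ i ∈ s, g i) := by
  classical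
  induction s using Finset.induction_on with
  | empty => simpa using bd_one hτ
  | insert a s ha ih =>
    rw [Finset.prod_insert ha, Finset.prod_insert ha]
    exact (h a (by simp)).mul hτ (ih fun i hi => h i (by simp [hi]))

theorem Bd.th (hτ : 0 < τ) (h : Bd τ u c) : Bd τ (th u) c := fun m => by
  rw [th_coeff, norm_mul, mul_assoc]
  exact (mul_le_of_le_one_left (by positivity) (norm_int_le m)).trans (h m)

theorem Bd.ct (h : Bd τ u c) : ‖u.coeff 0‖ ≤ c := by simpa using h 0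

/-- Some bound exists. -/
def Fin' (τ : ℝ) (u : L) : Prop := ∃ c, Bd τ u c

theorem Fin'.add (hτ : 0 < τ) (h : Fin' τ u) (h' : Fin' τ v) : Fin' τ (u + v) := by
  obtain ⟨c, h⟩ := h
  obtain ⟨d, h'⟩ := h'
  exact ⟨max c d, (h.mono (le_max_left _ _)).add hτ (h'.mono (le_max_right _ _))⟩

theorem Fin'.mul (hτ : 0 < τ) (h : Fin' τ u) (h' : Fin' τ v) : Fin' τ (u * v) := by
  obtain ⟨c, h⟩ := h
  obtain ⟨d, h'⟩ := h'
  exact ⟨c * d, h.mul hτ h'⟩

theorem Fin'.sum (hτ : 0 < τ) {ι : Type} (s : Finset ι) (f : ι → L)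
    (h : ∀ i ∈ s, Fin' τ (f i)) : Fin' τ (∑ i ∈ s, f i) :=
  Finset.sum_induction f _ (fun _ _ => Fin'.add hτ) ⟨0, bd_zero le_rfl⟩ h

variable {o p : ℤ}

theorem Ord.mono (h : Ord u o) (hp : p ≤ o) : Ord u p := fun m hm => h m (by omega)

theorem Ord.add (h : Ord u o) (h' : Ord v o) : Ord (u + v) o := fun m hm => by
  simp [h m hm, h' m hm]

theorem Ord.neg (h : Ord u o) : Ord (-u) o := fun m hm => by simp [h m hm]

theorem Ord.sub (h : Ord u o) (h' : Ord v o) : Ord (u - v) o := fun m hm => by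
  simp [h m hm, h' m hm]

theorem Ord.mul (h : Ord u o) (h' : Ord v p) : Ord (u * v) (o + p) := fun m hm => by
  rw [HahnSeries.coeff_mul]
  refine Finset.sum_eq_zero fun ij hij => ?_
  have := (Finset.mem_antidiagonal.1 hij).2.2
  by_cases hi : ij.1 < o
  · simp [h _ hi]
  · simp [h' ij.2 (by omega)]

theorem ord_single (n : ℤ) (a : K) : Ord (HahnSeries.single n a) n := fun m hm => by
  rw [HahnSeries.coeff_single_of_ne hm.ne]

theorem ord_alg (a : K) : Ord (algebraMap K L a) 0 := ord_single 0 a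

theorem ord_nat (n : ℕ) : Ord (n : L) 0 := by simpa using ord_alg (n : K)

theorem ord_one : Ord 1 0 := by simpa using ord_nat 1

theorem ord_zero : Ord 0 o := fun m _ => by simp

theorem Ord.pow (h : Ord u o) (n : ℕ) : Ord (u ^ n) (n * o) := by
  induction n with
  | zero => simpa using ord_one
  | succ n ih => rw [pow_succ]; push_cast; rw [add_mul, one_mul]; exact ih.mul h

theorem Ord.prod {ι : Type} (s : Finset ι) (f : ι → L) (g : ι → ℤ)
    (h : ∀ i ∈ s, Ord (f i) (g i)) : Ord (∏ i ∈ s, f i) (∑ i ∈ s, g i) := by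
  classical
  induction s using Finset.induction_on with
  | empty => simpa using ord_one
  | insert a s ha ih =>
    rw [Finset.prod_insert ha, Finset.sum_insert ha]
    exact (h a (by simp)).mul (ih fun i hi => h i (by simp [hi]))

theorem Ord.sum {ι : Type} (s : Finset ι) (f : ι → L) (h : ∀ i ∈ s, Ord (f i) o) :
    Ord (∑ i ∈ s, f i) o :=
  Finset.sum_induction f (fun u => Ord u o) (fun _ _ => Ord.add) ord_zero h

theorem Bd.of_ord {σ : ℝ} (hσ : 0 < σ) (hl : σ ≤ τ) (h : Bd τ u c) (ho : Ord u o) :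
    Bd σ u (c * (σ / τ) ^ o) := fun m => by
  have hτ : 0 < τ := hσ.trans_le hl
  have hc := h.nonneg hτ
  by_cases hm : m < o
  · rw [ho m hm, norm_zero, zero_mul]; positivity
  · have e : ‖u.coeff m‖ * σ ^ m = ‖u.coeff m‖ * τ ^ m * (σ / τ) ^ m := by
      rw [div_zpow]; field_simp
    rw [e]
    exact mul_le_mul (h m) (zpow_le_zpow_right_of_le_one₀ (by positivity)
      ((div_le_one hτ).2 hl) (by omega)) (by positivity) hc

end

end Pool.Agent.MP_8d06cc_nt.H27
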