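import Pool.Agent.MP_8d06cc_nt.H27.Rel

/-! Solving the differential equation and bounding the coefficients of the solution. -/

namespace Pool.Agent.MP_8d06cc_nt.H27

open Polynomial

theorem Lop_add (F u v : LP) : Lop F (u + v) = Lop F u + Lop F v := by
  simp only [Lop, map_add]; ring

theorem Lop_C (F : LP) (c : K) (u : LP) : Lop F (.C c * u) = .C c * Lop F u := by
  simp only [Lop, Derivation.leibniz, thP_C, smul_eq_mul]; ring

theorem Lop_shift (m : ℤ) (P u : LP) :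
    Lop (.T (2 * m) * P) (.T (-m) * u) = .T m * Lop P u := by
  have e : (LaurentPolynomial.T (2 * m) : LP) * .T (-m) = .T m := by
    rw [← LaurentPolynomial.T_add]; congr 1; ring
  simp only [Lop, Derivation.leibniz, thP_T, smul_eq_mul, ← e]
  push_cast
  simp only [map_mul, map_neg, map_ofNat]
  ring

theorem coeff_add' (u v : LP) (n : ℤ) : (u + v).coeff n = u.coeff n + v.coeff n := by simp

theorem coeff_sub' (u v : LP) (n : ℤ) : (u - v).coeff n = u.coeff n - v.coeff n := by simp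

theorem Lop_coeff {p : K[X]} {k : ℕ} (hp : p.natDegree ≤ k) (ψ : LP) (n : ℤ) :
    (Lop (toLaurent p) ψ).coeff n =
      ∑ l ∈ Finset.range (k + 1), p.coeff l * (((2 * n - l : ℤ) : K) * ψ.coeff (n - l)) := by
  have key : ∀ s : Finset ℕ, (Lop (toLaurent (∑ l ∈ s, monomial l (p.coeff l))) ψ).coeff n =
      ∑ l ∈ s, p.coeff l * (((2 * n - l : ℤ) : K) * ψ.coeff (n - l)) := by
    intro s
    induction s using Finset.induction_on with
    | empty => simp [Lop]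
    | insert a s ha ih =>
      rw [Finset.sum_insert ha, Finset.sum_insert ha, ← ih, map_add, toLaurent_C_mul_T]
      have e : ∀ Q : LP, Lop (.C (p.coeff a) * .T a + Q) ψ =
          .C (p.coeff a) * (.T a * (.C 2 * thP ψ + .C ((a : ℤ) : K) * ψ)) + Lop Q ψ := by
        intro Q
        simp only [Lop, map_add, Derivation.leibniz, thP_C, thP_T, smul_eq_mul, map_ofNat]
        ring
      rw [e, coeff_add', coeff_C_mul, coeff_T_mul, coeff_add', coeff_C_mul, coeff_C_mul, thP_coeff]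
      push_cast
      ring
  conv_lhs => rw [p.as_sum_range' (k + 1) (by omega)]
  exact key _

theorem Lop_T {p : K[X]} {k : ℕ} (hp : p.natDegree ≤ k) (j n : ℤ) :
    (Lop (toLaurent p) (.T j)).coeff n =
      if j ≤ n ∧ n ≤ j + k then p.coeff (n - j).toNat * ((n + j : ℤ) : K) else 0 := by
  rw [Lop_coeff hp]
  split_ifs with h
  · rw [Finset.sum_eq_single (n - j).toNat]
    · rw [LaurentPolynomial.T_apply, if_pos (by omega), mul_one]
      congr 2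
      omega
    · intro l _ hl
      rw [LaurentPolynomial.T_apply, if_neg (by omega), mul_zero, mul_zero]
    · intro h'
      exact absurd (Finset.mem_range.2 (by omega)) h'
  · refine Finset.sum_eq_zero fun l hl => ?_
    have := Finset.mem_range.1 hl
    rw [LaurentPolynomial.T_apply, if_neg (by omega), mul_zero, mul_zero]

theorem exists_bounds (G : LP) : ∃ N : ℕ, LD G N ∧ LO G (-N) := by
  refine ⟨G.coeff.support.sup Int.natAbs, fun n hn => ?_, fun n hn => ?_⟩ <;>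
  · by_contra h
    have := Finset.le_sup (f := Int.natAbs) (Finsupp.mem_support_iff.2 h)
    omega

theorem solve_pos {p : K[X]} {k : ℕ} (hp : p.natDegree ≤ k) (h1 : p.coeff k = 1) (G : LP) :
    ∃ ψ, LO ψ 0 ∧ ∀ n : ℤ, k ≤ n → 1 ≤ n → (Lop (toLaurent p) ψ).coeff n = G.coeff n := by
  obtain ⟨N, hN, -⟩ := exists_bounds G
  induction N generalizing G with
  | zero => exact ⟨0, fun _ _ => by simp, fun n _ hn => by simp [Lop, hN n (by omega)]⟩
  | succ N ih =>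
    by_cases hk : N + 1 < k
    · exact ⟨0, fun _ _ => by simp, fun n hn _ => by simp [Lop, hN n (by omega)]⟩
    have hc : ((N + 1 + (N + 1 - k) : ℤ) : K) ≠ 0 := Int.cast_ne_zero.2 (by omega)
    obtain ⟨ψ, h0, hψ⟩ := ih (G - .C (G.coeff (N + 1) / ((N + 1 + (N + 1 - k) : ℤ) : K)) *
        Lop (toLaurent p) (.T (N + 1 - k))) fun n hn => by
      rw [coeff_sub', coeff_C_mul, Lop_T hp]
      by_cases h : n = N + 1
      · subst h
        rw [if_pos (by omega), show ((N : ℤ) + 1 - (N + 1 - k)).toNat = k by omega, h1, one_mul,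
          div_mul_cancel₀ _ hc, sub_self]
      · rw [hN n (by push_cast; omega), if_neg (by omega), mul_zero, sub_zero]
    refine ⟨ψ + .C (G.coeff (N + 1) / ((N + 1 + (N + 1 - k) : ℤ) : K)) * .T (N + 1 - k),
      fun n hn => ?_, fun n hn hn' => ?_⟩
    · rw [coeff_add', coeff_C_mul, h0 n hn, lo_T _ n (by omega), mul_zero, add_zero]
    · rw [Lop_add, Lop_C, coeff_add', hψ n hn hn', coeff_sub', sub_add_cancel]

theorem Lop_lo {p : K[X]} {ψ : LP} (h : LO ψ 0) : LO (Lop (toLaurent p) ψ) 1 := fun n hn => by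
  rw [Lop_coeff le_rfl]
  refine Finset.sum_eq_zero fun l _ => ?_
  by_cases h0 : n - l < 0
  · rw [h _ h0, mul_zero, mul_zero]
  · rw [show 2 * n - l = 0 by omega]; simp

theorem solve_two {p : K[X]} {k : ℕ} (hp : p.natDegree ≤ k) (h1 : p.coeff k = 1)
    (h0 : p.coeff 0 ≠ 0) (G : LP) :
    ∃ ψ, ∀ n : ℤ, (n < 0 ∨ (k ≤ n ∧ 1 ≤ n)) → (Lop (toLaurent p) ψ).coeff n = G.coeff n := by
  obtain ⟨N, -, hN⟩ := exists_bounds G
  induction N generalizing G with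
  | zero =>
    obtain ⟨ψ, ho, hψ⟩ := solve_pos hp h1 G
    refine ⟨ψ, fun n hn => ?_⟩
    rcases hn with hn | hn
    · rw [Lop_lo ho n (by omega), hN n (by omega)]
    · exact hψ n hn.1 hn.2
  | succ N ih =>
    have hc : p.coeff 0 * ((-(N + 1) + -(N + 1) : ℤ) : K) ≠ 0 :=
      mul_ne_zero h0 (Int.cast_ne_zero.2 (by omega))
    obtain ⟨ψ, hψ⟩ := ih (G - .C (G.coeff (-(N + 1)) / (p.coeff 0 * ((-(N + 1) + -(N + 1) : ℤ) : K))) *
        Lop (toLaurent p) (.T (-(N + 1)))) fun n hn => by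
      rw [coeff_sub', coeff_C_mul, Lop_T hp]
      by_cases h : n = -(N + 1)
      · subst h
        rw [if_pos (by omega), sub_self, Int.toNat_zero, div_mul_cancel₀ _ hc, sub_self]
      · rw [hN n (by push_cast; omega), if_neg (by omega), mul_zero, sub_zero]
    exact ⟨ψ + .C _ * .T (-(N + 1)), fun n hn => by
      rw [Lop_add, Lop_C, coeff_add', hψ n hn, coeff_sub', sub_add_cancel]⟩

theorem ker2 (u v : Fin 3 → K) : ∃ a : Fin 3 → K, a ≠ 0 ∧ ∑ i, a i * u i = 0 ∧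
    ∑ i, a i * v i = 0 := by
  obtain ⟨a, ha, h⟩ := (Matrix.exists_mulVec_eq_zero_iff (M := Matrix.of ![u, v, 0])).2
    (Matrix.det_eq_zero_of_row_eq_zero 2 fun j => by simp)
  refine ⟨a, ha, ?_, ?_⟩
  · simpa [Matrix.mulVec, dotProduct, mul_comm] using congrFun h 0
  · simpa [Matrix.mulVec, dotProduct, mul_comm] using congrFun h 1

/-- A linear functional on pairs. -/
def Lin (H : LP → K[X] → K) : Prop :=
  (∀ ψ g ψ' g', H (ψ + ψ') (g + g') = H ψ g + H ψ' g') ∧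
    ∀ c ψ g, H (.C c * ψ) (C c * g) = c * H ψ g

theorem tri_sol (Q : LP → K[X] → Prop)
    (Qa : ∀ ψ g ψ' g', Q ψ g → Q ψ' g' → Q (ψ + ψ') (g + g'))
    (Qs : ∀ c ψ g, Q ψ g → Q (.C c * ψ) (C c * g))
    (hs : ∀ i : ℕ, ∃ ψ, Q ψ (X ^ i)) (Φ₁ Φ₂ : LP → K[X] → K) (h1 : Lin Φ₁)
    (h2 : Lin Φ₂) : ∃ ψ g, g.natDegree ≤ 2 ∧ Q ψ g ∧ Φ₁ ψ g = 0 ∧ Φ₂ ψ g = 0 ∧
      gn 1 g ≤ 1 ∧ ‖ψ.coeff 0‖ ≤ 1 ∧ ‖ψ.coeff 1‖ ≤ 1 ∧
      ¬ (gn 1 g < 1 ∧ ‖ψ.coeff 0‖ < 1 ∧ ‖ψ.coeff 1‖ < 1) := by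
  choose ψ hψ using hs
  obtain ⟨a, ha, a1, a2⟩ := ker2 (fun i => Φ₁ (ψ i) (X ^ (i : ℕ))) (fun i => Φ₂ (ψ i) (X ^ (i : ℕ)))
  simp only [Fin.sum_univ_three, Fin.val_zero, Fin.val_one, Fin.val_two] at a1 a2
  set φ : LP := .C (a 0) * ψ 0 + .C (a 1) * ψ 1 + .C (a 2) * ψ 2
  set g : K[X] := C (a 0) * X ^ 0 + C (a 1) * X ^ 1 + C (a 2) * X ^ 2 with hg
  have ev : ∀ Φ, Lin Φ → ∀ c, Φ (.C c * φ) (C c * g) =
      c * (a 0 * Φ (ψ 0) (X ^ 0) + a 1 * Φ (ψ 1) (X ^ 1) + a 2 * Φ (ψ 2) (X ^ 2)) :=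
    fun Φ h c => by rw [h.2, h.1, h.1, h.2, h.2, h.2]
  have gd : g.natDegree ≤ 2 := by rw [hg]; compute_degree
  have gp : 0 < gn 1 g := by
    by_contra h
    refine ha (funext fun i => norm_le_zero_iff.1 ?_)
    have := (le_gn one_pos g i).trans (not_lt.1 h)
    fin_cases i <;> simpa [hg, coeff_X, coeff_C, coeff_one] using this
  obtain ⟨z, hz⟩ : ∃ z : K, ‖z‖ = max (gn 1 g) (max ‖φ.coeff 0‖ ‖φ.coeff 1‖) := by
    obtain ⟨i, hi⟩ := gn_eq 1 g
    rw [one_pow, mul_one] at hi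
    rcases max_cases (gn 1 g) (max ‖φ.coeff 0‖ ‖φ.coeff 1‖) with h | h
    · exact ⟨_, by rw [h.1, hi]⟩
    · rcases max_cases ‖φ.coeff 0‖ ‖φ.coeff 1‖ with h' | h' <;> exact ⟨_, by rw [h.1, h'.1]⟩
  have zp : 0 < ‖z‖ := hz ▸ lt_max_of_lt_left gp
  refine ⟨.C z⁻¹ * φ, C z⁻¹ * g, (natDegree_C_mul_le _ _).trans gd,
    Qs _ _ _ (Qa _ _ _ _ (Qa _ _ _ _ (Qs _ _ _ (hψ 0)) (Qs _ _ _ (hψ 1))) (Qs _ _ _ (hψ 2))),
    by rw [ev _ h1, a1, mul_zero],
    by rw [ev _ h2, a2, mul_zero], ?_⟩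
  simp only [gn_mul one_pos, gn_C, coeff_C_mul, norm_mul, norm_inv, inv_mul_le_one₀ zp,
    inv_mul_lt_one₀ zp]
  refine ⟨hz ▸ le_max_left _ _, hz ▸ le_max_of_le_right (le_max_left _ _),
    hz ▸ le_max_of_le_right (le_max_right _ _), fun h => ?_⟩
  exact absurd hz (max_lt h.1 (max_lt h.2.1 h.2.2)).ne'

theorem lb_lt {r c : ℝ} (hc : 0 < c) {u : LP} (h : ∀ n, ‖u.coeff n‖ * r ^ n < c) :
    ∃ ρ < c, LB r u ρ := by
  refine ⟨(insert 0 (u.coeff.support.image fun n => ‖u.coeff n‖ * r ^ n)).max' (by simp), ?_,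
    fun n => Finset.le_max' _ _ ?_⟩
  · rw [Finset.max'_lt_iff]
    intro y hy
    rcases Finset.mem_insert.1 hy with rfl | hy
    · exact hc
    · obtain ⟨n, -, rfl⟩ := Finset.mem_image.1 hy
      exact h n
  · by_cases h0 : u.coeff n = 0
    · simp [h0]
    · exact Finset.mem_insert_of_mem (Finset.mem_image_of_mem _ (Finsupp.mem_support_iff.2 h0))

theorem key_lt {P ψ μ : LP} {g : K[X]} {κ : ℤ} (hP : LB 1 P 1) (hψ : ∀ n, ‖ψ.coeff n‖ < 1)
    (hg : gn 1 g ≤ 1) (hμ : ∀ n, ‖(μ - 1).coeff n‖ < 1)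
    (h : Lop P ψ = .T κ * toLaurent g * μ) : gn 1 g < 1 := by
  obtain ⟨ρ, h1, l1⟩ := lb_lt (r := 1) one_pos (u := ψ) (by simpa using hψ)
  obtain ⟨ρ', h2, l2⟩ := lb_lt (r := 1) one_pos (u := μ - 1) (by simpa using hμ)
  have l3 : LB 1 (Lop P ψ) ρ :=
    (by simpa using ((lb_two one_pos).mul one_pos hP).mul one_pos (l1.th one_pos) :
      LB 1 (2 * P * thP ψ) ρ).add one_pos (by simpa using (hP.th one_pos).mul one_pos l1)
  have l4 := ((lb_T one_pos κ).mul one_pos ((lb_toL one_pos g).mono hg)).mul one_pos l2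
  rw [one_zpow, one_mul, one_mul] at l4
  have l5 := (l3.mono (le_max_left ρ ρ')).sub one_pos (l4.mono (le_max_right _ _))
  rw [h, mul_sub, sub_sub_cancel, mul_one] at l5
  refine (gn_le fun i => ?_).trans_lt (max_lt h1 h2)
  have := l5 (i + κ)
  rwa [coeff_T_mul, add_sub_cancel_right, coeff_toL, one_zpow, ← one_pow i] at this

theorem seq_bd (u c : ℕ → ℝ) (j₀ N : ℕ) {τ : ℝ} (h0 : 0 < τ) (h1 : τ ≤ 1)
    (c0 : ∀ j, j₀ ≤ j → 0 < c j) (c1 : ∀ j, c j ≤ 1) (hN : ∀ i, N ≤ i → u i = 0)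
    (h : ∀ j, j₀ ≤ j → ∀ B, τ ^ (j - j₀ + 1) * ∏ i ∈ Finset.Icc j₀ j, c i ≤ B →
      (∀ i, j < i → u i ≤ B) → c j * u j ≤ B) : ∀ j, j₀ ≤ j → u j ≤ τ ^ (j - j₀ + 1) := by
  set b : ℕ → ℝ := fun j => τ ^ (j - j₀ + 1) * ∏ i ∈ Finset.Ico j₀ j, c i with hb
  have pp : ∀ j, 0 < ∏ i ∈ Finset.Ico j₀ j, c i :=
    fun j => Finset.prod_pos fun i hi => c0 i (Finset.mem_Ico.1 hi).1
  have bp : ∀ j, 0 < b j := fun j => mul_pos (by positivity) (pp j)
  have st : ∀ j, j₀ ≤ j → b (j + 1) ≤ c j * b j := by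
    intro j hj
    simp only [hb]
    rw [Finset.prod_Ico_succ_top hj, show j + 1 - j₀ + 1 = j - j₀ + 1 + 1 by omega, pow_succ]
    have := mul_pos (mul_pos (pow_pos h0 (j - j₀ + 1)) (pp j)) (c0 j hj)
    nlinarith
  have an : ∀ j, j₀ ≤ j → ∀ i, j ≤ i → b i ≤ b j := by
    intro j hj i hi
    induction i, hi using Nat.le_induction with
    | base => exact le_rfl
    | succ i hi ih => exact (st i (by omega)).trans ((mul_le_of_le_one_left (bp i).le (c1 i)).trans ih)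
  have main : ∀ m j, j₀ ≤ j → N ≤ j + m → u j ≤ b j := by
    intro m
    induction m with
    | zero => intro j _ hj; rw [hN j hj]; exact (bp j).le
    | succ m ih =>
      intro j hj hm
      refine le_of_mul_le_mul_left (h j hj _ (le_of_eq ?_) fun i hi => ?_) (c0 j hj)
      · simp only [hb]
        rw [← Finset.Ico_add_one_right_eq_Icc, Finset.prod_Ico_succ_top hj]
        ring
      · exact (ih i (by omega) (by omega)).trans ((an _ (by omega) i hi).trans (st j hj))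
  intro j hj
  exact (main N j hj (by omega)).trans (mul_le_of_le_one_right (by positivity)
    (Finset.prod_le_one (fun i hi => (c0 i (Finset.mem_Ico.1 hi).1).le) fun i _ => c1 i))

/-- The ratio of the auxiliary radii. -/
noncomputable def s : ℝ := 16 / 15

theorem s1 : 1 < s := by norm_num [s]

theorem s0 : 0 < s := by norm_num [s]

theorem s24 : s ^ 24 ≤ 5 := by norm_num [s]

theorem s25 : 5 ≤ s ^ 25 := by norm_num [s]

theorem fac_bd {M n : ℕ} (hM : M ≠ 0) (h : n ∣ M.factorial) :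
    ∃ v : ℕ, 4 * v < M ∧ s⁻¹ ^ (25 * v) ≤ ‖(n : K)‖ := by
  refine ⟨_, sub_one_mul_padicValNat_factorial_lt_of_ne_zero (p := 5) hM, ?_⟩
  obtain ⟨m, hm⟩ := h
  have e : ‖((M.factorial : ℕ) : K)‖ = 5⁻¹ ^ padicValNat 5 M.factorial := by
    have := norm_rat (M.factorial : ℕ)
    rw [Rat.cast_natCast, padicNorm.eq_zpow_of_nonzero (by positivity), padicValRat.of_nat] at this
    rw [this]
    simp
  calc s⁻¹ ^ (25 * padicValNat 5 M.factorial) ≤ ‖((M.factorial : ℕ) : K)‖ := by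
        rw [e, pow_mul, inv_pow s 25]
        exact pow_le_pow_left₀ (by have := s0; positivity) (inv_anti₀ (by norm_num) s25) _
    _ ≤ _ := by
        rw [hm, Nat.cast_mul, norm_mul]
        exact mul_le_of_le_one_right (norm_nonneg _) (norm_nat_le m)

theorem est {a b j₀ j e E : ℕ} (ha : 0 < a) (hb : 0 < a * j₀ + b) (hj : j₀ ≤ j)
    (h : ∀ v, 4 * v < a * j + b → 25 * v + e ≤ E) :
    s⁻¹ ^ E ≤ s⁻¹ ^ e * ∏ i ∈ Finset.Icc j₀ j, ‖((a * i + b : ℕ) : K)‖ := by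
  have m : ∀ i, j₀ ≤ i → 0 < a * i + b := fun i hi =>
    hb.trans_le (by gcongr)
  have d : ∏ i ∈ Finset.Icc j₀ j, (a * i + b) ∣ (a * j + b).factorial := by
    rw [← Finset.prod_Ico_id_eq_factorial, ← Finset.prod_image (f := fun n => n)
      (g := fun i => a * i + b) fun x _ y _ hxy => by
        exact Nat.eq_of_mul_eq_mul_left ha (Nat.add_right_cancel hxy)]
    refine Finset.prod_dvd_prod_of_subset _ _ _ fun n hn => ?_
    obtain ⟨i, hi, rfl⟩ := Finset.mem_image.1 hn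
    obtain ⟨h1, h2⟩ := Finset.mem_Icc.1 hi
    have := Nat.mul_le_mul_left a h2
    exact Finset.mem_Ico.2 ⟨m i h1, by omega⟩
  obtain ⟨v, hv, hn⟩ := fac_bd (m j hj).ne' d
  rw [Nat.cast_prod, norm_prod] at hn
  have t0 : 0 < s⁻¹ := inv_pos.2 s0
  refine (pow_le_pow_of_le_one t0.le (inv_le_one_of_one_le₀ s1.le) (h v hv)).trans ?_
  rw [add_comm, pow_add]
  gcongr

theorem term_le {p : K[X]} (hp : gn 1 p ≤ 1) (l : ℕ) (m : ℤ) {z : K} {B : ℝ} (h : ‖z‖ ≤ B) :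
    ‖p.coeff l * ((m : K) * z)‖ ≤ B := by
  have := (le_gn one_pos p l).trans hp
  rw [one_pow, mul_one] at this
  rw [norm_mul, norm_mul]
  exact (mul_le_of_le_one_left (by positivity) this).trans
    ((mul_le_of_le_one_left (norm_nonneg _) (norm_int_le m)).trans h)

theorem top_down {p : K[X]} {k : ℕ} (hp : p.natDegree ≤ k) (h1 : p.coeff k = 1) (hg : gn 1 p ≤ 1)
    {ψ G : LP} {a b j₀ : ℕ} (ha : 0 < a) (hb : 0 < a * j₀ + b)
    (hc : ∀ j : ℕ, ‖((2 * j + k : ℕ) : K)‖ = ‖((a * j + b : ℕ) : K)‖) (E : ℕ → ℕ)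
    (hE : ∀ j, j₀ ≤ j → ∀ v, 4 * v < a * j + b → 25 * v + (j - j₀ + 1) ≤ E j)
    (hG : ∀ j : ℕ, j₀ ≤ j → ‖G.coeff (j + k)‖ ≤ s⁻¹ ^ E j)
    (h : ∀ j : ℕ, j₀ ≤ j → (Lop (toLaurent p) ψ).coeff (j + k) = G.coeff (j + k)) :
    ∀ j : ℕ, j₀ ≤ j → ‖ψ.coeff j‖ ≤ s⁻¹ ^ (j - j₀ + 1) := by
  obtain ⟨N, hN, -⟩ := exists_bounds ψ
  refine seq_bd (fun j => ‖ψ.coeff j‖) (fun j => ‖((a * j + b : ℕ) : K)‖) j₀ (N + 1) (inv_pos.2 s0)
    (inv_le_one_of_one_le₀ s1.le) (fun j hj => norm_pos_iff.2 (Nat.cast_ne_zero.2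
      (hb.trans_le (by gcongr)).ne')) (fun j => norm_nat_le _)
    (fun i hi => by rw [hN i (by omega), norm_zero]) fun j hj B hB hi => ?_
  have e := h j hj
  rw [Lop_coeff hp, Finset.sum_range_succ, h1, one_mul, add_sub_cancel_right] at e
  have b0 : 0 ≤ B := (norm_nonneg _).trans (hi (j + 1) (by omega))
  rw [← hc, ← norm_mul, show ((2 * j + k : ℕ) : K) = ((2 * (j + k) - k : ℤ) : K) by push_cast; ring,
    eq_sub_of_add_eq' e]
  refine norm_sub_le' ((hG j hj).trans ((est ha hb hj (hE j hj)).trans hB))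
    (IsUltrametricDist.norm_sum_le_of_forall_le_of_nonneg b0 fun l hl => term_le hg _ _ ?_)
  have := Finset.mem_range.1 hl
  have := hi (j + k - l) (by omega)
  rwa [show ((j + k - l : ℕ) : ℤ) = j + k - l by omega] at this

theorem bottom_up {p : K[X]} (h0 : ‖p.coeff 0‖ = 1) (hg : gn 1 p ≤ 1) {ψ G : LP}
    (hG : ∀ j : ℕ, 1 ≤ j → ‖G.coeff (-j)‖ ≤ s⁻¹ ^ (8 * j))
    (h : ∀ j : ℕ, 1 ≤ j → (Lop (toLaurent p) ψ).coeff (-j) = G.coeff (-j)) :
    ∀ j : ℕ, 1 ≤ j → ‖ψ.coeff (-j)‖ ≤ s⁻¹ ^ (j - 1 + 1) := by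
  obtain ⟨N, -, hN⟩ := exists_bounds ψ
  refine seq_bd (fun j => ‖ψ.coeff (-j)‖) (fun j => ‖((1 * j + 0 : ℕ) : K)‖) 1 (N + 1)
    (inv_pos.2 s0) (inv_le_one_of_one_le₀ s1.le) (fun j hj => norm_pos_iff.2 (Nat.cast_ne_zero.2
      (by omega))) (fun j => norm_nat_le _)
    (fun i hi => by rw [hN _ (by omega), norm_zero]) fun j hj B hB hi => ?_
  have e := h j hj
  rw [Lop_coeff le_rfl, Finset.sum_range_succ'] at e
  have b0 : 0 ≤ B := (norm_nonneg _).trans (hi (j + 1) (by omega))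
  have e2 := congrArg norm (eq_sub_of_add_eq' e)
  simp only [norm_mul, h0, one_mul, Nat.cast_zero, sub_zero, Int.cast_mul, Int.cast_neg,
    Int.cast_natCast, Int.cast_ofNat, norm_two, norm_neg] at e2
  rw [one_mul, add_zero, e2]
  refine norm_sub_le' ((hG j hj).trans ((est one_pos one_pos hj (by omega)).trans hB))
    (IsUltrametricDist.norm_sum_le_of_forall_le_of_nonneg b0 fun l _ => ?_)
  have := hi (j + l + 1) (by omega)
  rw [show -((j + l + 1 : ℕ) : ℤ) = -j - (l + 1 : ℕ) by omega] at this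
  have := term_le hg (l + 1) (2 * -j - (l + 1 : ℕ)) this
  simpa using this

end Pool.Agent.MP_8d06cc_nt.H27
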