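import Pool.Agent.MP_8d06cc_nt.H27.Cfg

/-! Point counts in discs and at a vertex. -/

namespace Pool.Agent.MP_8d06cc_nt.H27

open Polynomial Finset

theorem exists_int {q : ℚ} (h : ‖(q : K)‖ ≤ 1) : ∃ n : ℤ, ‖(q : K) - n‖ < 1 := by
  rw [norm_rat, ← Padic.eq_padicNorm] at h
  obtain ⟨n, -, -, hn⟩ := PadicInt.exists_mem_range_of_norm_rat_le_one (p := 5) q h
  refine ⟨n, ?_⟩
  have := norm_rat (q - n)
  rw [← Padic.eq_padicNorm] at this
  push_cast at this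
  rw [this]
  simpa [PadicInt.norm_def] using hn

/-- Integer representative of a residue class. -/
def ri (c : ZMod 5) : ℤ := c.val

/-- Rational representative of a residue class. -/
def rp (c : ZMod 5) : ℚ := ri c

theorem ri_cast (c : ZMod 5) : (ri c : ZMod 5) = c := by simp [ri]

theorem rp_cast (c : ZMod 5) : (rp c : K) = ri c := Rat.cast_intCast _

theorem zm (m : ℤ) : ‖(m : K)‖ < 1 ↔ (m : ZMod 5) = 0 :=
  (norm_int_lt_iff m).trans (ZMod.intCast_zmod_eq_zero_iff_dvd m 5).symm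

theorem rp_le (c : ZMod 5) : ‖(rp c : K)‖ ≤ 1 := rp_cast c ▸ norm_int_le _

theorem exists_class {q : ℚ} (h : ‖(q : K)‖ ≤ 1) : ∃ c : ZMod 5, ‖(q : K) - rp c‖ < 1 := by
  obtain ⟨n, hn⟩ := exists_int h
  refine ⟨n, ?_⟩
  have := norm_add_lt' hn ((zm (n - ri n)).2 (by simp [ri_cast]))
  rwa [Int.cast_sub, sub_add_sub_cancel, ← rp_cast] at this

theorem norm_sub_iff {z c : K} {r : ℝ} (hc : ‖c‖ ≤ r) : ‖z - c‖ ≤ r ↔ ‖z‖ ≤ r :=
  ⟨fun h => by simpa using norm_add_le' h hc, fun h => norm_sub_le' h hc⟩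

theorem norm_sub_iff' {z c : K} {r : ℝ} (hc : ‖c‖ < r) : ‖z - c‖ < r ↔ ‖z‖ < r :=
  ⟨fun h => by simpa using norm_add_lt' h hc, fun h => norm_sub_lt' h hc⟩

theorem norm_sub_big {z c : K} (h : ‖c‖ < ‖z‖) : ‖z - c‖ = ‖z‖ :=
  norm_eq_of_sub_lt (by simpa using h)

/-- Bound for an open disc with `k` branch points. -/
def cc : ℕ → ℕ
  | 0 => 2
  | 1 => 1
  | 2 => 4
  | _ => 5

/-- Bound for a closed disc with `k` branch points. -/
def vb : ℕ → ℕ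
  | 1 => 5
  | 2 => 12
  | _ => 10

/-- Taylor coefficients of a quartic. -/
def t0 {R : Type} [CommRing R] (a b c d e x : R) : R := a + b * x + c * x ^ 2 + d * x ^ 3 + e * x ^ 4

/-- Taylor coefficients of a quartic. -/
def t1 {R : Type} [CommRing R] (b c d e x : R) : R := b + 2 * c * x + 3 * d * x ^ 2 + 4 * e * x ^ 3

/-- Taylor coefficients of a quartic. -/
def t2 {R : Type} [CommRing R] (c d e x : R) : R := c + 3 * d * x + 6 * e * x ^ 2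

/-- Taylor coefficients of a quartic. -/
def t3 {R : Type} [CommRing R] (d e x : R) : R := d + 4 * e * x

/-- Bound for one residue class. -/
def bb (a b c d e ε x : ZMod 5) : ℕ :=
  if t0 a b c d e x ≠ 0 then (if t0 a b c d e x ^ 2 = ε then 2 else 0)
  else if t1 b c d e x ≠ 0 then 1 else if t2 c d e x ≠ 0 then 4 else
    if t3 d e x ≠ 0 then 5 else 0

theorem dec0 : ∀ ε, ∑ x, bb 1 0 0 0 0 ε x ≤ 10 := by decide +kernel

theorem dec1 : ∀ a ε, ∑ x, bb a 1 0 0 0 ε x ≤ 5 := by decide +kernel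

theorem dec2 : ∀ a b ε, ∑ x, bb a b 1 0 0 ε x ≤ 12 := by decide +kernel

theorem dec3 : ∀ a b c ε, ∑ x, bb a b c 1 0 ε x ≤ 10 := by decide +kernel

theorem dec4 : ∀ a b c d ε, ∑ x, bb a b c d 1 ε x ≤ 10 ∨ ∑ x, bb a b c d 1 ε x ≤ 14 ∧
    ∃ x y, x ≠ y ∧ bb a b c d 1 ε x = 4 ∧ bb a b c d 1 ε y = 4 := by decide +kernel

theorem sq5 : ∀ u v m : ZMod 5, u ≠ 0 → v ≠ 0 → m ^ 2 = u * v → u ^ 2 = v ^ 2 := by decide

namespace Cfg

variable (Z : Cfg)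

theorem exists_near (c : ℚ) {r : ℝ} (hr : 0 < r) :
    ∃ c' : ℚ, ‖(c' : K) - c‖ < r ∧ c' ∉ Z.T ∧ ∀ i, Z.β i ≠ c' := by
  obtain ⟨N, hN⟩ := exists_pow_lt_of_lt_one hr (by norm_num : (1 / 5 : ℝ) < 1)
  have inf := Set.infinite_range_of_injective (f := fun n : ℕ => c + 5 ^ N * (n : ℚ))
    fun a b h => by simpa using h
  obtain ⟨_, ⟨n, rfl⟩, h⟩ := inf.exists_notMem_finite (Z.T.finite_toSet.union
    ((Set.finite_range Z.β).preimage (Rat.cast_injective (α := K)).injOn))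
  refine ⟨_, ?_, fun h' => h (.inl h'), fun i h' => h (.inr ⟨i, h'⟩)⟩
  push_cast
  rw [add_sub_cancel_left, norm_mul, norm_pow, norm_five]
  exact (mul_le_of_le_one_right (by positivity) (norm_nat_le n)).trans_lt hN

theorem disc0 (h0 : 0 ∉ Z.T) {k E m : ℕ}
    (h : (k = 0 ∧ E = 8 ∧ m = 1) ∨ (k = 1 ∧ E = 24 ∧ m = 0) ∨ (k = 2 ∧ E = 12 ∧ m = 1) ∨
      (k = 3 ∧ E = 24 ∧ m = 1)) (hk : Z.nr (‖·‖ ≤ 1) = k)
    (hE : ∀ i, ‖Z.β i‖ ≤ 1 ∨ s ^ E ≤ ‖Z.β i‖) : Z.fr (‖·‖ ≤ 1) ≤ m := by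
  classical
  have sE : s < s ^ E := by simpa using pow_lt_pow_right₀ s1 (show 1 < E by omega)
  have hF := fac_of Z.β Z.c (fun _ => False) (fun i => ‖Z.β i‖ ≤ 1) (R₁ := 1 / 2) (by norm_num)
    (pow_pos s0 E) (d := True) (by simp) (fun i _ h => (hE i).resolve_left h) (by simp)
  have hp := rts_props Z.β {i | ‖Z.β i‖ ≤ 1}
  simp only [filter_false, card_empty, Nat.cast_zero, LaurentPolynomial.T_zero, one_mul,
    not_false_eq_true, true_and, ← F_eq] at hF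
  have hk' := hk
  rw [nr_eq] at hk'
  rw [hk'] at hp
  have hg := hp.2.2.1 fun i hi => (mem_filter.1 hi).2
  obtain ⟨i, hi⟩ : ∃ i, 1 * s ≤ ‖Z.β i‖ := by
    by_contra! h'
    have := nr_not (Z := Z) (‖·‖ ≤ 1)
    rw [hk, nr_eq_zero.2 fun i => not_not.2 ((hE i).resolve_right fun e => by
      linarith [h' i])] at this
    omega
  have odd : ∀ j, k = 2 * j + 1 → ∃ c, P5 c ∧ gn s Z.F = c * s ^ (2 * j + 1) := fun j hj => by
    have := (Z.top s0).1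
    rw [nr_congr (q := (‖·‖ ≤ 1)) fun i => ⟨fun h => (hE i).resolve_right fun e => by linarith,
      fun h => h.trans s1.le⟩, hk, hj] at this
    exact ⟨_, Z.F_rt.p5 fun h => by simp [h, (Z.gn_pos s0).ne] at this, this.symm⟩
  have two : (∀ a : Fin 2 → ℚ, (∀ i, a i ∈ Z.T) → (∀ i, Z.f.eval (a i) ≠ 0) →
      (∀ i, (a i : K) ≠ 0) → (∀ i, ‖(a i : K)‖ ≤ 1) → (a 0 : K) ≠ a 1 → False) →
      Z.fr (‖·‖ ≤ 1) ≤ 1 := fun h => card_le_one.2 fun a ha b hb => by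
    obtain ⟨a1, a2, a3⟩ : a ∈ Z.T ∧ ‖(a : K)‖ ≤ 1 ∧ Z.f.eval a ≠ 0 := by simpa using ha
    obtain ⟨b1, b2, b3⟩ : b ∈ Z.T ∧ ‖(b : K)‖ ≤ 1 ∧ Z.f.eval b ≠ 0 := by simpa using hb
    have a0 : a ≠ 0 := fun e => h0 (e ▸ a1)
    have b0 : b ≠ 0 := fun e => h0 (e ▸ b1)
    by_contra hab
    exact h ![a, b] (by simp [a1, b1]) (by simp [a3, b3]) (by simp [a0, b0])
      (by simp [a2, b2]) (by simpa using hab)
  rcases h with ⟨rfl, rfl, rfl⟩ | ⟨rfl, rfl, rfl⟩ | ⟨rfl, rfl, rfl⟩ | ⟨rfl, rfl, rfl⟩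
  · refine two fun a aT af x0 x1 ne => ?_
    obtain ⟨σ, hb, hW⟩ := Z.bdd2 aT af
    rw [card_eq_zero.1 hk', prod_empty] at hF
    simpa using reg0 σ Z.F_deg x0 x1 ne hF (by simpa using rho_out σ one_pos hb x1 (Z.F_root i) hi) hW
  · refine Nat.le_zero.2 (card_eq_zero.2 (filter_eq_empty_iff.2 fun a ha h => ?_))
    obtain ⟨σ, r, hW, -⟩ := Z.base (fun _ : Unit => a) () ha h.2
    obtain ⟨c, c1, c2⟩ := odd 0 rfl
    exact reg1 σ Z.F_deg (fun _ => Rat.cast_ne_zero.2 fun e => h0 (e ▸ ha)) (fun _ => h.1) hp.1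
      hp.2.1 hg hF (rho_odd σ r.1 r.2 (fun _ => h.1) c1 c2) hW
  · refine two fun a aT af x0 x1 ne => ?_
    obtain ⟨σ, hb, hW⟩ := Z.bdd2 aT af
    exact reg2 σ Z.F_deg x0 x1 ne hp.1 hp.2.1 hg hF
      (by simpa using rho_out σ one_pos hb x1 (Z.F_root i) hi) hW
  · refine two fun a aT af x0 x1 ne => ?_
    choose σ r w1 w2 using fun j => Z.base a j (aT j) (af j)
    obtain ⟨c, c1, c2⟩ := odd 1 rfl
    exact reg3 σ Z.F_deg x0 x1 ne hp.1 hp.2.1 hg hF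
      (fun j => rho_odd (σ j) (r j).1 (r j).2 x1 c1 c2) w1 w2

theorem disc {k E m : ℕ}
    (h : (k = 0 ∧ E = 8 ∧ m = 1) ∨ (k = 1 ∧ E = 24 ∧ m = 0) ∨ (k = 2 ∧ E = 12 ∧ m = 1) ∨
      (k = 3 ∧ E = 24 ∧ m = 1)) (hk : Z.nr (‖·‖ ≤ 1) = k)
    (hE : ∀ i, ‖Z.β i‖ ≤ 1 ∨ s ^ E ≤ ‖Z.β i‖) : Z.cnt (‖·‖ ≤ 1) ≤ k + 2 * m := by
  obtain ⟨γ, h1, h2, -⟩ := Z.exists_near 0 one_pos
  rw [Rat.cast_zero, sub_zero] at h1
  have e : ∀ z : K, ‖(z - γ) / (1 : ℚ)‖ ≤ 1 ↔ ‖z‖ ≤ 1 := fun z => by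
    simpa using norm_sub_iff h1.le
  have k1 : (Z.aff 1 γ one_ne_zero).nr (‖·‖ ≤ 1) = k := by rw [nr_aff, ← hk]; simp only [e]
  have := (Z.aff 1 γ one_ne_zero).disc0 (by
      simp only [aff, mem_image, div_one, sub_eq_zero, not_exists, not_and]
      rintro a ha rfl
      exact h2 ha) h k1 fun i => by
    by_cases hi : ‖Z.β i‖ ≤ 1
    · exact .inl ((e _).2 hi)
    · right
      simp only [aff, Rat.cast_one, div_one]
      rw [norm_sub_big (h1.trans (not_le.1 hi))]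
      exact (hE i).resolve_left hi
  have c := cnt_le (Z := Z.aff 1 γ one_ne_zero) (‖·‖ ≤ 1)
  rw [cnt_aff, k1] at c
  simp only [e] at c
  omega

theorem outer {j E : ℕ} (hj : Z.nr (fun z => 1 < ‖z‖ ∧ ‖z‖ < 5) ≤ j) (h : E * j ≤ 24)
    (h' : E ≤ 24) (i : Fin 8) : ‖Z.β i‖ ≤ 1 ∨ s ^ E ≤ ‖Z.β i‖ := by
  refine or_iff_not_imp_left.2 fun h1 => ?_
  by_cases h5 : ‖Z.β i‖ < 5
  · have := (Z.int_lem (not_le.1 h1) h5 hj).1
    rcases j with _ | j
    · norm_num at this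
    refine le_of_pow_le_pow_left₀ j.succ_ne_zero (norm_nonneg _) (le_trans ?_ this)
    rw [← pow_mul]
    exact (pow_le_pow_right₀ s1.le h).trans s24
  · exact ((pow_le_pow_right₀ s1.le h').trans s24).trans (not_lt.1 h5)

theorem mid_ne_one : Z.nr (fun z => 1 < ‖z‖ ∧ ‖z‖ < 5) ≠ 1 := fun h => by
  obtain ⟨i, hi⟩ : ∃ i, 1 < ‖Z.β i‖ ∧ ‖Z.β i‖ < 5 := by
    by_contra h'
    rw [nr_eq_zero.2 fun i hi => h' ⟨i, hi⟩] at h
    omega
  linarith [(Z.int_lem hi.1 hi.2 h.le).1, hi.2]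

theorem nr_split : Z.nr (‖·‖ < 5) = Z.nr (‖·‖ ≤ 1) + Z.nr fun z => 1 < ‖z‖ ∧ ‖z‖ < 5 :=
  nr_add (fun z => ⟨fun h => (le_or_gt _ 1).imp_right fun h' => ⟨h', h⟩,
    fun h => h.elim (fun h => by linarith) And.right⟩) fun z h h' => by linarith [h'.1]

theorem F_shift (γ : ℚ) : (Z.aff 1 γ one_ne_zero).F = Z.F.comp (X + C (γ : K)) := by
  simp [F, aff, map_comp]

theorem cnt_cover {ι : Type} [Fintype ι] {p : K → Prop} (q : ι → K → Prop)
    (h : ∀ a : ℚ, a ∈ Z.T → p a → ∃ c, q c a) : Z.cnt p ≤ ∑ c, Z.cnt (q c) := by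
  classical
  simp only [cnt, sum_filter]
  rw [sum_comm]
  refine sum_le_sum fun a ha => ?_
  split_ifs with hp
  · obtain ⟨c, hc⟩ := h a ha hp
    exact le_trans (by rw [if_pos hc]) (single_le_sum (f := fun c => if q c a then wt Z.f a else 0)
      (fun _ _ => Nat.zero_le _) (mem_univ c))
  · exact Nat.zero_le _

theorem vert (hk : Z.nr (‖·‖ ≤ 1) ≤ 4) (hl : ∀ c : ZMod 5, Z.nr (‖· - rp c‖ < 1) ≤ 3)
    (hd : ∀ c : ZMod 5, Z.cnt (‖· - rp c‖ < 1) ≤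
    cc (Z.nr (‖· - rp c‖ < 1))) : Z.cnt (‖·‖ ≤ 1) ≤ vb (Z.nr (‖·‖ ≤ 1)) ∨
      (Z.nr (‖·‖ ≤ 1) = 4 ∧ Z.cnt (‖·‖ ≤ 1) ≤ 14 ∧ ∃ x y : ZMod 5, x ≠ y ∧ Z.nr (‖· - rp x‖ < 1) = 2 ∧
        Z.nr (‖· - rp y‖ < 1) = 2) := by
  obtain ⟨h1, h2⟩ := Z.top one_pos
  set k := Z.nr (‖·‖ ≤ 1) with hkk
  have G0 := Z.gn_pos one_pos
  simp only [one_pow, mul_one] at h1 h2
  have fc : ∀ l, Z.F.coeff l = (Z.f.coeff l : ℚ) := fun l => by simp [F]
  set lam : K := Z.F.coeff k with hlam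
  have l0 : lam ≠ 0 := by rw [← norm_pos_iff, h1]; exact G0
  have nl : ∀ z : K, ‖lam⁻¹ * z‖ = ‖z‖ / gn 1 Z.F := fun z => by
    rw [norm_mul, norm_inv, h1, div_eq_inv_mul]
  have ap : ∀ l, ∃ n : ℤ, ‖lam⁻¹ * Z.F.coeff l - n‖ < 1 := fun l => by
    have := exists_int (q := (Z.f.coeff k)⁻¹ * Z.f.coeff l) (by
      push_cast
      rw [← fc, ← fc, nl, div_le_one G0]
      simpa using le_gn one_pos Z.F l)
    push_cast at this
    rwa [← fc, ← fc] at this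
  choose n hn using ap
  have n1 : (n k : ZMod 5) = 1 := by
    have := hn k
    rw [inv_mul_cancel₀ l0, norm_sub_rev, ← Int.cast_one, ← Int.cast_sub, zm] at this
    simpa [sub_eq_zero] using this
  have n0 : ∀ l, k < l → (n l : ZMod 5) = 0 := fun l hl => by
    have := norm_sub_lt' (show ‖lam⁻¹ * Z.F.coeff l‖ < 1 by rw [nl, div_lt_one G0]; exact h2 l hl)
      (hn l)
    rwa [sub_sub_cancel, zm] at this
  set Q : K[X] := C (n 0 : K) + C (n 1 : K) * X + C (n 2 : K) * X ^ 2 + C (n 3 : K) * X ^ 3 +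
    C (n 4 : K) * X ^ 4 with hQ
  have gE : gn 1 (C lam⁻¹ * Z.F - Q) < 1 := by
    obtain ⟨l, hl⟩ := gn_eq 1 (C lam⁻¹ * Z.F - Q)
    rw [hl, one_pow, mul_one, coeff_sub, Polynomial.coeff_C_mul]
    by_cases h5 : l < 5
    · convert hn l
      interval_cases l <;> simp [hQ, coeff_X, coeff_C, coeff_X_pow, -map_intCast, -eq_intCast]
    · rw [coeff_eq_zero_of_natDegree_lt (p := Q) (lt_of_le_of_lt (b := 4)
        (by rw [hQ]; compute_degree) (by omega)), sub_zero, nl, div_lt_one G0]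
      exact h2 l (by omega)
  have cls : ∀ c : ZMod 5, ∃ t : ℕ → ℤ,
      (t 0 : ZMod 5) = t0 (R := ZMod 5) (n 0) (n 1) (n 2) (n 3) (n 4) c ∧
      (t 1 : ZMod 5) = t1 (R := ZMod 5) (n 1) (n 2) (n 3) (n 4) c ∧
      (t 2 : ZMod 5) = t2 (R := ZMod 5) (n 2) (n 3) (n 4) c ∧
      (t 3 : ZMod 5) = t3 (R := ZMod 5) (n 3) (n 4) c ∧
      (∀ j < 4, (j < Z.nr (‖· - rp c‖ < 1) → (t j : ZMod 5) = 0) ∧
        (j = Z.nr (‖· - rp c‖ < 1) → (t j : ZMod 5) ≠ 0)) ∧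
      ∀ z : K, ‖z - rp c‖ < 1 → ‖lam⁻¹ * Z.F.eval z - t 0‖ < 1 := by
    intro c
    have c1 := rp_le c
    let t : ℕ → ℤ := fun j => if j = 0 then t0 (n 0) (n 1) (n 2) (n 3) (n 4) (ri c) else
      if j = 1 then t1 (n 1) (n 2) (n 3) (n 4) (ri c) else
      if j = 2 then t2 (n 2) (n 3) (n 4) (ri c) else t3 (n 3) (n 4) (ri c)
    have g1 := (gn_comp one_pos c1 _).trans_lt gE
    rw [sub_comp, mul_comp, C_comp, ← F_shift] at g1
    have qc : Q.comp (X + C (rp c : K)) = C (t 0 : K) + C (t 1 : K) * X + C (t 2 : K) * X ^ 2 +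
        C (t 3 : K) * X ^ 3 + C (n 4 : K) * X ^ 4 := by
      simp [hQ, t, t0, t1, t2, t3, map_ofNat, rp_cast]
      ring
    have gs : gn 1 (Z.aff 1 (rp c) one_ne_zero).F = gn 1 Z.F := by
      refine le_antisymm (Z.F_shift _ ▸ gn_comp one_pos c1 _) ?_
      have := gn_comp one_pos (b := -(rp c : K)) (by rwa [norm_neg])
        (Z.aff 1 (rp c) one_ne_zero).F
      rwa [F_shift, comp_assoc, add_comp, X_comp, C_comp, map_neg, neg_add_cancel_right, comp_X,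
        ← F_shift] at this
    have co : ∀ j < 4, ‖lam⁻¹ * (Z.aff 1 (rp c) one_ne_zero).F.coeff j - t j‖ < 1 := fun j hj => by
      have := (le_gn one_pos _ j).trans_lt g1
      have e : (Q.comp (X + C (rp c : K))).coeff j = t j := by
        rw [qc]
        interval_cases j <;> simp [coeff_X, coeff_C, coeff_X_pow, -map_intCast, -eq_intCast]
      rwa [one_pow, mul_one, coeff_sub, Polynomial.coeff_C_mul, e] at this
    obtain ⟨b1, b2⟩ := (Z.aff 1 (rp c) one_ne_zero).bot one_pos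
    simp only [nr_aff, Rat.cast_one, div_one, one_pow, mul_one, gs] at b1 b2
    refine ⟨t, by simp [t, t0, ri_cast], by simp [t, t1, ri_cast], by simp [t, t2, ri_cast],
      by simp [t, t3, ri_cast], fun j hj => ⟨fun h => ?_, fun h => ?_⟩, fun z hz => ?_⟩
    · have := norm_sub_lt' (show ‖lam⁻¹ * (Z.aff 1 (rp c) one_ne_zero).F.coeff j‖ < 1 by
        rw [nl, div_lt_one G0]; exact b2 j h) (co j hj)
      rwa [sub_sub_cancel, zm] at this
    · rw [Ne, ← zm]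
      intro h'
      have := norm_add_lt' (co j hj) h'
      rw [sub_add_cancel, nl, h, b1, div_self G0.ne'] at this
      exact this.false
    · have e1 := (eval_le one_pos hz.le _).trans_lt g1
      rw [qc, F_shift] at e1
      simp only [eval_sub, eval_mul, eval_C, eval_comp, eval_add, eval_X, sub_add_cancel,
        eval_pow] at e1
      have e2 : ‖(z - rp c) * ((t 1 : K) + (z - rp c) * (t 2 + (z - rp c) *
          (t 3 + (z - rp c) * n 4)))‖ < 1 := by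
        have m : ∀ (i : ℤ) {v : K}, ‖v‖ ≤ 1 → ‖i + (z - rp c) * v‖ ≤ 1 := fun i v hv =>
          norm_add_le' (norm_int_le i) (by
            rw [norm_mul]; exact mul_le_one₀ hz.le (norm_nonneg _) hv)
        rw [norm_mul]
        exact mul_lt_one_of_nonneg_of_lt_one_left (norm_nonneg _) hz
          (m _ (m _ (m _ (norm_int_le _))))
      convert norm_add_lt' e1 e2 using 2
      ring
  choose t e0 e1 e2 e3 ht hv using cls
  obtain ⟨ε, hε⟩ : ∃ ε : ZMod 5, ∀ c : ZMod 5, (t c 0 : ZMod 5) ≠ 0 →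
      Z.cnt (‖· - rp c‖ < 1) ≠ 0 → (t c 0 : ZMod 5) ^ 2 = ε := by
    have pt : ∀ c : ZMod 5, Z.cnt (‖· - rp c‖ < 1) ≠ 0 →
        ∃ y : ℚ, ‖lam⁻¹ * (y * y) - t c 0‖ < 1 := fun c h => by
      obtain ⟨a, ha, -⟩ := exists_ne_zero_of_sum_ne_zero h
      obtain ⟨y, hy⟩ := (Z.good a (mem_filter.1 ha).1).1
      have := hv c a (mem_filter.1 ha).2
      rw [F_eval, hy, Rat.cast_mul] at this
      exact ⟨y, this⟩
    by_cases h : ∃ c : ZMod 5, (t c 0 : ZMod 5) ≠ 0 ∧ Z.cnt (‖· - rp c‖ < 1) ≠ 0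
    · obtain ⟨c', h1, h2⟩ := h
      refine ⟨(t c' 0 : ZMod 5) ^ 2, fun c h3 h4 => ?_⟩
      obtain ⟨y, hy⟩ := pt c h4
      obtain ⟨y', hy'⟩ := pt c' h2
      have a1 : ‖lam⁻¹ * (y * y)‖ ≤ 1 := by
        simpa only [sub_add_cancel] using norm_add_le' hy.le (norm_int_le (t c 0))
      have a2 : ‖lam⁻¹ * (y' * y')‖ ≤ 1 := by
        simpa only [sub_add_cancel] using norm_add_le' hy'.le (norm_int_le (t c' 0))
      have a3 : ‖lam⁻¹ * (y * y')‖ ≤ 1 := by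
        refine le_of_sq_le_sq₀ zero_le_one ?_
        rw [← norm_pow, show (lam⁻¹ * (y * y')) ^ 2 = lam⁻¹ * (y * y) * (lam⁻¹ * (y' * y')) by ring,
          norm_mul, one_pow]
        exact mul_le_one₀ a1 (norm_nonneg _) a2
      obtain ⟨m, hm⟩ := exists_int (q := (Z.f.coeff k)⁻¹ * (y * y')) (by push_cast; rwa [← fc])
      push_cast at hm
      rw [← fc, ← hlam] at hm
      refine sq5 _ _ m h3 h1 (sub_eq_zero.1 ?_)
      have m1 : ∀ {u v : K}, ‖u‖ < 1 → ‖v‖ ≤ 1 → ‖u * v‖ < 1 := fun hu hv => by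
        rw [norm_mul]; exact mul_lt_one_of_nonneg_of_lt_one_left (norm_nonneg _) hu hv
      have := norm_sub_lt' (norm_add_lt' (m1 hy a2) (m1 hy' (norm_int_le (t c 0))))
        (m1 hm (norm_add_le' a3 (norm_int_le m)))
      rw [show (lam⁻¹ * (y * y) - t c 0) * (lam⁻¹ * (y' * y')) + (lam⁻¹ * (y' * y') - t c' 0) * t c 0 -
        (lam⁻¹ * (y * y') - m) * (lam⁻¹ * (y * y') + m) = ((m ^ 2 - t c 0 * t c' 0 : ℤ) : K) by
          push_cast; ring, zm] at this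
      simpa using this
    · exact ⟨0, fun c h1 h2 => absurd ⟨c, h1, h2⟩ h⟩
  have key : ∀ c : ZMod 5, Z.cnt (‖· - rp c‖ < 1) ≤ bb (n 0) (n 1) (n 2) (n 3) (n 4) ε c ∧
      (bb (n 0) (n 1) (n 2) (n 3) (n 4) ε c = 4 → Z.nr (‖· - rp c‖ < 1) = 2) := fun c => by
    have a0 := ht c 0 (by norm_num)
    have a1 := ht c 1 (by norm_num)
    have a2 := ht c 2 (by norm_num)
    have a3 := ht c 3 (by norm_num)
    have d := hd c
    have l := hl c
    have e := hε c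
    rw [bb, ← e0, ← e1, ← e2, ← e3]
    generalize Z.nr (‖· - rp c‖ < 1) = m at *
    rcases m with _ | _ | _ | m
    · rw [if_pos (a0.2 rfl)]
      by_cases h : (t c 0 : ZMod 5) ^ 2 = ε
      · rw [if_pos h]
        exact ⟨d, by omega⟩
      · rw [if_neg h]
        exact ⟨Nat.le_zero.2 (not_not.1 fun h' => h (e (a0.2 rfl) h')), by omega⟩
    · rw [if_neg (not_not.2 (a0.1 (by omega))), if_pos (a1.2 rfl)]
      exact ⟨d, by omega⟩
    · rw [if_neg (not_not.2 (a0.1 (by omega))), if_neg (not_not.2 (a1.1 (by omega))),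
        if_pos (a2.2 rfl)]
      exact ⟨d, fun _ => rfl⟩
    · rw [if_neg (not_not.2 (a0.1 (by omega))), if_neg (not_not.2 (a1.1 (by omega))),
        if_neg (not_not.2 (a2.1 (by omega))), if_pos (a3.2 (by omega))]
      exact ⟨d, by omega⟩
  have tot := (Z.cnt_cover (p := (‖·‖ ≤ 1)) (fun (c : ZMod 5) z => ‖z - rp c‖ < 1)
    fun a _ h => exists_class h).trans (sum_le_sum fun c _ => (key c).1)
  clear_value k
  interval_cases k
  · rw [n1, n0 1 (by omega), n0 2 (by omega), n0 3 (by omega), n0 4 (by omega)] at tot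
    exact .inl (tot.trans (dec0 ε))
  · rw [n1, n0 2 (by omega), n0 3 (by omega), n0 4 (by omega)] at tot
    exact .inl (tot.trans (dec1 _ ε))
  · rw [n1, n0 3 (by omega), n0 4 (by omega)] at tot
    exact .inl (tot.trans (dec2 _ _ ε))
  · rw [n1, n0 4 (by omega)] at tot
    exact .inl (tot.trans (dec3 _ _ _ ε))
  · rw [n1] at tot key
    exact (dec4 (n 0) (n 1) (n 2) (n 3) ε).imp tot.trans fun ⟨h', x, y, h, hx, hy⟩ =>
      ⟨rfl, tot.trans h', x, y, h, (key x).2 hx, (key y).2 hy⟩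

end Cfg

end Pool.Agent.MP_8d06cc_nt.H27
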